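import Mathlib
import Pool.Agent.Q4.Hall.Root

set_option autoImplicit false
set_option linter.unusedSectionVars false

/-!
# Integers close to combinations of the forms with small varying coefficients
-/

namespace Pool.Agent.Q4.Cov

open Filter Topology Pool.Agent.TH932.Abs Pool.Agent.TH932.Germs Pool.Agent.TH932.Chi
open Pool.Agent.TH796.AL Pool.Agent.Q4.Blk Pool.Agent.Q4.Gcd Module

variable {m : ℕ} {B : Base m} {L : ℕ → ℝ} (hL : Tendsto L atTop atTop)
variable {F : IntermediateField ℚ ℝ} [FiniteDimensional ℚ F] {σ : Type} [Fintype σ] [DecidableEq σ]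
variable {θ : σ → F} {g0 : Fin m → ℝ} {y : σ → GG}
variable (H : Fam B L F θ (fun _ => g0) y) (hg1 : lv B none g0 ≠ 0) {κ : KK L hL} (hκ : κ ≠ 0)

include H hg1 hκ in
/-- integers close to combinations of the forms with small coefficients -/
theorem form_germM (d : ℕ) {J : Type} [Fintype J] [DecidableEq J] (κs : J → KK L hL)
    (hκs : LinearIndependent ℚ κs) (Y : GG)
    (hYv : ∀ v, Y ∈ Sv B L (some v) 0) (hYi : Sint B L Y) (c : J × Ex (Option σ) d → F) (e : ℝ)
    (he : 0 < e)
    (hΛ : rho Y - ∑ p : J × Ex (Option σ) d, algebraMap ℝ HR (c p : ℝ)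
      * (rho (κs p.1 : GG) * Zh hL κ g0 θ y B p.2.1) ∈ SR L e) :
    ∃ γ : J × Ex (Option σ) d → ℚ,
      Y = ∑ p, (γ p : GG) * ((κs p.1 : GG) * Xh hL κ g0 y B p.2.1) := by
  classical
  have hκv : ∀ (v : Option (Fin m)) (k : ℕ), (κ : GG) ^ k ∈ Sv B L v 0 := by
    intro v k
    have := (filt_v (B := B) hL v).alg_mem (κ ^ k)
    have h2 : algebraMap (KK L hL) GG (κ ^ k) = (κ : GG) ^ k := by rw [map_pow]; rfl
    rwa [h2] at this
  have hsv : ∀ (v : Option (Fin m)) (j : J), (κs j : GG) ∈ Sv B L v 0 := fun v j =>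
    (filt_v (B := B) hL v).alg_mem (κs j)
  refine close F (fun p : J × Ex (Option σ) d => (κs p.1 : GG) * Xh hL κ g0 y B p.2.1)
    (fun p : J × Ex (Option σ) d => rho (κs p.1 : GG) * Zh hL κ g0 θ y B p.2.1)
    (fun p p' => if p.1 = p'.1 then Mh θ p.2.1 p'.2.1 else 0)
    ?_ ?_ ?_
    (fun v p => (p.2.1 none : ℝ) * lv B (some v) g0)
    (fun p => (p.2.1 none : ℝ) * lv B none g0) ?_ ?_ ?_ ?_ Y hYv hYi c e he hΛ hL
  · rintro ⟨j, a⟩ ⟨k, b⟩
    rw [Fintype.sum_prod_type]
    simp only []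
    rw [Finset.sum_eq_single j]
    · simp only [if_true, Prod.mk.injEq]
      by_cases hjk : j = k
      · subst hjk
        simp only [if_true, true_and]
        exact Mh_sq hL (B := B) hg1 d a b
      · simp only [if_neg hjk, mul_zero, Finset.sum_const_zero]
        rw [if_neg (fun h => hjk h.1)]
    · intro i _ hi
      refine Finset.sum_eq_zero fun b' _ => ?_
      rw [if_neg (Ne.symm hi), zero_mul]
    · intro h; exact absurd (Finset.mem_univ _) h
  · rintro ⟨j, a⟩
    rw [Fintype.sum_prod_type]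
    simp only []
    rw [Finset.sum_eq_single j]
    · rw [Zh_eq hL hg1 κ d a, Finset.mul_sum]
      refine Finset.sum_congr rfl fun b _ => ?_
      rw [if_pos rfl, map_mul]
      ring
    · intro i _ hi
      refine Finset.sum_eq_zero fun b' _ => ?_
      rw [if_neg (Ne.symm hi)]
      have h0 : ((0 : F) : ℝ) = 0 := rfl
      rw [h0, map_zero, zero_mul]
    · intro h; exact absurd (Finset.mem_univ _) h
  · intro b hb
    have h2 := Xh_indep hL H hg1 hκ d (fun a => ∑ j, ((b (j, a) : ℤ) : KK L hL) * κs j) (by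
      rw [← hb, Fintype.sum_prod_type, Finset.sum_comm]
      refine Finset.sum_congr rfl fun a _ => ?_
      push_cast
      rw [Finset.sum_mul]
      refine Finset.sum_congr rfl fun j _ => ?_
      ring)
    rintro ⟨j, a⟩
    have h3 := h2 a
    rw [Fintype.linearIndependent_iff] at hκs
    have h4 := hκs (fun j => ((b (j, a) : ℤ) : ℚ)) (by
      rw [← h3]
      refine Finset.sum_congr rfl fun j _ => ?_
      rw [Algebra.smul_def]
      congr 1
      simp) j
    exact_mod_cast h4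
  · rintro v ⟨j, a⟩
    have h1 := (filt_v (B := B) hL (some v)).mul_mem (hκv (some v) (∑ i, a.1 i))
      (H.x_fin hL v (om g0 a.1))
    rw [sh_om, lv_smul, zero_add] at h1
    have h2 := (filt_v (B := B) hL (some v)).mul_mem (hsv (some v) j) h1
    rw [zero_add] at h2
    exact h2
  · rintro ⟨j, a⟩
    have h1 := SR_mul hL (SR_rho (hκv none (∑ i, a.1 i))) (H.z_inf hL (om g0 a.1))
    rw [sh_om, lv_smul, zero_add, map_pow] at h1
    have h2 := SR_mul hL (SR_rho (hsv none j)) h1
    rw [zero_add] at h2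
    exact h2
  · rintro ⟨j, a⟩
    refine Sint.mul hL (Sint.alg hL _) ?_
    exact Sint.mul hL (Sint_pow (Sint.alg hL _) _ hL) (H.x_int hL _)
  · rintro ⟨j, a⟩
    simp only []
    rw [← Finset.mul_sum, sum_fin_lv]
    ring

end Pool.Agent.Q4.Cov

namespace Pool.Agent.Q4.Hyp

open Filter Topology Pool.Agent.TH932.Abs Pool.Agent.TH932.Germs Pool.Agent.TH932.Chi
open Pool.Agent.TH796.AL Pool.Agent.Q4.Blk Pool.Agent.Q4.Gcd Pool.Agent.Q4.Cov Module MvPolynomial
open Pool.Agent.Q4.Tube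

/-- sequences of rational numbers of negligible height -/
def Sml (q : ℕ → ℕ) (hL : Tendsto (fun n => Real.log (q n)) atTop atTop) (s : ℕ → ℚ) : Prop :=
  gm s ∈ KK (fun n => Real.log (q n)) hL

section
variable {q : ℕ → ℕ} {hL : Tendsto (fun n => Real.log (q n)) atTop atTop}

lemma Sml.add {s t : ℕ → ℚ} (hs : Sml q hL s) (ht : Sml q hL t) : Sml q hL (fun n => s n + t n) := by
  unfold Sml at *
  rw [← gm_add]
  exact add_mem hs ht

lemma Sml.mul {s t : ℕ → ℚ} (hs : Sml q hL s) (ht : Sml q hL t) : Sml q hL (fun n => s n * t n) := by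
  unfold Sml at *
  rw [← gm_mul]
  exact mul_mem hs ht

lemma Sml.sub {s t : ℕ → ℚ} (hs : Sml q hL s) (ht : Sml q hL t) : Sml q hL (fun n => s n - t n) := by
  unfold Sml at *
  rw [← gm_sub]
  exact sub_mem hs ht

lemma Sml.inv {s : ℕ → ℚ} (hs : Sml q hL s) : Sml q hL (fun n => (s n)⁻¹) := by
  unfold Sml at *
  rw [← gm_inv]
  exact inv_mem hs

lemma Sml.const (c : ℚ) : Sml q hL (fun _ => c) := by
  unfold Sml
  have h1 : gm (fun _ => c) = ((c : KK (fun n => Real.log (q n)) hL) : GG) := by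
    push_cast
    rw [rat_gm]
  rw [h1]
  exact SetLike.coe_mem _

lemma Sml.sum {ι : Type*} (A : Finset ι) {s : ι → ℕ → ℚ} (hs : ∀ i ∈ A, Sml q hL (s i)) :
    Sml q hL (fun n => ∑ i ∈ A, s i n) := by
  classical
  induction A using Finset.induction_on with
  | empty => simpa using Sml.const (q := q) (hL := hL) 0
  | insert i A hi ih =>
    simp only [Finset.sum_insert hi]
    exact (hs i (Finset.mem_insert_self _ _)).add (ih fun j hj => hs j (Finset.mem_insert_of_mem hj))

lemma Sml.congr {s t : ℕ → ℚ} (hs : Sml q hL s) (h : ∀ᶠ n in (UU : Filter ℕ), t n = s n) :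
    Sml q hL t := by
  unfold Sml at *
  rw [gm_eq.2 h]
  exact hs

/-- sequences of integers of size `q ^ o(1)` -/
lemma Sml.int (hq : ∀ n, n + 2 ≤ q n) {s : ℕ → ℤ}
    (h : ∀ ε : ℝ, 0 < ε → ∀ᶠ n in (UU : Filter ℕ), |(s n : ℝ)| ≤ (q n : ℝ) ^ ε) :
    Sml q hL (fun n => (s n : ℚ)) := by
  refine small_mem hL s (fun ε hε => ?_)
  filter_upwards [h ε hε] with n hn
  rwa [Real.rpow_def_of_pos (qpos hq n), mul_comm] at hn

lemma Sml.sm (hq : ∀ n, n + 2 ≤ q n) {s : ℕ → ℚ} (hs : Sml q hL s) :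
    Sm q 0 (fun n => ((s n : ℝ) : ℂ)) := by
  obtain ⟨m, d, hm, hd, hd0, he⟩ := hs
  intro ε hε
  filter_upwards [hm ε hε, hd0, gm_eq.1 he] with n h1 h2 h3
  rw [Complex.norm_real, Real.norm_eq_abs, h3, zero_add, Real.rpow_def_of_pos (qpos hq n), mul_comm]
  refine le_trans ?_ h1
  push_cast
  rw [abs_div]
  have h4 : (1 : ℝ) ≤ |(d n : ℝ)| := by exact_mod_cast Int.one_le_abs h2
  exact div_le_self (abs_nonneg _) h4

end

section
variable {σ : Type} [Fintype σ] [DecidableEq σ]
variable (S : Finset ℕ) (hS : ∀ p ∈ S, p.Prime) {θ : σ → ℝ} (halg : ∀ s, IsAlgebraic ℚ (θ s))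
  (hind : LinearIndependent ℚ (fun o : Option σ => (o.elim 1 (fun s => θ s) : ℝ)))
  {q : ℕ → ℕ} {x : ℕ → σ → ℤ} (H : Tub S θ q x)

include hS halg hind H

/-- **The engine with small varying coefficients.** -/
theorem engineM (hL : Tendsto (fun n => Real.log (q n)) atTop atTop) {J : Type} [Fintype J]
    [DecidableEq J] (D : ℕ) (μ : J → ℕ → ℚ) (hμ : ∀ j, Sml q hL (μ j)) (z : ℕ → ℤ)
    (c : J → Ex (Option σ) D → QB) (δ : ℝ) (hδ : 0 < δ)
    (happ : Sm q (-δ) (fun n => (z n : ℂ) - ∑ j, ((μ j n : ℝ) : ℂ)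
      * ∑ a, phi (c j a) * ((zv θ (q n) (x n) a.1 : ℝ) : ℂ))) :
    ∃ G : J → MvPolynomial (Option σ) ℚ, (∀ j, (G j).totalDegree ≤ D) ∧
      ∀ᶠ n in (UU : Filter ℕ), (z n : ℚ) = ∑ j, μ j n * va (q n) (x n) (G j) := by
  classical
  obtain ⟨F, hfin, θ', c', g0, κ, y, hc', HF, hg, hg0, hκ, hu, hX, hZ⟩ :=
    tub_setup S hS θ halg hind H hL (fun p : J × Ex (Option σ) D => (phi (c p.1 p.2)).re)
      (fun p => alg_re (alg_QB (c p.1 p.2)))
  have hg1 : lv (bas S hS) none g0 ≠ 0 := by rw [hg]; norm_num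
  obtain ⟨mm, hmm⟩ : ∃ mm : J → KK (fun n => Real.log (q n)) hL, ∀ j, (mm j : GG) = gm (μ j) :=
    ⟨fun j => ⟨gm (μ j), hμ j⟩, fun _ => rfl⟩
  obtain ⟨J', a, hinj, hspan, hli⟩ := exists_linearIndependent' ℚ mm
  have : Finite J' := Finite.of_injective a hinj
  have : Fintype J' := Fintype.ofFinite J'
  have hr : ∀ j, ∃ r : J' → ℚ, ∑ k, r k • mm (a k) = mm j := by
    intro j
    have h1 : mm j ∈ Submodule.span ℚ (Set.range (mm ∘ a)) := by
      rw [hspan]
      exact Submodule.subset_span ⟨j, rfl⟩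
    exact (Submodule.mem_span_range_iff_exists_fun ℚ).1 h1
  choose r hr using hr
  have hr' : ∀ j, ∑ k, ((r j k : ℚ) : GG) * gm (μ (a k)) = gm (μ j) := by
    intro j
    have h1 := congrArg Subtype.val (hr j)
    rw [← hmm j, ← h1, AddSubmonoidClass.coe_finsetSum]
    refine Finset.sum_congr rfl fun k _ => ?_
    rw [Algebra.smul_def, MulMemClass.coe_mul, hmm]
    congr 1
  obtain ⟨γ, hγ⟩ := form_germM hL HF hg1 hκ D (fun k => mm (a k)) hli (gm (fun n => (z n : ℚ)))
    (fun v => int_germ hL v z) (Sint_int hL z)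
    (fun p => ∑ j, ((r j p.1 : ℚ) : F) * c' (j, p.2)) δ hδ (by
      have e1 : ∑ p : J' × Ex (Option σ) D, algebraMap ℝ HR
            ((∑ j, ((r j p.1 : ℚ) : F) * c' (j, p.2) : F) : ℝ)
            * (rho (mm (a p.1) : GG) * Zh hL κ g0 θ' y (bas S hS) p.2.1)
          = ∑ p : J × Ex (Option σ) D, algebraMap ℝ HR (c' p : ℝ)
            * (rho (gm (μ p.1)) * Zh hL κ g0 θ' y (bas S hS) p.2.1) := by
        rw [Fintype.sum_prod_type, Fintype.sum_prod_type, Finset.sum_comm]
        conv_rhs => rw [Finset.sum_comm]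
        refine Finset.sum_congr rfl fun b _ => ?_
        simp only []
        have e2 : ∀ j, rho (gm (μ j)) = ∑ k, algebraMap ℝ HR ((r j k : ℚ) : ℝ) * rho (gm (μ (a k))) := by
          intro j
          rw [← hr' j, map_sum]
          refine Finset.sum_congr rfl fun k _ => ?_
          rw [map_mul, rho_rat]
        have e4 : ∀ j, algebraMap ℝ HR (c' (j, b) : ℝ)
            * (rho (gm (μ j)) * Zh hL κ g0 θ' y (bas S hS) b.1)
            = ∑ k, algebraMap ℝ HR (c' (j, b) : ℝ) * (algebraMap ℝ HR ((r j k : ℚ) : ℝ)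
              * rho (gm (μ (a k))) * Zh hL κ g0 θ' y (bas S hS) b.1) := by
          intro j
          conv_lhs => rw [e2 j]
          rw [Finset.sum_mul, Finset.mul_sum]
        rw [Finset.sum_congr rfl (fun j _ => e4 j)]
        have e3 : ∀ k, algebraMap ℝ HR ((∑ j, ((r j k : ℚ) : F) * c' (j, b) : F) : ℝ)
            = ∑ j, algebraMap ℝ HR ((r j k : ℚ) : ℝ) * algebraMap ℝ HR (c' (j, b) : ℝ) := by
          intro k
          rw [AddSubmonoidClass.coe_finsetSum, map_sum]
          refine Finset.sum_congr rfl fun j _ => ?_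
          rw [MulMemClass.coe_mul, map_mul]
          congr 1
        simp only [e3, Finset.sum_mul, hmm]
        rw [Finset.sum_comm]
        refine Finset.sum_congr rfl fun j _ => Finset.sum_congr rfl fun k _ => ?_
        ring
      rw [e1]
      simp only [hc', hZ, cst_eq, rho_gm, gr_mul]
      rw [gr_sum', gr_sub]
      have h1 : Sm q (-δ) (fun n => ((((z n : ℚ) : ℝ) - ∑ p : J × Ex (Option σ) D,
          (phi (c p.1 p.2)).re * ((μ p.1 n : ℝ) * zv θ (q n) (x n) p.2.1) : ℝ) : ℂ)) := by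
        refine happ.le (Eventually.of_forall fun n => ?_)
        rw [Complex.norm_real]
        refine le_trans (le_of_eq ?_) (Complex.abs_re_le_norm _)
        rw [Real.norm_eq_abs]
        congr 1
        have hz : (((z n : ℚ)) : ℝ) = (z n : ℝ) := by push_cast; rfl
        rw [Complex.sub_re, Complex.intCast_re, Complex.re_sum, Fintype.sum_prod_type, hz]
        congr 1
        refine Finset.sum_congr rfl fun j _ => ?_
        rw [Complex.re_ofReal_mul, Complex.re_sum, Finset.mul_sum]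
        refine Finset.sum_congr rfl fun a _ => ?_
        rw [Complex.re_mul_ofReal]
        ring
      have h2 := h1.toSR H.big
      rwa [neg_neg] at h2)
  refine ⟨fun j => ∑ k, if a k = j then polyOf (fun b => γ (k, b)) else 0, fun j => ?_, ?_⟩
  · refine (totalDegree_finsetSum _ _).trans (Finset.sup_le fun k _ => ?_)
    split_ifs
    · unfold polyOf
      refine (totalDegree_finsetSum _ _).trans (Finset.sup_le fun b _ => ?_)
      refine (totalDegree_monomial_le _ _).trans ?_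
      have h3 := mem_Ex.1 b.2
      change (fs b.1).sum (fun _ e => e) ≤ _
      rw [sum_fs]
      simpa using h3
    · rw [totalDegree_zero]
      exact Nat.zero_le _
  simp only [hX, rat_gm] at hγ
  have hγ' : gm (fun n => (z n : ℚ)) = gm (fun n => ∑ p : J' × Ex (Option σ) D,
      γ p * (μ (a p.1) n * ∏ i, (px (q n) (x n) i : ℚ) ^ (p.2.1 i))) := by
    rw [hγ, ← gm_sum]
    refine Finset.sum_congr rfl fun p _ => ?_
    rw [hmm, gm_mul, gm_mul]
  rw [gm_eq] at hγ'
  filter_upwards [hγ'] with n hn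
  rw [hn, Fintype.sum_prod_type]
  have e1 : ∀ j, μ j n * va (q n) (x n) (∑ k, if a k = j then polyOf (fun b => γ (k, b)) else 0)
      = ∑ k, if a k = j then μ (a k) n * va (q n) (x n) (polyOf (fun b => γ (k, b))) else 0 := by
    intro j
    rw [map_sum, Finset.mul_sum]
    refine Finset.sum_congr rfl fun k _ => ?_
    split_ifs with h
    · rw [h]
    · rw [map_zero, mul_zero]
  simp only [e1]
  conv_rhs => rw [Finset.sum_comm]
  refine Finset.sum_congr rfl fun k _ => ?_
  rw [Finset.sum_ite_eq Finset.univ (a k), if_pos (Finset.mem_univ _), va_polyOf, Finset.mul_sum]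
  refine Finset.sum_congr rfl fun b _ => ?_
  ring

/-- sequences of polynomials with small coefficients and zeros -/
theorem vanishM (hL : Tendsto (fun n => Real.log (q n)) atTop atTop) (E : ℕ)
    (R : ℕ → MvPolynomial (Option σ) ℚ) (hR : ∀ a, Sml q hL (fun n => coeff a (R n)))
    (hdeg : ∀ n, (R n).totalDegree ≤ E)
    (hz : ∀ᶠ n in (UU : Filter ℕ), va (q n) (x n) (R n) = 0) :
    ∀ᶠ n in (UU : Filter ℕ), R n = 0 := by
  classical
  obtain ⟨F, hfin, θ', c', g0, κ, y, -, HF, hg, hg0, hκ, hu, hX, hZ⟩ :=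
    tub_setup S hS θ halg hind H hL (fun _ : Fin 0 => (0 : ℝ)) (fun a => a.elim0)
  have hg1 : lv (bas S hS) none g0 ≠ 0 := by rw [hg]; norm_num
  have h1 := Xh_indep hL HF hg1 hκ E
    (fun a : Ex (Option σ) E => ⟨gm (fun n => coeff (fs a.1) (R n)), hR (fs a.1)⟩) (by
    simp only [hX, gm_mul]
    rw [gm_sum, ← gm_zero, gm_eq]
    filter_upwards [hz] with n hn
    rw [← hn]
    unfold va
    rw [eval_cf (hdeg n)]
    rfl)
  have h2 : ∀ a : Ex (Option σ) E, ∀ᶠ n in (UU : Filter ℕ), coeff (fs a.1) (R n) = 0 := by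
    intro a
    have h3 := congrArg Subtype.val (h1 a)
    have h4 : gm (fun n => coeff (fs a.1) (R n)) = gm (fun _ => 0) := h3
    exact gm_eq.1 h4
  filter_upwards [eventually_all.2 h2] with n hn
  apply cf_inj (hdeg n)
  funext a
  exact hn a

end

section
variable {σ : Type} [Fintype σ] [DecidableEq σ] {q : ℕ → ℕ}
  {hL : Tendsto (fun n => Real.log (q n)) atTop atTop}

lemma sp_add {R T : ℕ → MvPolynomial (Option σ) ℚ} (hR : ∀ a, Sml q hL (fun n => coeff a (R n)))
    (hT : ∀ a, Sml q hL (fun n => coeff a (T n))) (a : Option σ →₀ ℕ) :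
    Sml q hL (fun n => coeff a (R n + T n)) := by
  simp only [coeff_add]
  exact (hR a).add (hT a)

lemma sp_sub {R T : ℕ → MvPolynomial (Option σ) ℚ} (hR : ∀ a, Sml q hL (fun n => coeff a (R n)))
    (hT : ∀ a, Sml q hL (fun n => coeff a (T n))) (a : Option σ →₀ ℕ) :
    Sml q hL (fun n => coeff a (R n - T n)) := by
  simp only [coeff_sub]
  exact (hR a).sub (hT a)

lemma sp_mul {R T : ℕ → MvPolynomial (Option σ) ℚ} (hR : ∀ a, Sml q hL (fun n => coeff a (R n)))
    (hT : ∀ a, Sml q hL (fun n => coeff a (T n))) (a : Option σ →₀ ℕ) :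
    Sml q hL (fun n => coeff a (R n * T n)) := by
  classical
  simp only [coeff_mul]
  exact Sml.sum _ fun p _ => (hR p.1).mul (hT p.2)

lemma sp_const (R : MvPolynomial (Option σ) ℚ) (a : Option σ →₀ ℕ) :
    Sml q hL (fun _ => coeff a R) := Sml.const _

lemma sp_C {s : ℕ → ℚ} (hs : Sml q hL s) (a : Option σ →₀ ℕ) :
    Sml q hL (fun n => coeff a (C (s n) : MvPolynomial (Option σ) ℚ)) := by
  classical
  simp only [coeff_C]
  by_cases h : (0 : Option σ →₀ ℕ) = a
  · simpa only [if_pos h] using hs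
  · simpa only [if_neg h] using Sml.const (q := q) (hL := hL) 0

lemma sp_sum {ι : Type*} (A : Finset ι) {R : ι → ℕ → MvPolynomial (Option σ) ℚ}
    (hR : ∀ i ∈ A, ∀ a, Sml q hL (fun n => coeff a (R i n))) (a : Option σ →₀ ℕ) :
    Sml q hL (fun n => coeff a (∑ i ∈ A, R i n)) := by
  simp only [coeff_sum]
  exact Sml.sum _ fun i hi => hR i hi a

end

end Pool.Agent.Q4.Hyp
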