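import Mathlib
import Pool.Agent.Q4.Hyp.Mov

set_option autoImplicit false
set_option linter.unusedSectionVars false

/-!
# Square roots of polynomials with small coefficients at points near a ray
-/

namespace Pool.Agent.Q4.Hyp

open Filter Topology Pool.Agent.TH932.Abs Pool.Agent.TH932.Germs Pool.Agent.TH932.Chi
open Pool.Agent.TH796.AL Pool.Agent.Q4.Blk Pool.Agent.Q4.Gcd Pool.Agent.Q4.Cov Module MvPolynomial
open Pool.Agent.Q4.Tube Pool.Agent.Q4.Hall

/-! ### the coefficients of the square root -/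

/-- the coefficients of the square root of `1 + g 1 T + g 2 T ^ 2 + ...` -/
def sq (g : ℕ → ℚ) : ℕ → ℚ
  | 0 => 1
  | (k + 1) => (g (k + 1) - ∑ i : Fin k, sq g (i + 1) * sq g (k - i)) / 2
decreasing_by
  all_goals have := i.2; omega

lemma sq_zero (g : ℕ → ℚ) : sq g 0 = 1 := by rw [sq]

lemma sq_succ (g : ℕ → ℚ) (k : ℕ) :
    sq g (k + 1) = (g (k + 1) - ∑ i : Fin k, sq g (i + 1) * sq g (k - i)) / 2 := by rw [sq]

lemma sq_mul (g : ℕ → ℚ) (hg : g 0 = 1) (t : ℕ) :
    ∑ p ∈ Finset.HasAntidiagonal.antidiagonal t, sq g p.1 * sq g p.2 = g t := by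
  cases t with
  | zero => simp [sq_zero, hg]
  | succ k =>
    rw [Finset.Nat.sum_antidiagonal_eq_sum_range_succ (fun i j => sq g i * sq g j),
      Finset.sum_range_succ, Finset.sum_range_succ']
    simp only [Nat.sub_zero, Nat.sub_self, sq_zero, one_mul, mul_one]
    have h1 := sq_succ g k
    have h2 : ∑ i ∈ Finset.range k, sq g (i + 1) * sq g (k + 1 - (i + 1))
        = ∑ i : Fin k, sq g (i + 1) * sq g (k - i) := by
      rw [Finset.sum_range]
      refine Finset.sum_congr rfl fun i _ => ?_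
      congr 2
      omega
    rw [h2]
    linarith

/-- reversed evaluation -/
lemma rev_eval {K : Type*} [Field K] {X : K} (hX : X ≠ 0) {N : ℕ} (p : Polynomial K)
    (hp : p.natDegree ≤ N) :
    ∑ t ∈ Finset.range (N + 1), p.coeff t * X ^ (N - t) = X ^ N * p.eval X⁻¹ := by
  rw [Polynomial.eval_eq_sum_range' (Nat.lt_succ_of_le hp), Finset.mul_sum]
  refine Finset.sum_congr rfl fun t ht => ?_
  have h1 : t ≤ N := Nat.lt_succ_iff.1 (Finset.mem_range.1 ht)
  have h2 : X ^ N = X ^ (N - t) * X ^ t := by rw [← pow_add]; congr 1; omega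
  rw [h2, inv_pow]
  field_simp

/-- the polynomial of the first coefficients -/
noncomputable def bet (s : ℕ → ℚ) (m : ℕ) : Polynomial ℚ :=
  ∑ k ∈ Finset.range (m + 1), Polynomial.C (s k) * Polynomial.X ^ k

lemma bet_coeff (s : ℕ → ℚ) (m k : ℕ) : (bet s m).coeff k = if k ≤ m then s k else 0 := by
  unfold bet
  rw [Polynomial.finsetSum_coeff]
  simp only [Polynomial.coeff_C_mul, Polynomial.coeff_X_pow, mul_ite, mul_one, mul_zero]
  rw [Finset.sum_ite_eq]
  simp only [Finset.mem_range, Nat.lt_succ_iff]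

lemma bet_deg (s : ℕ → ℚ) (m : ℕ) : (bet s m).natDegree ≤ m := by
  rw [Polynomial.natDegree_le_iff_coeff_eq_zero]
  intro k hk
  rw [bet_coeff, if_neg (by omega)]

lemma bet_sq (g : ℕ → ℚ) (hg : g 0 = 1) {m t : ℕ} (ht : t ≤ m) :
    (bet (sq g) m * bet (sq g) m).coeff t = g t := by
  rw [Polynomial.coeff_mul, ← sq_mul g hg t]
  refine Finset.sum_congr rfl fun p hp => ?_
  have h1 := Finset.HasAntidiagonal.mem_antidiagonal.1 hp
  rw [bet_coeff, bet_coeff, if_pos (by omega), if_pos (by omega)]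

/-- the identity -/
lemma sq_id (g : ℕ → ℚ) (m : ℕ) {X : ℚ} (hX : X ≠ 0) :
    ∑ t ∈ Finset.range (2 * m + 2), g t * X ^ (2 * m + 1 - t)
      - X * (∑ k ∈ Finset.range (m + 1), sq g k * X ^ (m - k)) ^ 2
      = ∑ t ∈ Finset.range (2 * m + 2), (g t - (bet (sq g) m * bet (sq g) m).coeff t)
        * X ^ (2 * m + 1 - t) := by
  have h1 := rev_eval hX (bet (sq g) m) (bet_deg (sq g) m)
  have h2 : ∑ t ∈ Finset.range (m + 1), (bet (sq g) m).coeff t * X ^ (m - t)
      = ∑ k ∈ Finset.range (m + 1), sq g k * X ^ (m - k) := by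
    refine Finset.sum_congr rfl fun t ht => ?_
    rw [bet_coeff, if_pos (Nat.lt_succ_iff.1 (Finset.mem_range.1 ht))]
  have h3 : (bet (sq g) m * bet (sq g) m).natDegree ≤ 2 * m + 1 := by
    refine Polynomial.natDegree_mul_le.trans ?_
    have := bet_deg (sq g) m
    omega
  have h4 := rev_eval hX _ h3
  rw [← h2, h1]
  simp only [sub_mul, Finset.sum_sub_distrib]
  congr 1
  have h5 : 2 * m + 1 + 1 = 2 * m + 2 := rfl
  rw [h5] at h4
  rw [h4, Polynomial.eval_mul]
  ring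

/-- the identity for even degrees -/
lemma sq_id_even (g : ℕ → ℚ) (m : ℕ) {X : ℚ} (hX : X ≠ 0) :
    ∑ t ∈ Finset.range (2 * m + 1), g t * X ^ (2 * m - t)
      - (∑ k ∈ Finset.range (m + 1), sq g k * X ^ (m - k)) ^ 2
      = ∑ t ∈ Finset.range (2 * m + 1), (g t - (bet (sq g) m * bet (sq g) m).coeff t)
        * X ^ (2 * m - t) := by
  have h1 := rev_eval hX (bet (sq g) m) (bet_deg (sq g) m)
  have h2 : ∑ t ∈ Finset.range (m + 1), (bet (sq g) m).coeff t * X ^ (m - t)
      = ∑ k ∈ Finset.range (m + 1), sq g k * X ^ (m - k) := by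
    refine Finset.sum_congr rfl fun t ht => ?_
    rw [bet_coeff, if_pos (Nat.lt_succ_iff.1 (Finset.mem_range.1 ht))]
  have h3 : (bet (sq g) m * bet (sq g) m).natDegree ≤ 2 * m := by
    refine Polynomial.natDegree_mul_le.trans ?_
    have := bet_deg (sq g) m
    omega
  have h4 := rev_eval hX _ h3
  rw [← h2, h1]
  simp only [sub_mul, Finset.sum_sub_distrib]
  congr 1
  rw [h4, Polynomial.eval_mul]
  ring

section
variable {q : ℕ → ℕ} {hL : Tendsto (fun n => Real.log (q n)) atTop atTop}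

lemma sq_sml (g : ℕ → ℕ → ℚ) (hg : ∀ t, Sml q hL (fun n => g n t)) (k : ℕ) :
    Sml q hL (fun n => sq (g n) k) := by
  induction k using Nat.strong_induction_on with
  | _ k ih =>
    cases k with
    | zero =>
      simp only [sq_zero]
      exact Sml.const 1
    | succ k =>
      have h1 := (hg (k + 1)).sub (Sml.sum (q := q) (hL := hL) (Finset.univ : Finset (Fin k))
        (s := fun i n => sq (g n) (i + 1) * sq (g n) (k - i)) (fun i _ =>
          (ih (i + 1) (by have := i.2; omega)).mul (ih (k - i) (by omega))))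
      have h2 := h1.mul (Sml.const (q := q) (hL := hL) (1 / 2))
      refine h2.congr (Eventually.of_forall fun n => ?_)
      rw [sq_succ]
      ring

lemma bet_sml (g : ℕ → ℕ → ℚ) (hg : ∀ t, Sml q hL (fun n => g n t)) (m t : ℕ) :
    Sml q hL (fun n => (bet (sq (g n)) m * bet (sq (g n)) m).coeff t) := by
  simp only [Polynomial.coeff_mul, bet_coeff]
  refine Sml.sum _ fun p _ => ?_
  have h1 : ∀ k, Sml q hL (fun n => if k ≤ m then sq (g n) k else 0) := by
    intro k
    by_cases h : k ≤ m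
    · simpa only [if_pos h] using sq_sml g hg k
    · simpa only [if_neg h] using Sml.const (q := q) (hL := hL) 0
  exact (h1 p.1).mul (h1 p.2)

/-- the leading term dominates -/
lemma poly_near (hq : ∀ n, n + 2 ≤ q n) (a : ℕ → ℕ → ℚ) (ha0 : ∀ n, a n 0 = 1)
    (ha : ∀ t, Sml q hL (fun n => a n t)) (M : ℕ) (X : ℕ → ℝ)
    (hX : ∀ᶠ n in (UU : Filter ℕ), (q n : ℝ) ^ (1 / 2 : ℝ) ≤ |X n|) :
    ∀ᶠ n in (UU : Filter ℕ),
      |∑ t ∈ Finset.range (M + 1), (a n t : ℝ) * X n ^ (M - t) - X n ^ M| ≤ |X n| ^ M / 2 := by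
  have h1 : ∀ᶠ n in (UU : Filter ℕ), ∀ t ∈ Finset.range M, |(a n (t + 1) : ℝ)| ≤ (q n : ℝ) ^ (1 / 4 : ℝ) := by
    rw [eventually_all_finset]
    intro t _
    filter_upwards [(ha (t + 1)).sm hq (1 / 4) (by norm_num)] with n hn
    rw [Complex.norm_real, Real.norm_eq_abs, zero_add] at hn
    exact hn
  filter_upwards [h1, hX, big_ev hq (2 * M) (show (0 : ℝ) < 1 / 4 by norm_num)] with n h2 h3 h4
  have hqp := qpos hq n
  have hq1 := qone hq n
  rw [Finset.sum_range_succ', ha0, Nat.sub_zero, Rat.cast_one, one_mul, add_sub_cancel_right]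
  have h5 : (1 : ℝ) ≤ |X n| := le_trans (Real.one_le_rpow hq1 (by norm_num)) h3
  have h6 : |∑ t ∈ Finset.range M, (a n (t + 1) : ℝ) * X n ^ (M - (t + 1))|
      ≤ M * ((q n : ℝ) ^ (1 / 4 : ℝ) * |X n| ^ (M - 1)) := by
    refine (Finset.abs_sum_le_sum_abs _ _).trans ?_
    have h7 : ∀ t ∈ Finset.range M, |(a n (t + 1) : ℝ) * X n ^ (M - (t + 1))|
        ≤ (q n : ℝ) ^ (1 / 4 : ℝ) * |X n| ^ (M - 1) := by
      intro t ht
      rw [abs_mul, abs_pow]
      exact mul_le_mul (h2 t ht) (pow_le_pow_right₀ h5 (by omega)) (by positivity) (by positivity)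
    refine (Finset.sum_le_sum h7).trans (le_of_eq ?_)
    rw [Finset.sum_const, Finset.card_range, nsmul_eq_mul]
  refine h6.trans ?_
  rcases Nat.eq_zero_or_pos M with h0 | h0
  · rw [h0]
    simp
  · have h7 : |X n| ^ M = |X n| ^ (M - 1) * |X n| := by
      rw [← pow_succ]; congr 1; omega
    have h8 : (q n : ℝ) ^ (1 / 2 : ℝ) = (q n : ℝ) ^ (1 / 4 : ℝ) * (q n : ℝ) ^ (1 / 4 : ℝ) := by
      rw [← Real.rpow_add hqp]
      norm_num
    have h9 : 2 * (M : ℝ) * (q n : ℝ) ^ (1 / 4 : ℝ) ≤ |X n| := by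
      refine le_trans ?_ h3
      rw [h8]
      exact mul_le_mul_of_nonneg_right h4 (by positivity)
    rw [h7]
    have h10 : (0 : ℝ) ≤ |X n| ^ (M - 1) := by positivity
    nlinarith [mul_le_mul_of_nonneg_left h9 h10]

end

/-! ### expansions -/

section
variable {σ : Type} [Fintype σ] [DecidableEq σ]

/-- extension by zero -/
lemma ext_coef {D1 D2 : ℕ} (h : D1 ≤ D2) (c : Ex (Option σ) D1 → QB) :
    ∃ c' : Ex (Option σ) D2 → QB, ∀ f : (Option σ → ℕ) → ℂ,
      ∑ a, phi (c a) * f a.1 = ∑ a, phi (c' a) * f a.1 := by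
  classical
  have hsub : Ex (Option σ) D1 ⊆ Ex (Option σ) D2 := by
    intro a ha
    rw [mem_Ex] at ha ⊢
    omega
  refine ⟨fun a => if h : a.1 ∈ Ex (Option σ) D1 then c ⟨a.1, h⟩ else 0, fun f => ?_⟩
  set g : (Option σ → ℕ) → ℂ := fun b =>
    phi (if h : b ∈ Ex (Option σ) D1 then c ⟨b, h⟩ else 0) * f b with hg
  have h1 : ∑ a : Ex (Option σ) D1, phi (c a) * f a.1 = ∑ b ∈ Ex (Option σ) D1, g b := by
    refine Eq.trans ?_ (Finset.sum_coe_sort (Ex (Option σ) D1) g)
    refine Finset.sum_congr rfl fun a _ => ?_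
    rw [hg]
    simp only [a.2, dif_pos]
  have h2 : ∑ a : Ex (Option σ) D2, phi (if h : a.1 ∈ Ex (Option σ) D1 then c ⟨a.1, h⟩ else 0) * f a.1
      = ∑ b ∈ Ex (Option σ) D2, g b := Finset.sum_coe_sort (Ex (Option σ) D2) g
  rw [h1, h2]
  refine Finset.sum_subset hsub fun b _ hb => ?_
  rw [hg]
  simp only [hb, dif_neg, not_false_iff, map_zero, zero_mul]

end

end Pool.Agent.Q4.Hyp
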