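import Mathlib
import Pool.Agent.Q4.Hyp.Sq

set_option autoImplicit false
set_option linter.unusedSectionVars false

/-!
# The square root of a polynomial of odd degree with small coefficients, near a ray
-/

namespace Pool.Agent.Q4.Hyp

open Filter Topology Pool.Agent.TH932.Abs Pool.Agent.TH932.Germs Pool.Agent.TH932.Chi
open Pool.Agent.TH796.AL Pool.Agent.Q4.Blk Pool.Agent.Q4.Gcd Pool.Agent.Q4.Cov Module MvPolynomial
open Pool.Agent.Q4.Tube Pool.Agent.Q4.Hall

section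
variable {σ : Type} [Fintype σ] [DecidableEq σ]
variable (S : Finset ℕ) (hS : ∀ p ∈ S, p.Prime) {θ : σ → ℝ} (halg : ∀ s, IsAlgebraic ℚ (θ s))
  (hind : LinearIndependent ℚ (fun o : Option σ => (o.elim 1 (fun s => θ s) : ℝ)))
  {q : ℕ → ℕ} {x : ℕ → σ → ℤ} (H : Tub S θ q x)

include halg H in
/-- expansion of square roots of polynomials -/
theorem sqrt_exp {P0 : MvPolynomial (Option σ) ℤ} {E : ℕ} (hF : P0.totalDegree ≤ 2 * E)
    (htop : topv (2 * E) P0 θ ≠ 0) (ρ : ℕ → ℂ)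
    (hρ : ∀ᶠ n in (UU : Filter ℕ), (ρ n) ^ 2 = ((eval (px (q n) (x n)) P0 : ℤ) : ℂ))
    {E' : ℕ} (hE : E ≤ E') :
    ∃ c : Ex (Option σ) E' → QB, Sm q (-1) (fun n => ρ n
      - ∑ a, phi (c a) * ((zv θ (q n) (x n) a.1 : ℝ) : ℂ)) := by
  classical
  set P : Polynomial (MvPolynomial (Option σ) ℤ) := Polynomial.X ^ 2 - Polynomial.C P0 with hP
  have hPd : P.natDegree = 2 := Polynomial.natDegree_X_pow_sub_C
  have hPm : P.Monic := Polynomial.monic_X_pow_sub_C _ two_ne_zero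
  have hlead : topv 0 P.leadingCoeff θ ≠ 0 := by
    rw [hPm.leadingCoeff, topv_one]
    exact one_ne_zero
  have hcoef : ∀ i, P.coeff i = (if i = 2 then 1 else 0) - (if i = 0 then P0 else 0) := by
    intro i
    rw [hP, Polynomial.coeff_sub, Polynomial.coeff_X_pow, Polynomial.coeff_C]
  have hdeg : ∀ i, (P.coeff i).totalDegree ≤ (P.natDegree - i) * E + 0 := by
    intro i
    rw [hPd, add_zero, hcoef]
    by_cases h0 : i = 0
    · rw [h0, if_neg (by omega), if_pos rfl, zero_sub, totalDegree_neg, Nat.sub_zero]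
      exact hF
    · rw [if_neg h0, sub_zero]
      split_ifs
      · rw [totalDegree_one]
        exact Nat.zero_le _
      · rw [totalDegree_zero]
        exact Nat.zero_le _
  have hpnf : pnf P E 0 θ = Polynomial.X ^ 2 - Polynomial.C (topv (2 * E) P0 θ) := by
    ext j
    rw [Polynomial.coeff_sub, Polynomial.coeff_X_pow, Polynomial.coeff_C]
    by_cases hj : j ≤ 2
    · rw [pnf_coeff θ (by rw [hPd]; exact hj), hPd, add_zero, hcoef]
      by_cases h0 : j = 0
      · rw [h0, if_neg (by omega), if_pos rfl, if_neg (by omega), if_pos rfl, Nat.sub_zero,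
          zero_sub, zero_sub]
        unfold topv
        rw [map_neg, map_neg]
      · rw [if_neg h0, if_neg h0, sub_zero, sub_zero]
        split_ifs with h1
        · rw [h1, Nat.sub_self, zero_mul]
          exact topv_one θ
        · unfold topv
          rw [map_zero, map_zero]
    · rw [if_neg (by omega), if_neg (by omega), sub_zero]
      unfold pnf
      rw [Polynomial.finsetSum_coeff]
      refine Finset.sum_eq_zero fun i hi => ?_
      have hi' := Finset.mem_range.1 hi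
      rw [hPd] at hi'
      rw [Polynomial.coeff_C_mul, Polynomial.coeff_X_pow, if_neg (by omega), mul_zero]
  have hsep : (pnf P E 0 θ).Separable := by
    rw [hpnf]
    exact Polynomial.separable_X_pow_sub_C _ (by norm_num) htop
  obtain ⟨cf, hcf⟩ := Pool.Agent.Q4.Tube.root_exp H halg hlead hdeg hsep ρ (by
    filter_upwards [hρ] with n hn
    rw [hP, Polynomial.map_sub, Polynomial.map_pow, Polynomial.map_X, Polynomial.map_C,
      Polynomial.eval_sub, Polynomial.eval_pow, Polynomial.eval_X, Polynomial.eval_C, hn]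
    exact sub_self _) 0
  obtain ⟨c', hc'⟩ := ext_coef (show 0 + E ≤ E' by omega) cf
  refine ⟨c', hcf.congr (Eventually.of_forall fun n => ?_)⟩
  rw [pow_zero, one_mul, hc' (fun a => ((zv θ (q n) (x n) a : ℝ) : ℂ))]

include hS halg hind H

/-- **Square roots.** -/
theorem odd_core (hL : Tendsto (fun n => Real.log (q n)) atTop atTop)
    {F : MvPolynomial (Option σ) ℤ} {k0 : ℕ} (hF : F.totalDegree ≤ 2 * k0) (hk : 0 < k0)
    (htop : topv (2 * k0) F θ ≠ 0) (m : ℕ) (e : ℤ) (he : e ≠ 0) (h : ℕ → ℤ)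
    (hh0 : ∀ᶠ n in (UU : Filter ℕ), h n ≠ 0) (hh : Sml q hL (fun n => (h n : ℚ)))
    (g : ℕ → ℕ → ℚ) (hg0 : ∀ n, g n 0 = 1) (hg : ∀ t, Sml q hL (fun n => g n t)) (y : ℕ → ℤ)
    (hy : ∀ᶠ n in (UU : Filter ℕ), (y n : ℚ) ^ 2 = (h n : ℚ) ^ 2 * e
      * ∑ t ∈ Finset.range (2 * m + 2), g n t * ((eval (px (q n) (x n)) F : ℤ) : ℚ) ^ (2 * m + 1 - t)) :
    ∃ (z : ℕ → ℤ) (G : Fin (m + 1) → MvPolynomial (Option σ) ℚ) (μ : Fin (m + 1) → ℕ → ℚ) (D' : ℕ),
      (∀ n, z n ^ 2 = y n ^ 2) ∧ (∀ j, Sml q hL (μ j)) ∧ (∀ j, (G j).totalDegree ≤ D') ∧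
      ∀ᶠ n in (UU : Filter ℕ), (z n : ℚ) = ∑ j, μ j n * va (q n) (x n) (G j) := by
  classical
  set X : ℕ → ℤ := fun n => eval (px (q n) (x n)) F with hXdef
  have hlow : ∀ ε : ℝ, 0 < ε → ∀ᶠ n in (UU : Filter ℕ),
      (q n : ℝ) ^ (((2 * k0 : ℕ) : ℝ) - ε) ≤ |(X n : ℝ)| := fun ε hε =>
    low_val S hS halg hind H hF htop hε
  have hk1 : (1 : ℝ) ≤ k0 := by exact_mod_cast hk
  have hbig : ∀ᶠ n in (UU : Filter ℕ), (q n : ℝ) ^ (1 / 2 : ℝ) ≤ |(X n : ℝ)| := by
    filter_upwards [hlow (1 / 2) (by norm_num)] with n hn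
    refine le_trans (Real.rpow_le_rpow_of_exponent_le (qone H.big n) ?_) hn
    push_cast
    linarith
  have hsX : Sm q (((2 * k0 : ℕ) : ℝ)) (fun n => ((X n : ℤ) : ℂ)) := sm_val S H F hF
  have hP := poly_near (hL := hL) H.big g hg0 hg (2 * m + 1) (fun n => (X n : ℝ)) hbig
  have hB := poly_near (hL := hL) H.big (fun n => sq (g n)) (fun n => sq_zero _)
    (sq_sml g hg) m (fun n => (X n : ℝ)) hbig
  set B : ℕ → ℝ := fun n => ∑ t ∈ Finset.range (m + 1), (sq (g n) t : ℝ) * (X n : ℝ) ^ (m - t) with hBd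
  set En : ℕ → ℚ := fun n => ∑ t ∈ Finset.range (2 * m + 2),
    (g n t - (bet (sq (g n)) m * bet (sq (g n)) m).coeff t) * (X n : ℚ) ^ (2 * m + 1 - t) with hEn
  -- signs
  have hpos : ∀ᶠ n in (UU : Filter ℕ), 0 < (e : ℝ) * X n := by
    filter_upwards [hP, hbig, hy, hh0] with n h1 h2 h3 h4
    have hqp := qpos H.big n
    have h5 : (0 : ℝ) < |(X n : ℝ)| := lt_of_lt_of_le (by positivity) h2
    have hX0 : (X n : ℝ) ≠ 0 := abs_pos.1 h5
    have h6 : (y n : ℝ) ^ 2 = (h n : ℝ) ^ 2 * e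
      * ∑ t ∈ Finset.range (2 * m + 2), (g n t : ℝ) * (X n : ℝ) ^ (2 * m + 1 - t) := by
      have := congrArg (fun z : ℚ => (z : ℝ)) h3
      push_cast at this
      exact this
    set Q : ℝ := ∑ t ∈ Finset.range (2 * m + 2), (g n t : ℝ) * (X n : ℝ) ^ (2 * m + 1 - t) with hQ
    have h1' : |Q - (X n : ℝ) ^ (2 * m + 1)| ≤ |(X n : ℝ)| ^ (2 * m + 1) / 2 := h1
    have h7 : 0 < |(X n : ℝ)| ^ (2 * m + 1) := by positivity
    have h8 : 0 ≤ (e : ℝ) * Q := by
      have h9 : 0 ≤ (h n : ℝ) ^ 2 * (e * Q) := by rw [← mul_assoc, ← h6]; positivity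
      have h10 : 0 < (h n : ℝ) ^ 2 := by
        have : (h n : ℝ) ≠ 0 := by exact_mod_cast h4
        positivity
      exact nonneg_of_mul_nonneg_right h9 h10
    have he0 : (e : ℝ) ≠ 0 := by exact_mod_cast he
    rcases lt_or_gt_of_ne hX0 with hn | hp
    · have h11 : |(X n : ℝ)| ^ (2 * m + 1) = -(X n : ℝ) ^ (2 * m + 1) := by
        rw [abs_of_neg hn, Odd.neg_pow ⟨m, rfl⟩]
      rw [h11] at h1' h7
      have h12 : Q < 0 := by
        have := (abs_le.1 h1').2
        linarith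
      have h13 : (e : ℝ) < 0 := by
        rcases lt_or_gt_of_ne he0 with h | h
        · exact h
        · exact absurd h8 (not_le.2 (mul_neg_of_pos_of_neg h h12))
      exact mul_pos_of_neg_of_neg h13 hn
    · have h11 : |(X n : ℝ)| ^ (2 * m + 1) = (X n : ℝ) ^ (2 * m + 1) := by
        rw [abs_of_pos hp]
      rw [h11] at h1' h7
      have h12 : 0 < Q := by
        have := (abs_le.1 h1').1
        linarith
      have h13 : 0 < (e : ℝ) := by
        rcases lt_or_gt_of_ne he0 with h | h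
        · exact absurd h8 (not_le.2 (mul_neg_of_neg_of_pos h h12))
        · exact h
      exact mul_pos h13 hp
  set w : ℕ → ℝ := fun n => Real.sqrt ((e : ℝ) * X n) with hw
  set V : ℕ → ℝ := fun n => (h n : ℝ) * (w n * B n) with hV
  set z : ℕ → ℤ := fun n => if 0 ≤ V n then |y n| else -|y n| with hz
  have hz2 : ∀ n, z n ^ 2 = y n ^ 2 := by
    intro n
    rw [hz]
    simp only []
    split_ifs
    · exact sq_abs _
    · rw [neg_sq, sq_abs]
  -- closeness
  have hEs : Sm q (((2 * k0 : ℕ) : ℝ) * m) (fun n => (((En n : ℚ) : ℝ) : ℂ)) := by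
    have h1 := Sm.sum H.big (Finset.range (2 * m + 2)) (e := ((2 * k0 : ℕ) : ℝ) * m)
      (fun t n => ((((g n t - (bet (sq (g n)) m * bet (sq (g n)) m).coeff t : ℚ) : ℝ) : ℂ))
        * ((X n : ℤ) : ℂ) ^ (2 * m + 1 - t)) (by
      intro t ht
      by_cases htm : t ≤ m
      · refine (Sm.zero H.big _).congr (Eventually.of_forall fun n => ?_)
        rw [bet_sq (g n) (hg0 n) htm, sub_self, Rat.cast_zero, Complex.ofReal_zero, zero_mul]
      · have h2 := Sm.mul H.big (((hg t).sub (bet_sml (hL := hL) g hg m t)).sm H.big)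
          (Sm.pow H.big hsX (2 * m + 1 - t))
        refine h2.mono H.big ?_
        rw [zero_add, mul_comm]
        refine mul_le_mul_of_nonneg_left ?_ (by positivity)
        have : 2 * m + 1 - t ≤ m := by omega
        exact_mod_cast this)
    refine h1.congr (Eventually.of_forall fun n => ?_)
    rw [hEn]
    push_cast
    rfl
  have hinv : Sm q (-((2 * k0 : ℕ) : ℝ)) (fun n => 1 / ((X n : ℤ) : ℂ)) := by
    intro ε hε
    filter_upwards [hlow ε hε] with n hn
    have hqp := qpos H.big n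
    rw [norm_div, norm_one, Complex.norm_intCast]
    have h1 : (0 : ℝ) < (q n : ℝ) ^ (((2 * k0 : ℕ) : ℝ) - ε) := by positivity
    have h2 : -((2 * k0 : ℕ) : ℝ) + ε = -(((2 * k0 : ℕ) : ℝ) - ε) := by ring
    rw [h2, Real.rpow_neg hqp.le, one_div]
    exact inv_anti₀ h1 hn
  have hwinv : Sm q (-(k0 : ℝ)) (fun n => 1 / ((w n : ℝ) : ℂ)) := by
    intro ε hε
    filter_upwards [hlow (2 * ε) (by positivity), hpos] with n hn hp
    have hqp := qpos H.big n
    have h0 : 0 < w n := Real.sqrt_pos.2 hp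
    rw [norm_div, norm_one, Complex.norm_real, Real.norm_eq_abs, abs_of_pos h0]
    have h1 : (q n : ℝ) ^ ((k0 : ℝ) - ε) ≤ w n := by
      apply Real.le_sqrt_of_sq_le
      rw [← Real.rpow_natCast, ← Real.rpow_mul hqp.le]
      have h3 : |(X n : ℝ)| ≤ (e : ℝ) * X n := by
        have h4 : (1 : ℝ) ≤ |(e : ℝ)| := by exact_mod_cast Int.one_le_abs he
        rw [← abs_of_pos hp, abs_mul]
        exact le_mul_of_one_le_left (abs_nonneg _) h4
      refine le_trans (le_of_eq ?_) (hn.trans h3)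
      congr 1
      push_cast
      ring
    have h2 : -(k0 : ℝ) + ε = -((k0 : ℝ) - ε) := by ring
    rw [h2, Real.rpow_neg hqp.le, one_div]
    exact inv_anti₀ (by positivity) h1
  have hclose : Sm q (-1) (fun n => ((z n : ℝ) : ℂ) - ((V n : ℝ) : ℂ)) := by
    have h1 := Sm.mul H.big (Sm.mul H.big (hh.sm H.big) (Sm.const H.big (((2 * |(e : ℝ)| : ℝ) : ℂ))))
      (Sm.mul H.big (Sm.mul H.big hEs hwinv) (Sm.pow H.big hinv m))
    have h2 := h1.mono H.big (e' := -1) (by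
      have : (m : ℝ) * -(((2 * k0 : ℕ) : ℝ)) = -(((2 * k0 : ℕ) : ℝ) * m) := by ring
      rw [this]
      linarith)
    refine h2.le ?_
    filter_upwards [hP, hB, hbig, hy, hh0, hpos] with n h1 h2 h3 h4 h5 hp
    have hqp := qpos H.big n
    have h6 : (0 : ℝ) < |(X n : ℝ)| := lt_of_lt_of_le (by positivity) h3
    have hX0 : (X n : ℝ) ≠ 0 := abs_pos.1 h6
    have hXq : (X n : ℚ) ≠ 0 := by exact_mod_cast hX0
    have hw0 : 0 < w n := Real.sqrt_pos.2 hp
    have hw2 : w n ^ 2 = (e : ℝ) * X n := Real.sq_sqrt hp.le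
    have hBn : |(X n : ℝ)| ^ m / 2 ≤ |B n| := by
      have h7 : |(X n : ℝ) ^ m| - |B n| ≤ |(X n : ℝ) ^ m - B n| := abs_sub_abs_le_abs_sub _ _
      rw [abs_sub_comm] at h7
      have h8 : |B n - (X n : ℝ) ^ m| ≤ |(X n : ℝ)| ^ m / 2 := h2
      rw [abs_pow] at h7
      linarith
    have hB0 : 0 < |B n| := lt_of_lt_of_le (by positivity) hBn
    have hhr : (h n : ℝ) ≠ 0 := by exact_mod_cast h5
    have hid := sq_id (g n) m hXq
    have hidr : (∑ t ∈ Finset.range (2 * m + 2), (g n t : ℝ) * (X n : ℝ) ^ (2 * m + 1 - t))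
        - (X n : ℝ) * (B n) ^ 2 = ((En n : ℚ) : ℝ) := by
      have := congrArg (fun z : ℚ => (z : ℝ)) hid
      rw [hBd, hEn]
      push_cast at this ⊢
      exact this
    have hyr : (y n : ℝ) ^ 2 = (h n : ℝ) ^ 2 * e
        * ∑ t ∈ Finset.range (2 * m + 2), (g n t : ℝ) * (X n : ℝ) ^ (2 * m + 1 - t) := by
      have := congrArg (fun z : ℚ => (z : ℝ)) h4
      push_cast at this
      exact this
    have hzy : (z n : ℝ) ^ 2 = (y n : ℝ) ^ 2 := by exact_mod_cast hz2 n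
    have hdiff : (z n : ℝ) ^ 2 - V n ^ 2 = (h n : ℝ) ^ 2 * e * ((En n : ℚ) : ℝ) := by
      rw [hzy, hyr, ← hidr, hV]
      simp only []
      rw [mul_pow, mul_pow, hw2]
      ring
    have hsum : |V n| ≤ |(z n : ℝ) + V n| := by
      rw [hz]
      simp only []
      split_ifs with hs
      · push_cast
        rw [abs_of_nonneg hs, abs_of_nonneg (by positivity)]
        have := abs_nonneg (y n : ℝ)
        linarith
      · push_cast
        rw [not_le] at hs
        have := abs_nonneg (y n : ℝ)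
        rw [abs_of_neg hs, abs_of_neg (by linarith)]
        linarith
    have hVabs : |V n| = |(h n : ℝ)| * (w n * |B n|) := by
      rw [hV]
      simp only []
      rw [abs_mul, abs_mul, abs_of_pos hw0]
    have hV0 : 0 < |V n| := by rw [hVabs]; positivity
    have hprod : |(z n : ℝ) - V n| * |V n| ≤ (h n : ℝ) ^ 2 * |(e : ℝ)| * |((En n : ℚ) : ℝ)| := by
      refine (mul_le_mul_of_nonneg_left hsum (abs_nonneg _)).trans (le_of_eq ?_)
      rw [← abs_mul]
      have h9 : ((z n : ℝ) - V n) * ((z n : ℝ) + V n) = (z n : ℝ) ^ 2 - V n ^ 2 := by ring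
      rw [h9, hdiff, abs_mul, abs_mul, abs_of_nonneg (sq_nonneg (h n : ℝ))]
    have hn1 : ‖((z n : ℝ) : ℂ) - ((V n : ℝ) : ℂ)‖ = |(z n : ℝ) - V n| := by
      rw [← Complex.ofReal_sub, Complex.norm_real, Real.norm_eq_abs]
    rw [hn1]
    have hn2 : ‖((((h n : ℚ) : ℝ) : ℂ) * ((2 * |(e : ℝ)| : ℝ) : ℂ))
        * (((((En n : ℚ) : ℝ) : ℂ) * (1 / ((w n : ℝ) : ℂ))) * (1 / ((X n : ℤ) : ℂ)) ^ m)‖
        = |(h n : ℝ)| * (2 * |(e : ℝ)|) * (|((En n : ℚ) : ℝ)| * (1 / w n) * (1 / |(X n : ℝ)|) ^ m) := by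
      rw [norm_mul, norm_mul, norm_mul, norm_mul, norm_pow, norm_div, norm_div, norm_one,
        Complex.norm_real, Complex.norm_real, Complex.norm_real, Complex.norm_real,
        Complex.norm_intCast, Real.norm_eq_abs, Real.norm_eq_abs, Real.norm_eq_abs,
        Real.norm_eq_abs, abs_of_pos hw0, abs_of_nonneg (show 0 ≤ 2 * |(e : ℝ)| by positivity)]
      congr 3
    rw [hn2]
    have h10 : |(z n : ℝ) - V n| ≤ (h n : ℝ) ^ 2 * |(e : ℝ)| * |((En n : ℚ) : ℝ)| / |V n| := by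
      rw [le_div_iff₀ hV0]
      exact hprod
    refine h10.trans ?_
    rw [div_le_iff₀ hV0, hVabs]
    have h11 : (1 / |(X n : ℝ)|) ^ m * |B n| ≥ 1 / 2 := by
      have h12 : (1 / |(X n : ℝ)|) ^ m * (|(X n : ℝ)| ^ m / 2) = 1 / 2 := by
        rw [one_div, inv_pow]
        field_simp
      rw [← h12]
      exact mul_le_mul_of_nonneg_left hBn (by positivity)
    have h13 : |(h n : ℝ)| * (2 * |(e : ℝ)|) * (|((En n : ℚ) : ℝ)| * (1 / w n) * (1 / |(X n : ℝ)|) ^ m)
        * (|(h n : ℝ)| * (w n * |B n|))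
        = (h n : ℝ) ^ 2 * |(e : ℝ)| * |((En n : ℚ) : ℝ)| * (2 * ((1 / |(X n : ℝ)|) ^ m * |B n|)) := by
      rw [← sq_abs (h n : ℝ)]
      field_simp
    rw [h13]
    refine le_mul_of_one_le_right (by positivity) ?_
    linarith
  -- expansions
  set D' : ℕ := (2 * m + 1) * k0 with hD'
  have hexp : ∀ k : Fin (m + 1), ∃ c : Ex (Option σ) D' → QB, Sm q (-1)
      (fun n => ((w n * (X n : ℝ) ^ (m - k) : ℝ) : ℂ)
        - ∑ a, phi (c a) * ((zv θ (q n) (x n) a.1 : ℝ) : ℂ)) := by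
    intro k
    have hk' : (k : ℕ) ≤ m := by have := k.2; omega
    refine sqrt_exp S halg H (P0 := C e * F ^ (2 * (m - k) + 1)) (E := (2 * (m - k) + 1) * k0)
      ?_ ?_ _ ?_ (Nat.mul_le_mul_right _ (by omega))
    · refine (totalDegree_mul _ _).trans ?_
      rw [totalDegree_C, zero_add]
      refine (totalDegree_pow _ _).trans ?_
      calc (2 * (m - (k : ℕ)) + 1) * F.totalDegree ≤ (2 * (m - (k : ℕ)) + 1) * (2 * k0) :=
            Nat.mul_le_mul_left _ hF
        _ = 2 * ((2 * (m - (k : ℕ)) + 1) * k0) := by ring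
    · have h1 : topv (2 * ((2 * (m - (k : ℕ)) + 1) * k0)) (C e * F ^ (2 * (m - (k : ℕ)) + 1)) θ
          = (e : ℝ) * (topv (2 * k0) F θ) ^ (2 * (m - (k : ℕ)) + 1) := by
        have h2 : 2 * ((2 * (m - (k : ℕ)) + 1) * k0) = (2 * (m - (k : ℕ)) + 1) * (2 * k0) := by ring
        rw [h2, ← topv_pow θ hF]
        unfold topv
        rw [homogeneousComponent_C_mul, map_mul, aeval_C]
        rfl
      rw [h1]
      exact mul_ne_zero (by exact_mod_cast he) (pow_ne_zero _ htop)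
    · filter_upwards [hpos] with n hp
      have hw2 : w n ^ 2 = (e : ℝ) * X n := Real.sq_sqrt hp.le
      rw [← Complex.ofReal_pow, mul_pow, hw2, map_mul, eval_C, map_pow]
      push_cast
      rw [pow_succ _ (2 * (m - (k : ℕ))), pow_mul, ← pow_mul]
      ring
  choose c hc using hexp
  obtain ⟨G, hG1, hG2⟩ := engineM S hS halg hind H hL D'
    (fun (k : Fin (m + 1)) n => (h n : ℚ) * sq (g n) k)
    (fun k => hh.mul (sq_sml g hg k)) z c 1 one_pos (by
      have h1 := Sm.sum H.big (Finset.univ : Finset (Fin (m + 1))) (e := -1)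
        (fun k n => ((((h n : ℚ) * sq (g n) k : ℚ) : ℝ) : ℂ) * (((w n * (X n : ℝ) ^ (m - k) : ℝ) : ℂ)
        - ∑ a, phi (c k a) * ((zv θ (q n) (x n) a.1 : ℝ) : ℂ))) (by
        intro k _
        have h2 := Sm.mul H.big ((hh.mul (sq_sml g hg k)).sm H.big) (hc k)
        rw [zero_add] at h2
        exact h2)
      refine (Sm.add H.big hclose h1).congr (Eventually.of_forall fun n => ?_)
      have h2 : ((V n : ℝ) : ℂ) = ∑ k : Fin (m + 1), ((((h n : ℚ) * sq (g n) k : ℚ) : ℝ) : ℂ)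
          * ((w n * (X n : ℝ) ^ (m - k) : ℝ) : ℂ) := by
        rw [hV, hBd]
        simp only []
        rw [Finset.sum_range]
        push_cast
        rw [Finset.mul_sum, Finset.mul_sum]
        refine Finset.sum_congr rfl fun k _ => ?_
        ring
      simp only [mul_sub, Finset.sum_sub_distrib]
      rw [h2]
      push_cast
      ring)
  exact ⟨z, G, _, D', hz2, fun k => hh.mul (sq_sml g hg k), hG1, hG2⟩

/-- **Square roots, even degrees.** -/
theorem even_core (hL : Tendsto (fun n => Real.log (q n)) atTop atTop)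
    {F : MvPolynomial (Option σ) ℤ} {k0 : ℕ} (hF : F.totalDegree ≤ k0) (hk : 0 < k0)
    (htop : topv k0 F θ ≠ 0) (m : ℕ) (e : ℤ) (he : e ≠ 0) (h : ℕ → ℤ)
    (hh0 : ∀ᶠ n in (UU : Filter ℕ), h n ≠ 0) (hh : Sml q hL (fun n => (h n : ℚ)))
    (g : ℕ → ℕ → ℚ) (hg0 : ∀ n, g n 0 = 1) (hg : ∀ t, Sml q hL (fun n => g n t)) (y : ℕ → ℤ)
    (hy : ∀ᶠ n in (UU : Filter ℕ), (y n : ℚ) ^ 2 = (h n : ℚ) ^ 2 * e
      * ∑ t ∈ Finset.range (2 * m + 1), g n t * ((eval (px (q n) (x n)) F : ℤ) : ℚ) ^ (2 * m - t)) :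
    ∃ (z : ℕ → ℤ) (G : Fin (m + 1) → MvPolynomial (Option σ) ℚ) (μ : Fin (m + 1) → ℕ → ℚ) (D' : ℕ),
      (∀ n, z n ^ 2 = y n ^ 2) ∧ (∀ j, Sml q hL (μ j)) ∧ (∀ j, (G j).totalDegree ≤ D') ∧
      ∀ᶠ n in (UU : Filter ℕ), (z n : ℚ) = ∑ j, μ j n * va (q n) (x n) (G j) := by
  classical
  set X : ℕ → ℤ := fun n => eval (px (q n) (x n)) F with hXdef
  have hlow : ∀ ε : ℝ, 0 < ε → ∀ᶠ n in (UU : Filter ℕ),
      (q n : ℝ) ^ (((k0 : ℕ) : ℝ) - ε) ≤ |(X n : ℝ)| := fun ε hε =>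
    low_val S hS halg hind H hF htop hε
  have hk1 : (1 : ℝ) ≤ k0 := by exact_mod_cast hk
  have hbig : ∀ᶠ n in (UU : Filter ℕ), (q n : ℝ) ^ (1 / 2 : ℝ) ≤ |(X n : ℝ)| := by
    filter_upwards [hlow (1 / 2) (by norm_num)] with n hn
    refine le_trans (Real.rpow_le_rpow_of_exponent_le (qone H.big n) ?_) hn
    push_cast
    linarith
  have hsX : Sm q (((k0 : ℕ) : ℝ)) (fun n => ((X n : ℤ) : ℂ)) := sm_val S H F hF
  have hP := poly_near (hL := hL) H.big g hg0 hg (2 * m) (fun n => (X n : ℝ)) hbig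
  have hB := poly_near (hL := hL) H.big (fun n => sq (g n)) (fun n => sq_zero _)
    (sq_sml g hg) m (fun n => (X n : ℝ)) hbig
  set B : ℕ → ℝ := fun n => ∑ t ∈ Finset.range (m + 1), (sq (g n) t : ℝ) * (X n : ℝ) ^ (m - t) with hBd
  set En : ℕ → ℚ := fun n => ∑ t ∈ Finset.range (2 * m + 1),
    (g n t - (bet (sq (g n)) m * bet (sq (g n)) m).coeff t) * (X n : ℚ) ^ (2 * m - t) with hEn
  -- signs
  have hpos : ∀ᶠ n in (UU : Filter ℕ), 0 < (e : ℝ) := by
    filter_upwards [hP, hbig, hy, hh0] with n h1 h2 h3 h4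
    have hqp := qpos H.big n
    have h5 : (0 : ℝ) < |(X n : ℝ)| := lt_of_lt_of_le (by positivity) h2
    have hX0 : (X n : ℝ) ≠ 0 := abs_pos.1 h5
    have h6 : (y n : ℝ) ^ 2 = (h n : ℝ) ^ 2 * e
      * ∑ t ∈ Finset.range (2 * m + 1), (g n t : ℝ) * (X n : ℝ) ^ (2 * m - t) := by
      have := congrArg (fun z : ℚ => (z : ℝ)) h3
      push_cast at this
      exact this
    set Q : ℝ := ∑ t ∈ Finset.range (2 * m + 1), (g n t : ℝ) * (X n : ℝ) ^ (2 * m - t) with hQ
    have h1' : |Q - (X n : ℝ) ^ (2 * m)| ≤ |(X n : ℝ)| ^ (2 * m) / 2 := h1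
    have h7 : 0 < |(X n : ℝ)| ^ (2 * m) := by positivity
    have h8 : 0 ≤ (e : ℝ) * Q := by
      have h9 : 0 ≤ (h n : ℝ) ^ 2 * (e * Q) := by rw [← mul_assoc, ← h6]; positivity
      have h10 : 0 < (h n : ℝ) ^ 2 := by
        have : (h n : ℝ) ≠ 0 := by exact_mod_cast h4
        positivity
      exact nonneg_of_mul_nonneg_right h9 h10
    have he0 : (e : ℝ) ≠ 0 := by exact_mod_cast he
    have h11 : |(X n : ℝ)| ^ (2 * m) = (X n : ℝ) ^ (2 * m) := by
      rw [pow_mul, pow_mul, sq_abs]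
    rw [h11] at h1' h7
    have h12 : 0 < Q := by
      have := (abs_le.1 h1').1
      linarith
    rcases lt_or_gt_of_ne he0 with h | h
    · exact absurd h8 (not_le.2 (mul_neg_of_neg_of_pos h h12))
    · exact h
  set w : ℕ → ℝ := fun _ => Real.sqrt (e : ℝ) with hw
  set V : ℕ → ℝ := fun n => (h n : ℝ) * (w n * B n) with hV
  set z : ℕ → ℤ := fun n => if 0 ≤ V n then |y n| else -|y n| with hz
  have hz2 : ∀ n, z n ^ 2 = y n ^ 2 := by
    intro n
    rw [hz]
    simp only []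
    split_ifs
    · exact sq_abs _
    · rw [neg_sq, sq_abs]
  -- closeness
  have hEs : Sm q (((k0 : ℕ) : ℝ) * m - k0) (fun n => (((En n : ℚ) : ℝ) : ℂ)) := by
    have h1 := Sm.sum H.big (Finset.range (2 * m + 1)) (e := ((k0 : ℕ) : ℝ) * m - k0)
      (fun t n => ((((g n t - (bet (sq (g n)) m * bet (sq (g n)) m).coeff t : ℚ) : ℝ) : ℂ))
        * ((X n : ℤ) : ℂ) ^ (2 * m - t)) (by
      intro t ht
      by_cases htm : t ≤ m
      · refine (Sm.zero H.big _).congr (Eventually.of_forall fun n => ?_)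
        rw [bet_sq (g n) (hg0 n) htm, sub_self, Rat.cast_zero, Complex.ofReal_zero, zero_mul]
      · have h2 := Sm.mul H.big (((hg t).sub (bet_sml (hL := hL) g hg m t)).sm H.big)
          (Sm.pow H.big hsX (2 * m - t))
        refine h2.mono H.big ?_
        rw [zero_add, mul_comm]
        have h3 : ((2 * m - t : ℕ) : ℝ) + 1 ≤ m := by
          have h4 := Finset.mem_range.1 ht
          have : 2 * m - t + 1 ≤ m := by omega
          exact_mod_cast this
        have h4 := mul_le_mul_of_nonneg_left h3 (show (0 : ℝ) ≤ k0 by positivity)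
        linarith)
    refine h1.congr (Eventually.of_forall fun n => ?_)
    rw [hEn]
    push_cast
    rfl
  have hinv : Sm q (-((k0 : ℕ) : ℝ)) (fun n => 1 / ((X n : ℤ) : ℂ)) := by
    intro ε hε
    filter_upwards [hlow ε hε] with n hn
    have hqp := qpos H.big n
    rw [norm_div, norm_one, Complex.norm_intCast]
    have h1 : (0 : ℝ) < (q n : ℝ) ^ (((k0 : ℕ) : ℝ) - ε) := by positivity
    have h2 : -((k0 : ℕ) : ℝ) + ε = -(((k0 : ℕ) : ℝ) - ε) := by ring
    rw [h2, Real.rpow_neg hqp.le, one_div]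
    exact inv_anti₀ h1 hn
  have hwinv : Sm q 0 (fun n => 1 / ((w n : ℝ) : ℂ)) :=
    Sm.const H.big (1 / ((Real.sqrt (e : ℝ) : ℝ) : ℂ))
  have hclose : Sm q (-1) (fun n => ((z n : ℝ) : ℂ) - ((V n : ℝ) : ℂ)) := by
    have h1 := Sm.mul H.big (Sm.mul H.big (hh.sm H.big) (Sm.const H.big (((2 * |(e : ℝ)| : ℝ) : ℂ))))
      (Sm.mul H.big (Sm.mul H.big hEs hwinv) (Sm.pow H.big hinv m))
    have h2 := h1.mono H.big (e' := -1) (by
      have : (m : ℝ) * -(((k0 : ℕ) : ℝ)) = -(((k0 : ℕ) : ℝ) * m) := by ring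
      rw [this]
      linarith)
    refine h2.le ?_
    filter_upwards [hP, hB, hbig, hy, hh0, hpos] with n h1 h2 h3 h4 h5 hp
    have hqp := qpos H.big n
    have h6 : (0 : ℝ) < |(X n : ℝ)| := lt_of_lt_of_le (by positivity) h3
    have hX0 : (X n : ℝ) ≠ 0 := abs_pos.1 h6
    have hXq : (X n : ℚ) ≠ 0 := by exact_mod_cast hX0
    have hw0 : 0 < w n := Real.sqrt_pos.2 hp
    have hw2 : w n ^ 2 = (e : ℝ) := Real.sq_sqrt hp.le
    have hBn : |(X n : ℝ)| ^ m / 2 ≤ |B n| := by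
      have h7 : |(X n : ℝ) ^ m| - |B n| ≤ |(X n : ℝ) ^ m - B n| := abs_sub_abs_le_abs_sub _ _
      rw [abs_sub_comm] at h7
      have h8 : |B n - (X n : ℝ) ^ m| ≤ |(X n : ℝ)| ^ m / 2 := h2
      rw [abs_pow] at h7
      linarith
    have hB0 : 0 < |B n| := lt_of_lt_of_le (by positivity) hBn
    have hhr : (h n : ℝ) ≠ 0 := by exact_mod_cast h5
    have hid := sq_id_even (g n) m hXq
    have hidr : (∑ t ∈ Finset.range (2 * m + 1), (g n t : ℝ) * (X n : ℝ) ^ (2 * m - t))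
        - (B n) ^ 2 = ((En n : ℚ) : ℝ) := by
      have := congrArg (fun z : ℚ => (z : ℝ)) hid
      rw [hBd, hEn]
      push_cast at this ⊢
      exact this
    have hyr : (y n : ℝ) ^ 2 = (h n : ℝ) ^ 2 * e
        * ∑ t ∈ Finset.range (2 * m + 1), (g n t : ℝ) * (X n : ℝ) ^ (2 * m - t) := by
      have := congrArg (fun z : ℚ => (z : ℝ)) h4
      push_cast at this
      exact this
    have hzy : (z n : ℝ) ^ 2 = (y n : ℝ) ^ 2 := by exact_mod_cast hz2 n
    have hdiff : (z n : ℝ) ^ 2 - V n ^ 2 = (h n : ℝ) ^ 2 * e * ((En n : ℚ) : ℝ) := by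
      rw [hzy, hyr, ← hidr, hV]
      simp only []
      rw [mul_pow, mul_pow, hw2]
      ring
    have hsum : |V n| ≤ |(z n : ℝ) + V n| := by
      rw [hz]
      simp only []
      split_ifs with hs
      · push_cast
        rw [abs_of_nonneg hs, abs_of_nonneg (by positivity)]
        have := abs_nonneg (y n : ℝ)
        linarith
      · push_cast
        rw [not_le] at hs
        have := abs_nonneg (y n : ℝ)
        rw [abs_of_neg hs, abs_of_neg (by linarith)]
        linarith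
    have hVabs : |V n| = |(h n : ℝ)| * (w n * |B n|) := by
      rw [hV]
      simp only []
      rw [abs_mul, abs_mul, abs_of_pos hw0]
    have hV0 : 0 < |V n| := by rw [hVabs]; positivity
    have hprod : |(z n : ℝ) - V n| * |V n| ≤ (h n : ℝ) ^ 2 * |(e : ℝ)| * |((En n : ℚ) : ℝ)| := by
      refine (mul_le_mul_of_nonneg_left hsum (abs_nonneg _)).trans (le_of_eq ?_)
      rw [← abs_mul]
      have h9 : ((z n : ℝ) - V n) * ((z n : ℝ) + V n) = (z n : ℝ) ^ 2 - V n ^ 2 := by ring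
      rw [h9, hdiff, abs_mul, abs_mul, abs_of_nonneg (sq_nonneg (h n : ℝ))]
    have hn1 : ‖((z n : ℝ) : ℂ) - ((V n : ℝ) : ℂ)‖ = |(z n : ℝ) - V n| := by
      rw [← Complex.ofReal_sub, Complex.norm_real, Real.norm_eq_abs]
    rw [hn1]
    have hn2 : ‖((((h n : ℚ) : ℝ) : ℂ) * ((2 * |(e : ℝ)| : ℝ) : ℂ))
        * (((((En n : ℚ) : ℝ) : ℂ) * (1 / ((w n : ℝ) : ℂ))) * (1 / ((X n : ℤ) : ℂ)) ^ m)‖
        = |(h n : ℝ)| * (2 * |(e : ℝ)|) * (|((En n : ℚ) : ℝ)| * (1 / w n) * (1 / |(X n : ℝ)|) ^ m) := by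
      rw [norm_mul, norm_mul, norm_mul, norm_mul, norm_pow, norm_div, norm_div, norm_one,
        Complex.norm_real, Complex.norm_real, Complex.norm_real, Complex.norm_real,
        Complex.norm_intCast, Real.norm_eq_abs, Real.norm_eq_abs, Real.norm_eq_abs,
        Real.norm_eq_abs, abs_of_pos hw0, abs_of_nonneg (show 0 ≤ 2 * |(e : ℝ)| by positivity)]
      congr 3
    rw [hn2]
    have h10 : |(z n : ℝ) - V n| ≤ (h n : ℝ) ^ 2 * |(e : ℝ)| * |((En n : ℚ) : ℝ)| / |V n| := by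
      rw [le_div_iff₀ hV0]
      exact hprod
    refine h10.trans ?_
    rw [div_le_iff₀ hV0, hVabs]
    have h11 : (1 / |(X n : ℝ)|) ^ m * |B n| ≥ 1 / 2 := by
      have h12 : (1 / |(X n : ℝ)|) ^ m * (|(X n : ℝ)| ^ m / 2) = 1 / 2 := by
        rw [one_div, inv_pow]
        field_simp
      rw [← h12]
      exact mul_le_mul_of_nonneg_left hBn (by positivity)
    have h13 : |(h n : ℝ)| * (2 * |(e : ℝ)|) * (|((En n : ℚ) : ℝ)| * (1 / w n) * (1 / |(X n : ℝ)|) ^ m)
        * (|(h n : ℝ)| * (w n * |B n|))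
        = (h n : ℝ) ^ 2 * |(e : ℝ)| * |((En n : ℚ) : ℝ)| * (2 * ((1 / |(X n : ℝ)|) ^ m * |B n|)) := by
      rw [← sq_abs (h n : ℝ)]
      field_simp
    rw [h13]
    refine le_mul_of_one_le_right (by positivity) ?_
    linarith
  -- expansions
  set D' : ℕ := m * k0 with hD'
  have hexp : ∀ k : Fin (m + 1), ∃ c : Ex (Option σ) D' → QB, Sm q (-1)
      (fun n => ((w n * (X n : ℝ) ^ (m - k) : ℝ) : ℂ)
        - ∑ a, phi (c a) * ((zv θ (q n) (x n) a.1 : ℝ) : ℂ)) := by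
    intro k
    have hk' : (k : ℕ) ≤ m := by have := k.2; omega
    refine sqrt_exp S halg H (P0 := C e * F ^ (2 * (m - k))) (E := (m - k) * k0)
      ?_ ?_ _ ?_ (Nat.mul_le_mul_right _ (by omega))
    · refine (totalDegree_mul _ _).trans ?_
      rw [totalDegree_C, zero_add]
      refine (totalDegree_pow _ _).trans ?_
      calc (2 * (m - (k : ℕ))) * F.totalDegree ≤ (2 * (m - (k : ℕ))) * k0 :=
            Nat.mul_le_mul_left _ hF
        _ = 2 * ((m - (k : ℕ)) * k0) := by ring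
    · have h1 : topv (2 * ((m - (k : ℕ)) * k0)) (C e * F ^ (2 * (m - (k : ℕ)))) θ
          = (e : ℝ) * (topv k0 F θ) ^ (2 * (m - (k : ℕ))) := by
        have h2 : 2 * ((m - (k : ℕ)) * k0) = (2 * (m - (k : ℕ))) * k0 := by ring
        rw [h2, ← topv_pow θ hF]
        unfold topv
        rw [homogeneousComponent_C_mul, map_mul, aeval_C]
        rfl
      rw [h1]
      exact mul_ne_zero (by exact_mod_cast he) (pow_ne_zero _ htop)
    · filter_upwards [hpos] with n hp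
      have hw2 : w n ^ 2 = (e : ℝ) := Real.sq_sqrt hp.le
      rw [← Complex.ofReal_pow, mul_pow, hw2, map_mul, eval_C, map_pow]
      push_cast
      rw [← pow_mul]
      ring
  choose c hc using hexp
  obtain ⟨G, hG1, hG2⟩ := engineM S hS halg hind H hL D'
    (fun (k : Fin (m + 1)) n => (h n : ℚ) * sq (g n) k)
    (fun k => hh.mul (sq_sml g hg k)) z c 1 one_pos (by
      have h1 := Sm.sum H.big (Finset.univ : Finset (Fin (m + 1))) (e := -1)
        (fun k n => ((((h n : ℚ) * sq (g n) k : ℚ) : ℝ) : ℂ) * (((w n * (X n : ℝ) ^ (m - k) : ℝ) : ℂ)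
        - ∑ a, phi (c k a) * ((zv θ (q n) (x n) a.1 : ℝ) : ℂ))) (by
        intro k _
        have h2 := Sm.mul H.big ((hh.mul (sq_sml g hg k)).sm H.big) (hc k)
        rw [zero_add] at h2
        exact h2)
      refine (Sm.add H.big hclose h1).congr (Eventually.of_forall fun n => ?_)
      have h2 : ((V n : ℝ) : ℂ) = ∑ k : Fin (m + 1), ((((h n : ℚ) * sq (g n) k : ℚ) : ℝ) : ℂ)
          * ((w n * (X n : ℝ) ^ (m - k) : ℝ) : ℂ) := by
        rw [hV, hBd]
        simp only []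
        rw [Finset.sum_range]
        push_cast
        rw [Finset.mul_sum, Finset.mul_sum]
        refine Finset.sum_congr rfl fun k _ => ?_
        ring
      simp only [mul_sub, Finset.sum_sub_distrib]
      rw [h2]
      push_cast
      ring)
  exact ⟨z, G, _, D', hz2, fun k => hh.mul (sq_sml g hg k), hG1, hG2⟩

end

end Pool.Agent.Q4.Hyp
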