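import Mathlib
import Pool.Agent.Q4.Hyp.Core
import Pool.Agent.TH551.HE.Rat

set_option autoImplicit false
set_option linter.unusedSectionVars false

/-!
# Hyperelliptic curves with integral points of polynomial abscissa near a ray
-/

namespace Pool.Agent.Q4.Hyp

open Filter Topology Pool.Agent.TH932.Abs Pool.Agent.TH932.Germs Pool.Agent.TH932.Chi
open Pool.Agent.TH796.AL Pool.Agent.Q4.Blk Pool.Agent.Q4.Gcd Pool.Agent.Q4.Cov Module MvPolynomial
open Pool.Agent.Q4.Tube Pool.Agent.Q4.Hall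

section
variable {σ : Type} [Fintype σ] [DecidableEq σ]

/-- no polynomial solutions -/
lemma no_hyp (θ : σ → ℝ) {F : MvPolynomial (Option σ) ℤ} {D : ℕ} (hF : F.totalDegree ≤ D)
    (hD : 0 < D) (htop : topv D F θ ≠ 0) (f : Polynomial ℤ) (hd : 3 ≤ f.natDegree)
    (hsep : (f.map (Int.castRingHom ℚ)).Separable) (G : MvPolynomial (Option σ) ℚ)
    (h : G ^ 2 = Polynomial.aeval (map (Int.castRingHom ℚ) F) f) : False := by
  set ψ : MvPolynomial (Option σ) ℚ →+* Polynomial ℝ :=
    (Polynomial.mapRingHom (MvPolynomial.eval (fun _ : σ => (0 : ℝ)))).comp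
      ((Phi θ).toRingHom.comp (MvPolynomial.map (algebraMap ℚ ℝ))) with hψ
  set P : Polynomial ℝ := ψ (map (Int.castRingHom ℚ) F) with hP
  have hPc : P.coeff D = topv D F θ := by
    have h1 : MvPolynomial.map (algebraMap ℚ ℝ) (map (Int.castRingHom ℚ) F)
        = map (Int.castRingHom ℝ) F := by
      rw [MvPolynomial.map_map]
      congr 1
    have h2 : P = ((Phi θ) (map (Int.castRingHom ℝ) F)).map (MvPolynomial.eval (fun _ : σ => (0 : ℝ))) := by
      rw [hP, hψ]
      change Polynomial.map _ ((Phi θ) (MvPolynomial.map (algebraMap ℚ ℝ) (map (Int.castRingHom ℚ) F))) = _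
      rw [h1]
    rw [h2, Polynomial.coeff_map, Phi_coeff θ F hF, eval_C]
  have h1 : (ψ G) ^ 2 = Polynomial.aeval P f := by
    rw [← map_pow, h, Polynomial.aeval_def, Polynomial.aeval_def, Polynomial.hom_eval₂]
    congr 1
    exact RingHom.ext_int _ _
  have hdeg : (f.map (Int.castRingHom ℝ)).natDegree = f.natDegree :=
    Polynomial.natDegree_map_eq_of_injective Int.cast_injective f
  obtain ⟨c, c', h2, -⟩ := Pool.Agent.TH551.HE.no_param ℝ (f.map (Int.castRingHom ℝ)) (by
      have h3 := hsep.map (f := algebraMap ℚ ℝ)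
      rw [Polynomial.map_map] at h3
      have e1 : (Int.castRingHom ℝ) = (algebraMap ℚ ℝ).comp (Int.castRingHom ℚ) :=
        RingHom.ext_int _ _
      rw [e1]
      exact h3) (by rw [hdeg]; exact hd) P 1 (ψ G) one_ne_zero (by
    rw [h1, one_pow, mul_one, Polynomial.aeval_def, Polynomial.eval₂_eq_sum_range, hdeg]
    refine Finset.sum_congr rfl fun i _ => ?_
    rw [one_pow, mul_one, Polynomial.coeff_map]
    congr 1)
  apply htop
  rw [← hPc, h2, mul_one, Polynomial.coeff_C_of_ne_zero hD.ne']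

variable (S : Finset ℕ) (hS : ∀ p ∈ S, p.Prime) {θ : σ → ℝ} (halg : ∀ s, IsAlgebraic ℚ (θ s))
  (hind : LinearIndependent ℚ (fun o : Option σ => (o.elim 1 (fun s => θ s) : ℝ)))
  {q : ℕ → ℕ} {x : ℕ → σ → ℤ} (H : Tub S θ q x)

include hS halg hind H

/-- **The theorem for sequences.** -/
theorem hyp_seq (hL : Tendsto (fun n => Real.log (q n)) atTop atTop)
    {F : MvPolynomial (Option σ) ℤ} {D : ℕ} (hF : F.totalDegree ≤ D) (hD : 0 < D)
    (htop : topv D F θ ≠ 0) {d : ℕ} (hd : 3 ≤ d) (hpar : Even (d * D))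
    (f : ℕ → Polynomial ℤ) (hfd : ∀ n, (f n).natDegree = d)
    (hsep : ∀ n, ((f n).map (Int.castRingHom ℚ)).Separable)
    (hc : ∀ i, ∀ ε : ℝ, 0 < ε → ∀ᶠ n in (UU : Filter ℕ), |((f n).coeff i : ℝ)| ≤ (q n : ℝ) ^ ε)
    (e h : ℕ → ℤ) (E : ℕ) (hE : ∀ n, |e n| ≤ E) (hlc : ∀ n, (f n).leadingCoeff = e n * h n ^ 2)
    (y : ℕ → ℤ) (hy : ∀ n, y n ^ 2 = (f n).eval (eval (px (q n) (x n)) F)) : False := by
  classical
  -- the constant
  obtain ⟨e0, he0⟩ : ∃ e0 : ℤ, ∀ᶠ n in (UU : Filter ℕ), e n = e0 := by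
    have hfin : (Set.Icc (-(E : ℤ)) E).Finite := Set.finite_Icc _ _
    have hmem : Set.Icc (-(E : ℤ)) E ∈ Ultrafilter.map e UU := by
      rw [Ultrafilter.mem_map]
      have : e ⁻¹' Set.Icc (-(E : ℤ)) E = Set.univ := by
        ext n
        simp only [Set.mem_preimage, Set.mem_Icc, Set.mem_univ, iff_true]
        exact abs_le.1 (hE n)
      rw [this]
      exact Filter.univ_mem
    obtain ⟨e0, -, h2⟩ := Ultrafilter.eq_pure_of_finite_mem hfin hmem
    refine ⟨e0, ?_⟩
    have h3 : {e0} ∈ Ultrafilter.map e UU := by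
      rw [h2]
      exact Set.mem_singleton e0
    exact h3
  have hf0 : ∀ n, f n ≠ 0 := by
    intro n h0
    have := hfd n
    rw [h0, Polynomial.natDegree_zero] at this
    omega
  have hlc0 : ∀ n, (f n).leadingCoeff ≠ 0 := fun n => Polynomial.leadingCoeff_ne_zero.2 (hf0 n)
  have hh0 : ∀ n, h n ≠ 0 := by
    intro n h0
    apply hlc0 n
    rw [hlc, h0]
    ring
  have he00 : e0 ≠ 0 := by
    obtain ⟨n, hn⟩ := he0.exists
    rintro rfl
    apply hlc0 n
    rw [hlc, hn, zero_mul]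
  have hh : Sml q hL (fun n => (h n : ℚ)) := by
    apply Sml.int H.big
    intro ε hε
    filter_upwards [hc d ε hε] with n hn
    refine le_trans ?_ hn
    have h1 : (f n).coeff d = e n * h n ^ 2 := by
      rw [← hlc n]
      unfold Polynomial.leadingCoeff
      rw [hfd n]
    have h2 : |h n| ≤ |(f n).coeff d| := by
      rw [h1, abs_mul, abs_pow]
      have h3 : 1 ≤ |e n| := by
        apply Int.one_le_abs
        rintro h0
        apply hlc0 n
        rw [hlc, h0, zero_mul]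
      have h4 : 1 ≤ |h n| := Int.one_le_abs (hh0 n)
      nlinarith
    exact_mod_cast h2
  have hcS : ∀ i, Sml q hL (fun n => (((f n).coeff i : ℤ) : ℚ)) := fun i => Sml.int H.big (hc i)
  set g : ℕ → ℕ → ℚ := fun n t => if t = 0 then 1 else
    (((f n).coeff (d - t) : ℤ) : ℚ) * ((h n : ℚ) * (h n : ℚ) * (e0 : ℚ))⁻¹ with hg
  have hg0 : ∀ n, g n 0 = 1 := fun n => by rw [hg]; simp
  have hgS : ∀ t, Sml q hL (fun n => g n t) := by
    intro t
    rw [hg]
    by_cases ht : t = 0
    · simp only [if_pos ht]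
      exact Sml.const 1
    · simp only [if_neg ht]
      exact (hcS (d - t)).mul (((hh.mul hh).mul (Sml.const _)).inv)
  have hyg : ∀ᶠ n in (UU : Filter ℕ), (y n : ℚ) ^ 2 = (h n : ℚ) ^ 2 * e0
      * ∑ t ∈ Finset.range (d + 1), g n t * ((eval (px (q n) (x n)) F : ℤ) : ℚ) ^ (d - t) := by
    filter_upwards [he0] with n hn
    have hhq : (h n : ℚ) ≠ 0 := by exact_mod_cast hh0 n
    have heq : (e0 : ℚ) ≠ 0 := by exact_mod_cast he00
    have h1 : ((y n ^ 2 : ℤ) : ℚ) = (((f n).eval (eval (px (q n) (x n)) F) : ℤ) : ℚ) := by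
      rw [hy n]
    rw [Polynomial.eval_eq_sum_range, hfd n, ← Finset.sum_range_reflect] at h1
    push_cast at h1
    rw [h1, Finset.mul_sum]
    refine Finset.sum_congr rfl fun t ht => ?_
    rw [← mul_assoc]
    congr 1
    rw [hg]
    simp only []
    split_ifs with h0
    · rw [h0, Nat.sub_zero, mul_one]
      have h3 : (f n).coeff d = e n * h n ^ 2 := by
        rw [← hlc n]
        unfold Polynomial.leadingCoeff
        rw [hfd n]
      rw [h3, hn]
      push_cast
      ring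
    · field_simp
  -- the polynomials
  have key : ∃ (J : Type) (_ : Fintype J) (z : ℕ → ℤ) (G : J → MvPolynomial (Option σ) ℚ)
      (μ : J → ℕ → ℚ) (D' : ℕ),
      (∀ n, z n ^ 2 = y n ^ 2) ∧ (∀ j, Sml q hL (μ j)) ∧ (∀ j, (G j).totalDegree ≤ D') ∧
      ∀ᶠ n in (UU : Filter ℕ), (z n : ℚ) = ∑ j, μ j n * va (q n) (x n) (G j) := by
    rcases Nat.even_or_odd' d with ⟨m, hm | hm⟩
    · subst hm
      obtain ⟨z, G, μ, D', h1⟩ := even_core S hS halg hind H hL hF hD htop m e0 he00 h
        (Eventually.of_forall hh0) hh g hg0 hgS y hyg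
      exact ⟨_, inferInstance, z, G, μ, D', h1⟩
    · subst hm
      obtain ⟨k0, hk0⟩ : Even D := by
        rcases Nat.even_mul.1 hpar with h1 | h1
        · exact absurd h1 (by simp)
        · exact h1
      rw [← two_mul] at hk0
      subst hk0
      obtain ⟨z, G, μ, D', h1⟩ := odd_core S hS halg hind H hL hF (by omega) htop m e0 he00 h
        (Eventually.of_forall hh0) hh g hg0 hgS y hyg
      exact ⟨_, inferInstance, z, G, μ, D', h1⟩
  obtain ⟨J, _, z, G, μ, D', hz, hμ, hG, hzG⟩ := key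
  have hFq : (map (Int.castRingHom ℚ) F).totalDegree ≤ D :=
    (Finset.sup_mono (support_map_subset _ _)).trans hF
  have haev : ∀ n, Polynomial.aeval (map (Int.castRingHom ℚ) F) (f n)
      = ∑ i ∈ Finset.range (d + 1), C (((f n).coeff i : ℤ) : ℚ) * (map (Int.castRingHom ℚ) F) ^ i := by
    intro n
    rw [Polynomial.aeval_def, Polynomial.eval₂_eq_sum_range, hfd n]
    refine Finset.sum_congr rfl fun i _ => ?_
    congr 1
  have hvF : ∀ n, va (q n) (x n) (map (Int.castRingHom ℚ) F) = ((eval (px (q n) (x n)) F : ℤ) : ℚ) := by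
    intro n
    rw [map_px]
  have hR0 := vanishM S hS halg hind H hL (2 * D' + d * D)
    (fun n => (∑ j, C (μ j n) * G j) * (∑ j, C (μ j n) * G j)
      - ∑ i ∈ Finset.range (d + 1), C (((f n).coeff i : ℤ) : ℚ) * (map (Int.castRingHom ℚ) F) ^ i)
    (by
      have h1 := sp_sum (q := q) (hL := hL) (Finset.univ : Finset J)
        (R := fun j n => C (μ j n) * G j) (fun j _ => sp_mul (sp_C (hμ j)) (sp_const (G j)))
      have h2 := sp_sum (q := q) (hL := hL) (Finset.range (d + 1))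
        (R := fun i n => C (((f n).coeff i : ℤ) : ℚ) * (map (Int.castRingHom ℚ) F) ^ i)
        (fun i _ => sp_mul (sp_C (hcS i)) (sp_const _))
      exact sp_sub (sp_mul h1 h1) h2)
    (by
      intro n
      have h1 : (∑ j, C (μ j n) * G j).totalDegree ≤ D' := by
        refine (totalDegree_finsetSum _ _).trans (Finset.sup_le fun j _ => ?_)
        refine (totalDegree_mul _ _).trans ?_
        rw [totalDegree_C, zero_add]
        exact hG j
      have h2 : (∑ i ∈ Finset.range (d + 1), C (((f n).coeff i : ℤ) : ℚ)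
          * (map (Int.castRingHom ℚ) F) ^ i).totalDegree ≤ d * D := by
        refine (totalDegree_finsetSum _ _).trans (Finset.sup_le fun i hi => ?_)
        refine (totalDegree_mul _ _).trans ?_
        rw [totalDegree_C, zero_add]
        refine (totalDegree_pow _ _).trans ?_
        exact Nat.mul_le_mul (Nat.lt_succ_iff.1 (Finset.mem_range.1 hi)) hFq
      refine (totalDegree_sub _ _).trans (max_le ?_ (h2.trans (by omega)))
      refine (totalDegree_mul _ _).trans ?_
      omega)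
    (by
      filter_upwards [hzG] with n hn
      rw [map_sub, map_mul, ← haev n]
      have h1 : va (q n) (x n) (∑ j, C (μ j n) * G j) = (z n : ℚ) := by
        rw [hn, map_sum]
        refine Finset.sum_congr rfl fun j _ => ?_
        rw [map_mul]
        congr 1
        unfold va
        rw [aeval_C]
        rfl
      have h2 : va (q n) (x n) (Polynomial.aeval (map (Int.castRingHom ℚ) F) (f n))
          = (((f n).eval (eval (px (q n) (x n)) F) : ℤ) : ℚ) := by
        rw [Polynomial.aeval_def, Polynomial.eval₂_eq_sum_range, map_sum,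
          Polynomial.eval_eq_sum_range]
        push_cast
        refine Finset.sum_congr rfl fun i _ => ?_
        rw [map_mul, map_pow, hvF]
        congr 1
        simp
      rw [h1, h2, ← hy n, ← hz n]
      push_cast
      ring)
  obtain ⟨n, hn⟩ := hR0.exists
  rw [← haev n, sub_eq_zero, ← pow_two] at hn
  exact no_hyp θ hF hD htop (f n) (by rw [hfd n]; exact hd) (hsep n) _ hn

end

section
variable {σ : Type} [Fintype σ] [DecidableEq σ]

/-- **Coefficients are large.** -/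
theorem hyp_main (S : Finset ℕ) (hS : ∀ p ∈ S, p.Prime) {θ : σ → ℝ}
    (halg : ∀ s, IsAlgebraic ℚ (θ s))
    (hind : LinearIndependent ℚ (fun o : Option σ => (o.elim 1 (fun s => θ s) : ℝ)))
    {F : MvPolynomial (Option σ) ℤ} {D : ℕ} (hF : F.totalDegree ≤ D) (hD : 0 < D)
    (htop : topv D F θ ≠ 0) {d : ℕ} (hd : 3 ≤ d) (hpar : Even (d * D)) (E : ℕ) :
    ∃ (η : ℝ) (N : ℕ), 0 < η ∧ ∀ q ≥ N, ∀ x, Near S θ η q x → ∀ f : Polynomial ℤ,
      f.natDegree = d → (f.map (Int.castRingHom ℚ)).Separable →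
      ∀ e h : ℤ, |e| ≤ E → f.leadingCoeff = e * h ^ 2 →
      ∀ y : ℤ, y ^ 2 = f.eval (eval (px q x) F) → ∃ i, (q : ℝ) ^ η < |(f.coeff i : ℝ)| := by
  classical
  obtain ⟨η, N, A, hη, h⟩ := finite_rep' S θ (β := Unit) (Δ := Polynomial ℤ × ℤ × ℤ × ℤ)
    (fun η q x t => t.1.natDegree = d ∧ (t.1.map (Int.castRingHom ℚ)).Separable ∧ |t.2.1| ≤ E ∧
      t.1.leadingCoeff = t.2.1 * t.2.2.1 ^ 2 ∧ t.2.2.2 ^ 2 = t.1.eval (eval (px q x) F) ∧
      ∀ i, |(t.1.coeff i : ℝ)| ≤ (q : ℝ) ^ η) (fun _ _ _ _ => False) (by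
    intro q x t H ht
    exfalso
    refine hyp_seq S hS halg hind H (tendsto_logx H) hF hD htop hd hpar (fun n => (t n).1)
      (fun n => (ht n).1) (fun n => (ht n).2.1) ?_ (fun n => (t n).2.1) (fun n => (t n).2.2.1) E
      (fun n => (ht n).2.2.1) (fun n => (ht n).2.2.2.1) (fun n => (t n).2.2.2)
      (fun n => (ht n).2.2.2.2.1)
    intro i ε hε
    exact small_of H.big (fun n => |((t n).1.coeff i : ℝ)|) (fun n => (ht n).2.2.2.2.2 i) ε hε)
  refine ⟨η, N, hη, fun q hq x hx f hfd hsep e h' he hlc y hy => ?_⟩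
  by_contra hcon
  push Not at hcon
  obtain ⟨_, _, h1⟩ := h q hq x hx (f, e, h', y) ⟨hfd, hsep, he, hlc, hy, hcon⟩
  exact h1

/-- sizes of the values -/
theorem val_main (S : Finset ℕ) {θ : σ → ℝ}
    {F : MvPolynomial (Option σ) ℤ} {D : ℕ} (hF : F.totalDegree ≤ D) :
    ∃ (η : ℝ) (N : ℕ), 0 < η ∧ ∀ q ≥ N, ∀ x, Near S θ η q x →
      |((eval (px q x) F : ℤ) : ℝ)| ≤ (q : ℝ) ^ (D + 1 : ℝ) := by
  classical
  obtain ⟨η, N, hη, h⟩ := none_left S θ (Δ := Unit)
    (fun q x _ => (q : ℝ) ^ (D + 1 : ℝ) < |((eval (px q x) F : ℤ) : ℝ)|) (by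
    intro q x _ H ht
    obtain ⟨n, hn⟩ := ((sm_val S H F hF) 1 one_pos).exists
    rw [Complex.norm_intCast] at hn
    exact absurd hn (not_le.2 (ht n)))
  refine ⟨η, N, hη, fun q hq x hx => ?_⟩
  by_contra hcon
  exact h q hq x hx () (not_le.1 hcon)

end

end Pool.Agent.Q4.Hyp
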