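import Mathlib
import Pool.Agent.Q4.Hyp.Main

set_option autoImplicit false
set_option linter.unusedSectionVars false

/-!
# Hyperelliptic curves with integral points of polynomial ordinate near a ray
-/

namespace Pool.Agent.Q4.Hyp

open Filter Topology Pool.Agent.TH932.Abs Pool.Agent.TH932.Germs Pool.Agent.TH932.Chi
open Pool.Agent.TH796.AL Pool.Agent.Q4.Blk Pool.Agent.Q4.Gcd Pool.Agent.Q4.Cov Module MvPolynomial
open Pool.Agent.Q4.Tube Pool.Agent.Q4.Hall

/-- the size of the solutions -/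
lemma root_size {d : ℕ} (hd : 0 < d) (c : ℕ → ℝ) (hcd : 1 ≤ |c d|) {K x V : ℝ} (hK : 0 ≤ K)
    (hc : ∀ i < d, |c i| ≤ K) (hx : 1 ≤ |x|)
    (h : ∑ i ∈ Finset.range (d + 1), c i * x ^ i = V) :
    |x| ≤ 2 * d * K ∨ |x| ^ d ≤ 2 * |V| := by
  by_cases h1 : |x| ≤ 2 * d * K
  · exact Or.inl h1
  right
  rw [not_le] at h1
  rw [Finset.sum_range_succ] at h
  have h2 : |c d * x ^ d| ≤ |V| + ∑ i ∈ Finset.range d, |c i * x ^ i| := by
    have h3 : c d * x ^ d = V - ∑ i ∈ Finset.range d, c i * x ^ i := by linarith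
    rw [h3]
    exact (abs_sub _ _).trans (add_le_add_right (Finset.abs_sum_le_sum_abs _ _) _)
  have h4 : ∑ i ∈ Finset.range d, |c i * x ^ i| ≤ d * (K * |x| ^ (d - 1)) := by
    have h5 : ∀ i ∈ Finset.range d, |c i * x ^ i| ≤ K * |x| ^ (d - 1) := by
      intro i hi
      have hi' := Finset.mem_range.1 hi
      rw [abs_mul, abs_pow]
      exact mul_le_mul (hc i hi') (pow_le_pow_right₀ hx (by omega)) (by positivity) hK
    refine (Finset.sum_le_sum h5).trans (le_of_eq ?_)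
    rw [Finset.sum_const, Finset.card_range, nsmul_eq_mul]
  have h6 : |x| ^ d = |x| ^ (d - 1) * |x| := by rw [← pow_succ]; congr 1; omega
  have h7 : |x| ^ d ≤ |c d * x ^ d| := by
    rw [abs_mul, abs_pow]
    exact le_mul_of_one_le_left (by positivity) hcd
  have h8 : (0 : ℝ) < |x| ^ (d - 1) := by positivity
  have h9 : (d : ℝ) * (K * |x| ^ (d - 1)) ≤ |x| ^ d / 2 := by
    rw [h6]
    nlinarith
  linarith

section
variable {σ : Type} [Fintype σ] [DecidableEq σ]

/-- solutions in polynomials are constant -/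
lemma hyp_const (θ : σ → ℝ) (f : Polynomial ℤ) (hd : 3 ≤ f.natDegree)
    (hsep : (f.map (Int.castRingHom ℚ)).Separable) {F : MvPolynomial (Option σ) ℤ} {D : ℕ}
    (hF : F.totalDegree ≤ D) (hD : 0 < D) (htop : topv D F θ ≠ 0) (P : MvPolynomial (Option σ) ℚ)
    (h : (map (Int.castRingHom ℚ) F) ^ 2 = Polynomial.aeval P f) : False := by
  set ψ : MvPolynomial (Option σ) ℚ →+* Polynomial ℝ :=
    (Polynomial.mapRingHom (MvPolynomial.eval (fun _ : σ => (0 : ℝ)))).comp
      ((Phi θ).toRingHom.comp (MvPolynomial.map (algebraMap ℚ ℝ))) with hψ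
  set Y : Polynomial ℝ := ψ (map (Int.castRingHom ℚ) F) with hP
  have hPc : Y.coeff D = topv D F θ := by
    have h1 : MvPolynomial.map (algebraMap ℚ ℝ) (map (Int.castRingHom ℚ) F)
        = map (Int.castRingHom ℝ) F := by
      rw [MvPolynomial.map_map]
      congr 1
    have h2 : Y = ((Phi θ) (map (Int.castRingHom ℝ) F)).map (MvPolynomial.eval (fun _ : σ => (0 : ℝ))) := by
      rw [hP, hψ]
      change Polynomial.map _ ((Phi θ) (MvPolynomial.map (algebraMap ℚ ℝ) (map (Int.castRingHom ℚ) F))) = _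
      rw [h1]
    rw [h2, Polynomial.coeff_map, Phi_coeff θ F hF, eval_C]
  have h1 : Y ^ 2 = Polynomial.aeval (ψ P) f := by
    rw [hP, ← map_pow, h, Polynomial.aeval_def, Polynomial.aeval_def, Polynomial.hom_eval₂]
    congr 1
    exact RingHom.ext_int _ _
  have hdeg : (f.map (Int.castRingHom ℝ)).natDegree = f.natDegree :=
    Polynomial.natDegree_map_eq_of_injective Int.cast_injective f
  obtain ⟨c, c', -, h2⟩ := Pool.Agent.TH551.HE.no_param ℝ (f.map (Int.castRingHom ℝ)) (by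
      have h3 := hsep.map (f := algebraMap ℚ ℝ)
      rw [Polynomial.map_map] at h3
      have e1 : (Int.castRingHom ℝ) = (algebraMap ℚ ℝ).comp (Int.castRingHom ℚ) :=
        RingHom.ext_int _ _
      rw [e1]
      exact h3) (by rw [hdeg]; exact hd) (ψ P) 1 Y one_ne_zero (by
    rw [h1, one_pow, mul_one, Polynomial.aeval_def, Polynomial.eval₂_eq_sum_range, hdeg]
    refine Finset.sum_congr rfl fun i _ => ?_
    rw [one_pow, mul_one, Polynomial.coeff_map]
    congr 1)
  apply htop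
  rw [← hPc, h2, mul_one, Polynomial.coeff_C_of_ne_zero hD.ne']

lemma sp_pow {q : ℕ → ℕ} {hL : Tendsto (fun n => Real.log (q n)) atTop atTop}
    {R : ℕ → MvPolynomial (Option σ) ℚ} (hR : ∀ a, Sml q hL (fun n => coeff a (R n))) (k : ℕ) :
    ∀ a, Sml q hL (fun n => coeff a (R n ^ k)) := by
  induction k with
  | zero =>
    simp only [pow_zero]
    exact sp_const 1
  | succ k ih =>
    simp only [pow_succ]
    exact sp_mul ih hR

variable (S : Finset ℕ) (hS : ∀ p ∈ S, p.Prime) {θ : σ → ℝ} (halg : ∀ s, IsAlgebraic ℚ (θ s))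
  (hind : LinearIndependent ℚ (fun o : Option σ => (o.elim 1 (fun s => θ s) : ℝ)))
  {q : ℕ → ℕ} {x : ℕ → σ → ℤ} (H : Tub S θ q x)

include halg H in
/-- complex numbers whose powers are close to values of polynomials -/
theorem near_powC {P0 : MvPolynomial (Option σ) ℤ} {b E : ℕ} (hb : 0 < b)
    (hF : P0.totalDegree ≤ b * E) (htop : topv (b * E) P0 θ ≠ 0) (y : ℕ → ℂ) {δ : ℝ}
    (hy : Sm q (((b - 1) * E : ℕ) - δ)
      (fun n => (y n) ^ b - ((eval (px (q n) (x n)) P0 : ℤ) : ℂ))) :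
    ∃ c : Ex (Option σ) E → QB, Sm q (-min δ 1) (fun n => y n
      - ∑ a, phi (c a) * ((zv θ (q n) (x n) a.1 : ℝ) : ℂ)) := by
  classical
  set P : Polynomial (MvPolynomial (Option σ) ℤ) := Polynomial.X ^ b - Polynomial.C P0 with hP
  have hPd : P.natDegree = b := Polynomial.natDegree_X_pow_sub_C
  have hPm : P.Monic := Polynomial.monic_X_pow_sub_C _ hb.ne'
  have hlead : topv 0 P.leadingCoeff θ ≠ 0 := by
    rw [hPm.leadingCoeff, topv_one]
    exact one_ne_zero
  have hcoef : ∀ i, P.coeff i = (if i = b then 1 else 0) - (if i = 0 then P0 else 0) := by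
    intro i
    rw [hP, Polynomial.coeff_sub, Polynomial.coeff_X_pow, Polynomial.coeff_C]
  have hdeg : ∀ i, (P.coeff i).totalDegree ≤ (P.natDegree - i) * E + 0 := by
    intro i
    rw [hPd, add_zero, hcoef]
    by_cases h0 : i = 0
    · rw [h0, if_neg (by omega), if_pos rfl, zero_sub, totalDegree_neg, Nat.sub_zero]
      exact hF
    · rw [if_neg h0, sub_zero]
      split_ifs
      · rw [totalDegree_one]
        exact Nat.zero_le _
      · rw [totalDegree_zero]
        exact Nat.zero_le _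
  have hpnf : pnf P E 0 θ = Polynomial.X ^ b - Polynomial.C (topv (b * E) P0 θ) := by
    ext j
    rw [Polynomial.coeff_sub, Polynomial.coeff_X_pow, Polynomial.coeff_C]
    by_cases hj : j ≤ b
    · rw [pnf_coeff θ (by rw [hPd]; exact hj), hPd, add_zero, hcoef]
      by_cases h0 : j = 0
      · rw [h0, if_neg (by omega), if_pos rfl, if_neg (by omega), if_pos rfl, Nat.sub_zero,
          zero_sub, zero_sub]
        unfold topv
        rw [map_neg, map_neg]
      · rw [if_neg h0, if_neg h0, sub_zero, sub_zero]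
        split_ifs with h1
        · rw [h1, Nat.sub_self, zero_mul]
          exact topv_one θ
        · unfold topv
          rw [map_zero, map_zero]
    · rw [if_neg (by omega), if_neg (by omega), sub_zero]
      unfold pnf
      rw [Polynomial.finsetSum_coeff]
      refine Finset.sum_eq_zero fun i hi => ?_
      have hi' := Finset.mem_range.1 hi
      rw [hPd] at hi'
      rw [Polynomial.coeff_C_mul, Polynomial.coeff_X_pow, if_neg (by omega), mul_zero]
  have hsep : (pnf P E 0 θ).Separable := by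
    rw [hpnf]
    exact Polynomial.separable_X_pow_sub_C _ (by exact_mod_cast hb.ne') htop
  set f : ℕ → Polynomial ℂ := fun n => P.map (evx (q n) (x n) ℂ) with hf
  have hfe : ∀ n (z : ℂ), (f n).eval z = z ^ b - ((eval (px (q n) (x n)) P0 : ℤ) : ℂ) := by
    intro n z
    rw [hf]
    simp only []
    rw [hP, Polynomial.map_sub, Polynomial.map_pow, Polynomial.map_X, Polynomial.map_C,
      Polynomial.eval_sub, Polynomial.eval_pow, Polynomial.eval_X, Polynomial.eval_C]
    rfl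
  have hfd : ∀ n, (f n).natDegree = b := by
    intro n
    rw [hf]
    simp only []
    rw [hPm.natDegree_map, hPd]
  have hnear : ∀ n, ∃ ρ : ℂ, (f n).eval ρ = 0 ∧
      ‖(y n : ℂ) - ρ‖ * ‖(f n).derivative.eval ρ‖ ≤ 2 ^ ((f n).natDegree - 1)
        * ‖(f n).eval (y n : ℂ)‖ := fun n => nearest (f n) (by rw [hfd]; exact hb) _
  choose ρ hρ0 hρ1 using hnear
  obtain ⟨c, hcpos, hder⟩ := deriv_seq S halg H (by rw [hPd]; exact hb) hlead hdeg hsep ρ
    (Eventually.of_forall hρ0)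
  obtain ⟨cf, hcf⟩ := Pool.Agent.Q4.Tube.root_exp H halg hlead hdeg hsep ρ (Eventually.of_forall hρ0) 0
  -- closeness
  have hclose : Sm q (-δ) (fun n => (y n : ℂ) - ρ n) := by
    have h1 := Sm.mul H.big (Sm.const H.big ((2 ^ (b - 1) / c : ℝ) : ℂ))
      (Sm.mul H.big hy (Sm.pow H.big (Sm.qinv H.big) ((b - 1) * E)))
    have e1 : (0 : ℝ) + (((b - 1) * E : ℕ) - δ + (((b - 1) * E : ℕ) : ℝ) * (-1)) = -δ := by ring
    rw [e1] at h1
    refine h1.le ?_
    filter_upwards [hder] with n hn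
    have hqp := qpos H.big n
    rw [hPd, add_zero] at hn
    have h2 := hρ1 n
    rw [hfd, hfe] at h2
    have h3 : ‖(y n : ℂ) - ρ n‖ * (c * (q n : ℝ) ^ ((b - 1) * E)) ≤ 2 ^ (b - 1)
        * ‖(y n : ℂ) ^ b - ((eval (px (q n) (x n)) P0 : ℤ) : ℂ)‖ :=
      (mul_le_mul_of_nonneg_left hn (norm_nonneg _)).trans h2
    have h4 : ‖((2 ^ (b - 1) / c : ℝ) : ℂ) * (((y n : ℂ) ^ b
        - ((eval (px (q n) (x n)) P0 : ℤ) : ℂ)) * (1 / (q n : ℂ)) ^ ((b - 1) * E))‖
        = (2 ^ (b - 1) / c) * (‖(y n : ℂ) ^ b - ((eval (px (q n) (x n)) P0 : ℤ) : ℂ)‖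
          * (1 / (q n : ℝ)) ^ ((b - 1) * E)) := by
      rw [norm_mul, norm_mul, norm_pow, norm_div, norm_one, Complex.norm_natCast,
        Complex.norm_real, Real.norm_eq_abs, abs_of_nonneg (by positivity)]
    rw [h4]
    have h5 : (2 ^ (b - 1) / c) * (‖(y n : ℂ) ^ b - ((eval (px (q n) (x n)) P0 : ℤ) : ℂ)‖
          * (1 / (q n : ℝ)) ^ ((b - 1) * E))
        = (2 ^ (b - 1) * ‖(y n : ℂ) ^ b - ((eval (px (q n) (x n)) P0 : ℤ) : ℂ)‖)
          / (c * (q n : ℝ) ^ ((b - 1) * E)) := by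
      rw [one_div, inv_pow]
      field_simp
    rw [h5, le_div_iff₀ (by positivity)]
    exact h3
  obtain ⟨c', hc'⟩ := ext_coef (show 0 + E ≤ E by omega) cf
  refine ⟨c', ?_⟩
  have h1 := Sm.add H.big (hclose.mono H.big (show -δ ≤ -min δ 1 by
      have := min_le_left δ 1
      linarith)) (hcf.mono H.big (show (-1 : ℝ) ≤ -min δ 1 by
      have := min_le_right δ 1
      linarith))
  refine h1.congr (Eventually.of_forall fun n => ?_)
  rw [pow_zero, one_mul, hc' (fun a => ((zv θ (q n) (x n) a : ℝ) : ℂ))]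
  ring

include hS halg hind H

/-- **The theorem for sequences.** -/
theorem ord_seq (hL : Tendsto (fun n => Real.log (q n)) atTop atTop)
    {F : MvPolynomial (Option σ) ℤ} {D : ℕ} (hF : F.totalDegree ≤ D) (hD : 0 < D)
    (htop : topv D F θ ≠ 0) {m k0 : ℕ} (hm : 1 ≤ m) (hk : (m + 2) * k0 = 2 * D)
    (f : ℕ → Polynomial ℤ) (hfd : ∀ n, (f n).natDegree = m + 2)
    (hsep : ∀ n, ((f n).map (Int.castRingHom ℚ)).Separable)
    (hc : ∀ i, ∀ ε : ℝ, 0 < ε → ∀ᶠ n in (UU : Filter ℕ), |((f n).coeff i : ℝ)| ≤ (q n : ℝ) ^ ε)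
    (e h : ℕ → ℤ) (E : ℕ) (hE : ∀ n, |e n| ≤ E)
    (hlc : ∀ n, (f n).leadingCoeff = e n * h n ^ (m + 2))
    (X : ℕ → ℤ) (hX : ∀ n, (eval (px (q n) (x n)) F) ^ 2 = (f n).eval (X n)) : False := by
  classical
  have hk0 : 1 ≤ k0 := by
    rcases Nat.eq_zero_or_pos k0 with h0 | h0
    · rw [h0] at hk
      omega
    · exact h0
  have hk0r : (1 : ℝ) ≤ k0 := by exact_mod_cast hk0
  -- the constant
  obtain ⟨e0, he0⟩ : ∃ e0 : ℤ, ∀ᶠ n in (UU : Filter ℕ), e n = e0 := by
    have hfin : (Set.Icc (-(E : ℤ)) E).Finite := Set.finite_Icc _ _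
    have hmem : Set.Icc (-(E : ℤ)) E ∈ Ultrafilter.map e UU := by
      rw [Ultrafilter.mem_map]
      have : e ⁻¹' Set.Icc (-(E : ℤ)) E = Set.univ := by
        ext n
        simp only [Set.mem_preimage, Set.mem_Icc, Set.mem_univ, iff_true]
        exact abs_le.1 (hE n)
      rw [this]
      exact Filter.univ_mem
    obtain ⟨e0, -, h2⟩ := Ultrafilter.eq_pure_of_finite_mem hfin hmem
    refine ⟨e0, ?_⟩
    have h3 : {e0} ∈ Ultrafilter.map e UU := by
      rw [h2]
      exact Set.mem_singleton e0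
    exact h3
  have hf0 : ∀ n, f n ≠ 0 := by
    intro n h0
    have := hfd n
    rw [h0, Polynomial.natDegree_zero] at this
    omega
  have hlc0 : ∀ n, (f n).leadingCoeff ≠ 0 := fun n => Polynomial.leadingCoeff_ne_zero.2 (hf0 n)
  have hcd : ∀ n, (f n).coeff (m + 2) = e n * h n ^ (m + 2) := by
    intro n
    rw [← hlc n]
    unfold Polynomial.leadingCoeff
    rw [hfd n]
  have hcd0 : ∀ n, (f n).coeff (m + 2) ≠ 0 := by
    intro n
    have := hlc0 n
    unfold Polynomial.leadingCoeff at this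
    rwa [hfd n] at this
  have hh0 : ∀ n, h n ≠ 0 := by
    intro n h0
    apply hcd0 n
    rw [hcd, h0, zero_pow (by omega), mul_zero]
  have hen0 : ∀ n, e n ≠ 0 := by
    intro n h0
    apply hcd0 n
    rw [hcd, h0, zero_mul]
  have he00 : e0 ≠ 0 := by
    obtain ⟨n, hn⟩ := he0.exists
    rw [← hn]
    exact hen0 n
  have hh : Sml q hL (fun n => (h n : ℚ)) := by
    apply Sml.int H.big
    intro ε hε
    filter_upwards [hc (m + 2) ε hε] with n hn
    refine le_trans ?_ hn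
    have h2 : |h n| ≤ |(f n).coeff (m + 2)| := by
      rw [hcd, abs_mul, abs_pow]
      have h3 : 1 ≤ |e n| := Int.one_le_abs (hen0 n)
      have h4 : 1 ≤ |h n| := Int.one_le_abs (hh0 n)
      calc |h n| ≤ |h n| ^ (m + 2) := le_self_pow₀ h4 (by omega)
        _ ≤ |e n| * |h n| ^ (m + 2) := le_mul_of_one_le_left (by positivity) h3
    exact_mod_cast h2
  have hcS : ∀ i, Sml q hL (fun n => (((f n).coeff i : ℤ) : ℚ)) := fun i => Sml.int H.big (hc i)
  -- the size of the abscissae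
  have hsF := sm_val S H F hF
  have hsX : Sm q (k0 : ℝ) (fun n => ((X n : ℤ) : ℂ)) := by
    intro ε hε
    have hK : ∀ᶠ n in (UU : Filter ℕ), ∀ i ∈ Finset.range (m + 2),
        |((f n).coeff i : ℝ)| ≤ (q n : ℝ) ^ (1 / 2 : ℝ) := by
      rw [eventually_all_finset]
      intro i _
      exact hc i (1 / 2) (by norm_num)
    filter_upwards [hK, hsF (ε / 2) (half_pos hε), big_ev H.big (2 * ((m + 2 : ℕ) : ℝ))
      (show (0 : ℝ) < 1 / 2 by norm_num), big_ev H.big 2 hε] with n h1 h2 h3 h4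
    have hqp := qpos H.big n
    have hq1 := qone H.big n
    rw [Complex.norm_intCast] at h2 ⊢
    by_cases hx1 : |((X n : ℤ) : ℝ)| < 1
    · exact hx1.le.trans (Real.one_le_rpow hq1 (by positivity))
    rw [not_lt] at hx1
    have h5 : ∑ i ∈ Finset.range (m + 2 + 1), ((f n).coeff i : ℝ) * ((X n : ℤ) : ℝ) ^ i
        = ((eval (px (q n) (x n)) F : ℤ) : ℝ) ^ 2 := by
      have h6 := hX n
      rw [Polynomial.eval_eq_sum_range, hfd n] at h6
      have h7 := congrArg (fun z : ℤ => (z : ℝ)) h6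
      push_cast at h7
      exact h7.symm
    rcases root_size (d := m + 2) (by omega) (fun i => ((f n).coeff i : ℝ)) (by
      have := Int.one_le_abs (hcd0 n)
      exact_mod_cast this) (K := (q n : ℝ) ^ (1 / 2 : ℝ)) (by positivity)
      (fun i hi => h1 i (Finset.mem_range.2 hi)) hx1 h5 with h6 | h6
    · refine h6.trans ?_
      calc 2 * ((m + 2 : ℕ) : ℝ) * (q n : ℝ) ^ (1 / 2 : ℝ)
          ≤ (q n : ℝ) ^ (1 / 2 : ℝ) * (q n : ℝ) ^ (1 / 2 : ℝ) :=
            mul_le_mul_of_nonneg_right h3 (by positivity)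
        _ = (q n : ℝ) ^ (1 : ℝ) := by rw [← Real.rpow_add hqp]; norm_num
        _ ≤ (q n : ℝ) ^ ((k0 : ℝ) + ε) := Real.rpow_le_rpow_of_exponent_le hq1 (by linarith)
    · have h7 : |((X n : ℤ) : ℝ)| ^ (m + 2) ≤ ((q n : ℝ) ^ ((k0 : ℝ) + ε)) ^ (m + 2) := by
        refine h6.trans ?_
        rw [abs_pow]
        have h8 : |((eval (px (q n) (x n)) F : ℤ) : ℝ)| ^ 2 ≤ ((q n : ℝ) ^ ((D : ℝ) + ε / 2)) ^ 2 :=
          pow_le_pow_left₀ (abs_nonneg _) h2 2
        have h9 : 2 * |((eval (px (q n) (x n)) F : ℤ) : ℝ)| ^ 2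
            ≤ (q n : ℝ) ^ ε * ((q n : ℝ) ^ ((D : ℝ) + ε / 2)) ^ 2 :=
          mul_le_mul h4 h8 (by positivity) (by positivity)
        refine h9.trans ?_
        rw [← Real.rpow_natCast, ← Real.rpow_natCast, ← Real.rpow_mul hqp.le,
          ← Real.rpow_mul hqp.le, ← Real.rpow_add hqp]
        apply Real.rpow_le_rpow_of_exponent_le hq1
        have h10 : ((m : ℝ) + 2) * k0 = 2 * D := by exact_mod_cast hk
        have h11 : (1 : ℝ) ≤ m := by exact_mod_cast hm
        push_cast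
        nlinarith
      exact (pow_le_pow_iff_left₀ (abs_nonneg _) (by positivity) (by omega)).1 h7
  -- the integers
  set w : ℕ → ℤ := fun n => e0 * h n * X n with hw
  have hsw : Sm q (k0 : ℝ) (fun n => ((w n : ℤ) : ℂ)) := by
    have h1 := Sm.mul H.big (Sm.mul H.big (Sm.const H.big ((e0 : ℤ) : ℂ)) (hh.sm H.big)) hsX
    rw [zero_add, zero_add] at h1
    refine h1.congr (Eventually.of_forall fun n => ?_)
    rw [hw]
    push_cast
    ring
  set M : ℕ → ℚ := fun n => ((m + 2 : ℕ) : ℚ) * (h n : ℚ) ^ (m + 1) with hM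
  have hhp : ∀ k : ℕ, Sml q hL (fun n => (h n : ℚ) ^ k) := by
    intro k
    induction k with
    | zero => simpa using Sml.const (q := q) (hL := hL) 1
    | succ k ih =>
      simp only [pow_succ]
      exact ih.mul hh
  have hMS : Sml q hL M := (Sml.const _).mul (hhp (m + 1))
  have hM0 : ∀ n, M n ≠ 0 := fun n => mul_ne_zero (by positivity)
    (pow_ne_zero _ (by exact_mod_cast hh0 n))
  set s : ℕ → ℚ := fun n => (((f n).coeff (m + 1) : ℤ) : ℚ) * (M n)⁻¹ with hs
  have hsS : Sml q hL s := (hcS (m + 1)).mul hMS.inv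
  set z : ℕ → ℤ := fun n => ((m + 2 : ℕ) : ℤ) * h n ^ (m + 1) * w n + (f n).coeff (m + 1) with hz
  have hzM : ∀ n, (z n : ℚ) = M n * ((w n : ℚ) + s n) := by
    intro n
    have := hM0 n
    rw [mul_add, hs]
    simp only []
    rw [mul_comm (((f n).coeff (m + 1) : ℤ) : ℚ), mul_inv_cancel_left₀ this, hz, hM]
    push_cast
    ring
  set P0 : MvPolynomial (Option σ) ℤ := C (e0 ^ (m + 1)) * F ^ 2 with hP0
  have hP0d : P0.totalDegree ≤ (m + 2) * k0 := by
    refine (totalDegree_mul _ _).trans ?_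
    rw [totalDegree_C, zero_add, hk]
    exact (totalDegree_pow _ _).trans (Nat.mul_le_mul_left _ hF)
  have hP0t : topv ((m + 2) * k0) P0 θ ≠ 0 := by
    have h1 : topv ((m + 2) * k0) P0 θ = (e0 : ℝ) ^ (m + 1) * (topv D F θ) ^ 2 := by
      rw [hk, ← topv_pow θ hF]
      unfold topv
      rw [hP0, homogeneousComponent_C_mul, map_mul, aeval_C]
      congr 1
      push_cast
      simp
    rw [h1]
    exact mul_ne_zero (pow_ne_zero _ (by exact_mod_cast he00)) (pow_ne_zero _ htop)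
  -- the expansion
  have hexp : Sm q (((m + 2 - 1) * k0 : ℕ) - (k0 : ℝ)) (fun n => (((w n : ℤ) : ℂ) + ((s n : ℝ) : ℂ)) ^ (m + 2)
      - ((eval (px (q n) (x n)) P0 : ℤ) : ℂ)) := by
    have h1 := Sm.sum H.big (Finset.range (m + 1)) (e := (m : ℝ) * k0)
      (fun j n => (((s n : ℝ) : ℂ) ^ (j + 2) * ((w n : ℤ) : ℂ) ^ (m - j)) * (((m + 2).choose (j + 2) : ℕ) : ℂ)) (by
      intro j hj
      have h2 := Sm.mul H.big (Sm.mul H.big (Sm.pow H.big (hsS.sm H.big) (j + 2))
        (Sm.pow H.big hsw (m - j))) (Sm.const H.big ((((m + 2).choose (j + 2) : ℕ) : ℂ)))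
      refine h2.mono H.big ?_
      rw [mul_zero, zero_add, add_zero]
      refine mul_le_mul_of_nonneg_right ?_ (by positivity)
      have : m - j ≤ m := Nat.sub_le _ _
      exact_mod_cast this)
    have h3 := Sm.mul H.big (Sm.const H.big (((e0 : ℤ) : ℂ) ^ (m + 1)))
      (Sm.sum H.big (Finset.range (m + 1)) (e := (m : ℝ) * k0)
      (fun i n => ((((f n).coeff i : ℤ) : ℚ) : ℝ) * ((X n : ℤ) : ℂ) ^ i) (by
      intro i hi
      have h4 := Sm.mul H.big ((hcS i).sm H.big) (Sm.pow H.big hsX i)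
      refine h4.mono H.big ?_
      rw [zero_add]
      refine mul_le_mul_of_nonneg_right ?_ (by positivity)
      have : i ≤ m := Nat.lt_succ_iff.1 (Finset.mem_range.1 hi)
      exact_mod_cast this))
    rw [zero_add] at h3
    have h5 := Sm.sub H.big h1 h3
    have e1 : (((m + 2 - 1) * k0 : ℕ) : ℝ) - (k0 : ℝ) = (m : ℝ) * k0 := by
      have : m + 2 - 1 = m + 1 := by omega
      rw [this]
      push_cast
      ring
    rw [e1]
    refine h5.congr ?_
    filter_upwards [he0] with n hn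
    have hhc : ((h n : ℤ) : ℂ) ≠ 0 := by exact_mod_cast hh0 n
    have h6 : ((eval (px (q n) (x n)) P0 : ℤ) : ℂ) = ((e0 : ℤ) : ℂ) ^ (m + 1)
        * ∑ i ∈ Finset.range (m + 2 + 1), (((f n).coeff i : ℤ) : ℂ) * ((X n : ℤ) : ℂ) ^ i := by
      rw [hP0, map_mul, eval_C, map_pow, hX n, Polynomial.eval_eq_sum_range, hfd n]
      push_cast
      rfl
    rw [h6, add_comm (((w n : ℤ) : ℂ)), add_pow, Finset.sum_range_succ', Finset.sum_range_succ',
      Finset.sum_range_succ (fun i => (((f n).coeff i : ℤ) : ℂ) * ((X n : ℤ) : ℂ) ^ i) (m + 2),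
      Finset.sum_range_succ (fun i => (((f n).coeff i : ℤ) : ℂ) * ((X n : ℤ) : ℂ) ^ i) (m + 1)]
    have h7 : ((s n : ℝ) : ℂ) * (((m + 2 : ℕ) : ℂ) * ((h n : ℤ) : ℂ) ^ (m + 1))
        = (((f n).coeff (m + 1) : ℤ) : ℂ) := by
      have hm2 : ((m : ℂ) + 2) ≠ 0 := by exact_mod_cast (by omega : m + 2 ≠ 0)
      rw [hs, hM]
      push_cast
      field_simp
    have h8 : (((f n).coeff (m + 2) : ℤ) : ℂ) = ((e0 : ℤ) : ℂ) * ((h n : ℤ) : ℂ) ^ (m + 2) := by
      rw [hcd, hn]
      push_cast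
      ring
    have h9 : ((w n : ℤ) : ℂ) = ((e0 : ℤ) : ℂ) * ((h n : ℤ) : ℂ) * ((X n : ℤ) : ℂ) := by
      rw [hw]
      push_cast
      ring
    have h10 : ∀ j ∈ Finset.range (m + 1), ((s n : ℝ) : ℂ) ^ (j + 1 + 1)
        * ((w n : ℤ) : ℂ) ^ (m + 2 - (j + 1 + 1)) * (((m + 2).choose (j + 1 + 1) : ℕ) : ℂ)
        = (((s n : ℝ) : ℂ) ^ (j + 2) * ((w n : ℤ) : ℂ) ^ (m - j)) * (((m + 2).choose (j + 2) : ℕ) : ℂ) := by
      intro j _
      have : m + 2 - (j + 1 + 1) = m - j := by omega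
      rw [this]
    rw [Finset.sum_congr rfl h10, ← h7, h8]
    simp only [zero_add, pow_zero, Nat.sub_zero, Nat.choose_zero_right, Nat.cast_one, pow_one,
      Nat.choose_one_right, one_mul, mul_one]
    have h11 : m + 2 - 1 = m + 1 := by omega
    rw [h11, h9]
    push_cast
    ring
  obtain ⟨c, hcz⟩ := near_powC S halg H (by omega) hP0d hP0t _ hexp
  have hmin : min (k0 : ℝ) 1 = 1 := min_eq_right hk0r
  rw [hmin] at hcz
  obtain ⟨G, hG1, hG2⟩ := engineM S hS halg hind H hL k0 (fun (_ : Unit) => M) (fun _ => hMS) z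
    (fun _ => c) 1 one_pos (by
      have h1 := Sm.mul H.big (hMS.sm H.big) hcz
      rw [zero_add] at h1
      refine h1.congr (Eventually.of_forall fun n => ?_)
      have h2 : (z n : ℂ) = ((M n : ℝ) : ℂ) * (((w n : ℤ) : ℂ) + ((s n : ℝ) : ℂ)) := by
        have := congrArg (fun t : ℚ => ((t : ℝ) : ℂ)) (hzM n)
        push_cast at this ⊢
        exact this
      rw [h2, Finset.univ_unique, Finset.sum_singleton]
      ring)
  -- the polynomials
  set XH : ℕ → MvPolynomial (Option σ) ℚ := fun n =>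
    C (((e0 : ℚ) * (h n : ℚ))⁻¹) * (G () - C (s n)) with hXH
  have hXHs : ∀ a, Sml q hL (fun n => coeff a (XH n)) :=
    sp_mul (sp_C ((Sml.const (e0 : ℚ)).mul hh).inv) (sp_sub (sp_const (G ())) (sp_C hsS))
  have hXHd : ∀ n, (XH n).totalDegree ≤ k0 := by
    intro n
    refine (totalDegree_mul _ _).trans ?_
    rw [totalDegree_C, zero_add]
    refine (totalDegree_sub _ _).trans (max_le (hG1 ()) ?_)
    rw [totalDegree_C]
    exact Nat.zero_le _
  have hXHv : ∀ᶠ n in (UU : Filter ℕ), va (q n) (x n) (XH n) = (X n : ℚ) := by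
    filter_upwards [hG2] with n hn
    have hhq : (h n : ℚ) ≠ 0 := by exact_mod_cast hh0 n
    have heq : (e0 : ℚ) ≠ 0 := by exact_mod_cast he00
    rw [Finset.univ_unique, Finset.sum_singleton, hzM] at hn
    have h1 := mul_left_cancel₀ (hM0 n) hn
    have h2 : va (q n) (x n) (G ()) = (w n : ℚ) + s n := h1.symm
    have hC : ∀ c : ℚ, va (q n) (x n) (C c) = c := by
      intro c
      unfold va
      rw [aeval_C]
      rfl
    rw [hXH]
    simp only []
    rw [map_mul, map_sub, hC, hC, h2, hw]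
    push_cast
    field_simp
    ring
  have hFq : (map (Int.castRingHom ℚ) F).totalDegree ≤ D :=
    (Finset.sup_mono (support_map_subset _ _)).trans hF
  have haev : ∀ n, Polynomial.aeval (XH n) (f n)
      = ∑ i ∈ Finset.range (m + 2 + 1), C (((f n).coeff i : ℤ) : ℚ) * (XH n) ^ i := by
    intro n
    rw [Polynomial.aeval_def, Polynomial.eval₂_eq_sum_range, hfd n]
    refine Finset.sum_congr rfl fun i _ => ?_
    congr 1
  have hvF : ∀ n, va (q n) (x n) (map (Int.castRingHom ℚ) F) = ((eval (px (q n) (x n)) F : ℤ) : ℚ) := by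
    intro n
    rw [map_px]
  have hR0 := vanishM S hS halg hind H hL (2 * D + (m + 2) * k0)
    (fun n => (map (Int.castRingHom ℚ) F) ^ 2
      - ∑ i ∈ Finset.range (m + 2 + 1), C (((f n).coeff i : ℤ) : ℚ) * (XH n) ^ i)
    (by
      have h2 := sp_sum (q := q) (hL := hL) (Finset.range (m + 2 + 1))
        (R := fun i n => C (((f n).coeff i : ℤ) : ℚ) * (XH n) ^ i)
        (fun i _ => sp_mul (sp_C (hcS i)) (sp_pow hXHs i))
      exact sp_sub (sp_const _) h2)
    (by
      intro n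
      have h2 : (∑ i ∈ Finset.range (m + 2 + 1), C (((f n).coeff i : ℤ) : ℚ)
          * (XH n) ^ i).totalDegree ≤ (m + 2) * k0 := by
        refine (totalDegree_finsetSum _ _).trans (Finset.sup_le fun i hi => ?_)
        refine (totalDegree_mul _ _).trans ?_
        rw [totalDegree_C, zero_add]
        refine (totalDegree_pow _ _).trans ?_
        exact Nat.mul_le_mul (Nat.lt_succ_iff.1 (Finset.mem_range.1 hi)) (hXHd n)
      refine (totalDegree_sub _ _).trans (max_le ?_ (h2.trans (by omega)))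
      refine (totalDegree_pow _ _).trans ?_
      omega)
    (by
      filter_upwards [hXHv] with n hn
      rw [map_sub, map_pow, ← haev n, hvF]
      have h2 : va (q n) (x n) (Polynomial.aeval (XH n) (f n)) = (((f n).eval (X n) : ℤ) : ℚ) := by
        rw [Polynomial.aeval_def, Polynomial.eval₂_eq_sum_range, map_sum,
          Polynomial.eval_eq_sum_range]
        push_cast
        refine Finset.sum_congr rfl fun i _ => ?_
        rw [map_mul, map_pow, hn]
        congr 1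
        simp
      rw [h2, ← hX n]
      push_cast
      ring)
  obtain ⟨n, hn⟩ := hR0.exists
  rw [← haev n, sub_eq_zero] at hn
  exact hyp_const θ (f n) (by rw [hfd n]; omega) (hsep n) hF hD htop _ hn

end

section
variable {σ : Type} [Fintype σ] [DecidableEq σ]

/-- **Coefficients are large.** -/
theorem ord_main (S : Finset ℕ) (hS : ∀ p ∈ S, p.Prime) {θ : σ → ℝ}
    (halg : ∀ s, IsAlgebraic ℚ (θ s))
    (hind : LinearIndependent ℚ (fun o : Option σ => (o.elim 1 (fun s => θ s) : ℝ)))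
    {F : MvPolynomial (Option σ) ℤ} {D : ℕ} (hF : F.totalDegree ≤ D) (hD : 0 < D)
    (htop : topv D F θ ≠ 0) {d : ℕ} (hd : 3 ≤ d) (hpar : d ∣ 2 * D) (E : ℕ) :
    ∃ (η : ℝ) (N : ℕ), 0 < η ∧ ∀ q ≥ N, ∀ x, Near S θ η q x → ∀ f : Polynomial ℤ,
      f.natDegree = d → (f.map (Int.castRingHom ℚ)).Separable →
      ∀ e h : ℤ, |e| ≤ E → f.leadingCoeff = e * h ^ d →
      ∀ X : ℤ, (eval (px q x) F) ^ 2 = f.eval X → ∃ i, (q : ℝ) ^ η < |(f.coeff i : ℝ)| := by
  classical
  obtain ⟨m, rfl⟩ : ∃ m, d = m + 2 := ⟨d - 2, by omega⟩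
  obtain ⟨k0, hk0⟩ := hpar
  obtain ⟨η, N, A, hη, h⟩ := finite_rep' S θ (β := Unit) (Δ := Polynomial ℤ × ℤ × ℤ × ℤ)
    (fun η q x t => t.1.natDegree = m + 2 ∧ (t.1.map (Int.castRingHom ℚ)).Separable ∧ |t.2.1| ≤ E ∧
      t.1.leadingCoeff = t.2.1 * t.2.2.1 ^ (m + 2) ∧ (eval (px q x) F) ^ 2 = t.1.eval t.2.2.2 ∧
      ∀ i, |(t.1.coeff i : ℝ)| ≤ (q : ℝ) ^ η) (fun _ _ _ _ => False) (by
    intro q x t H ht
    exfalso
    refine ord_seq S hS halg hind H (tendsto_logx H) hF hD htop (by omega) hk0.symm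
      (fun n => (t n).1)
      (fun n => (ht n).1) (fun n => (ht n).2.1) ?_ (fun n => (t n).2.1) (fun n => (t n).2.2.1) E
      (fun n => (ht n).2.2.1) (fun n => (ht n).2.2.2.1) (fun n => (t n).2.2.2)
      (fun n => (ht n).2.2.2.2.1)
    intro i ε hε
    exact small_of H.big (fun n => |((t n).1.coeff i : ℝ)|) (fun n => (ht n).2.2.2.2.2 i) ε hε)
  refine ⟨η, N, hη, fun q hq x hx f hfd hsep e h' he hlc X hX => ?_⟩
  by_contra hcon
  push Not at hcon
  obtain ⟨_, _, h1⟩ := h q hq x hx (f, e, h', X) ⟨hfd, hsep, he, hlc, hX, hcon⟩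
  exact h1

end

end Pool.Agent.Q4.Hyp
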