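import Mathlib
import Pool.Agent.Q4.Hyp.Ord

set_option autoImplicit false
set_option linter.unusedSectionVars false

/-!
# Weierstrass curves with integral points of polynomial ordinate near a ray
-/

namespace Pool.Agent.Q4.Hyp

open Filter Topology Pool.Agent.TH932.Abs Pool.Agent.TH932.Germs Pool.Agent.TH932.Chi
open Pool.Agent.TH796.AL Pool.Agent.Q4.Blk Pool.Agent.Q4.Gcd Pool.Agent.Q4.Cov Module MvPolynomial
open Pool.Agent.Q4.Tube Pool.Agent.Q4.Hall

/-- the size of the abscissa -/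
lemma cubic_size {A B X Y K : ℝ} (h : Y ^ 2 = X ^ 3 + A * X + B) (hA : |A| ≤ K) (hB : |B| ≤ K)
    (hX : 1 ≤ |X|) : |X| ≤ 6 * K ∨ |X| ^ 3 ≤ 2 * Y ^ 2 := by
  have hK : 0 ≤ K := (abs_nonneg _).trans hA
  rcases root_size (d := 3) (by norm_num)
    (fun i => if i = 0 then B else if i = 1 then A else if i = 3 then 1 else 0) (by simp)
    (K := K) (x := X) (V := Y ^ 2) hK (by
      intro i hi
      interval_cases i
      · simpa using hB
      · simpa using hA
      · simpa using hK) hX (by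
      rw [h]
      simp [Finset.sum_range_succ]
      ring) with h1 | h1
  · left
    refine h1.trans (le_of_eq ?_)
    push_cast
    ring
  · right
    rwa [abs_of_nonneg (sq_nonneg Y)] at h1

section
variable {σ : Type} [Fintype σ] [DecidableEq σ]
variable (S : Finset ℕ) (hS : ∀ p ∈ S, p.Prime) {θ : σ → ℝ} (halg : ∀ s, IsAlgebraic ℚ (θ s))
  (hind : LinearIndependent ℚ (fun o : Option σ => (o.elim 1 (fun s => θ s) : ℝ)))
  {q : ℕ → ℕ} {x : ℕ → σ → ℤ} (H : Tub S θ q x)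

include hS halg hind H

/-- **Coefficients are large**, along sequences. -/
theorem ord3_seq {F : MvPolynomial (Option σ) ℤ} {j : ℕ} (hF : F.totalDegree ≤ 3 * j)
    (hj : 0 < j) (htop : topv (3 * j) F θ ≠ 0) (X A B : ℕ → ℤ)
    (heq : ∀ n, (eval (px (q n) (x n)) F) ^ 2 = (X n) ^ 3 + A n * X n + B n)
    (hdisc : ∀ n, 4 * (A n) ^ 3 + 27 * (B n) ^ 2 ≠ 0)
    {e : ℝ} (he0 : 0 ≤ e) (he : e < 1) (hA : Sm q e (fun n => (A n : ℂ)))
    (hB : Sm q e (fun n => (B n : ℂ))) : False := by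
  classical
  have hjr : (1 : ℝ) ≤ j := by exact_mod_cast hj
  have hsF := sm_val S H F hF
  -- the size of the abscissa
  have hsX : Sm q (((2 * j : ℕ) : ℝ)) (fun n => ((X n : ℤ) : ℂ)) := by
    intro ε hε
    filter_upwards [hA (ε / 2) (half_pos hε), hB (ε / 2) (half_pos hε), hsF ε hε,
      big_ev H.big 6 (half_pos hε), big_ev H.big 2 hε] with n h1 h2 h3 h4 h5
    have hqp := qpos H.big n
    have hq1 := qone H.big n
    rw [Complex.norm_intCast] at h1 h2 h3 ⊢
    by_cases hx1 : |((X n : ℤ) : ℝ)| < 1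
    · exact hx1.le.trans (Real.one_le_rpow hq1 (by positivity))
    rw [not_lt] at hx1
    have h6 : (((eval (px (q n) (x n)) F : ℤ) : ℝ)) ^ 2 = ((X n : ℤ) : ℝ) ^ 3
        + ((A n : ℤ) : ℝ) * ((X n : ℤ) : ℝ) + ((B n : ℤ) : ℝ) := by exact_mod_cast heq n
    rcases cubic_size h6 h1 h2 hx1 with h7 | h7
    · refine h7.trans ?_
      calc 6 * (q n : ℝ) ^ (e + ε / 2) ≤ (q n : ℝ) ^ (ε / 2) * (q n : ℝ) ^ (e + ε / 2) :=
            mul_le_mul_of_nonneg_right h4 (by positivity)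
        _ = (q n : ℝ) ^ (e + ε) := by rw [← Real.rpow_add hqp]; congr 1; ring
        _ ≤ (q n : ℝ) ^ (((2 * j : ℕ) : ℝ) + ε) := by
            apply Real.rpow_le_rpow_of_exponent_le hq1
            push_cast
            linarith
    · have h8 : |((X n : ℤ) : ℝ)| ^ 3 ≤ ((q n : ℝ) ^ (((2 * j : ℕ) : ℝ) + ε)) ^ 3 := by
        refine h7.trans ?_
        have h9 : ((eval (px (q n) (x n)) F : ℤ) : ℝ) ^ 2
            ≤ ((q n : ℝ) ^ (((3 * j : ℕ) : ℝ) + ε)) ^ 2 := by
          rw [← sq_abs]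
          exact pow_le_pow_left₀ (abs_nonneg _) h3 2
        have h10 : 2 * ((eval (px (q n) (x n)) F : ℤ) : ℝ) ^ 2
            ≤ (q n : ℝ) ^ ε * ((q n : ℝ) ^ (((3 * j : ℕ) : ℝ) + ε)) ^ 2 :=
          mul_le_mul h5 h9 (by positivity) (by positivity)
        refine h10.trans (le_of_eq ?_)
        rw [← Real.rpow_natCast, ← Real.rpow_natCast, ← Real.rpow_mul hqp.le,
          ← Real.rpow_mul hqp.le, ← Real.rpow_add hqp]
        congr 1
        push_cast
        ring
      exact (pow_le_pow_iff_left₀ (abs_nonneg _) (by positivity) (by norm_num)).1 h8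
  have hrest : Sm q (((2 * j : ℕ) : ℝ) + e) (fun n => (X n : ℂ) ^ 3
      - ((eval (px (q n) (x n)) F : ℤ) : ℂ) ^ 2) := by
    have h1 := Sm.add H.big (Sm.mul H.big hA hsX) (hB.mono H.big (show e ≤ e + ((2 * j : ℕ) : ℝ) by
      have : (0 : ℝ) ≤ ((2 * j : ℕ) : ℝ) := Nat.cast_nonneg _
      linarith))
    rw [add_comm e] at h1
    refine h1.neg.congr (Eventually.of_forall fun n => ?_)
    have h2 : (((eval (px (q n) (x n)) F : ℤ) : ℂ)) ^ 2 = ((X n : ℤ) : ℂ) ^ 3
        + ((A n : ℤ) : ℂ) * ((X n : ℤ) : ℂ) + ((B n : ℤ) : ℂ) := by exact_mod_cast heq n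
    rw [h2]
    ring
  -- the abscissa
  obtain ⟨G, hGd, hG⟩ := near_pow S hS halg hind H hF htop (a := 2) (b := 3) (E := 2 * j)
    (by norm_num) (by ring) X (δ := 2 * j - e) (by linarith) (by
      refine (hrest.mono H.big ?_)
      push_cast
      norm_num
      linarith)
  set FQ : MvPolynomial (Option σ) ℚ := map (Int.castRingHom ℚ) F with hFQ
  set Ψ : MvPolynomial (Option σ) ℚ →+* Polynomial (MvPolynomial σ ℝ) :=
    (Phi θ : MvPolynomial (Option σ) ℝ →+* Polynomial (MvPolynomial σ ℝ)).comp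
      (map (algebraMap ℚ ℝ)) with hΨ
  have hΨi : Function.Injective Ψ := by
    rw [injective_iff_map_eq_zero]
    intro R hR
    have h2 : tw θ (map (algebraMap ℚ ℝ) R) = 0 :=
      (map_eq_zero_iff _ (optionEquivLeft ℝ σ).injective).1 hR
    by_contra hne
    refine tw_ne θ (fun h => hne ?_) h2
    exact map_injective _ (algebraMap ℚ ℝ).injective (h.trans (map_zero _).symm)
  have hΨZ : ∀ R : MvPolynomial (Option σ) ℤ, Ψ (map (Int.castRingHom ℚ) R)
      = Phi θ (map (Int.castRingHom ℝ) R) := by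
    intro R
    rw [hΨ, RingHom.comp_apply, MvPolynomial.map_map]
    rfl
  have hFd : (Ψ FQ).natDegree = 3 * j := by
    rw [hFQ, hΨZ]
    exact Phi_eq θ hF htop
  have hF0 : Ψ FQ ≠ 0 := by
    intro h0
    rw [h0, Polynomial.natDegree_zero] at hFd
    omega
  have hQd : ((Ψ (G ^ 3 - FQ ^ 2)).natDegree : ℝ) ≤ ((2 * j : ℕ) : ℝ) + e :=
    deg_le_of_sm S hS halg hind H (G ^ 3 - FQ ^ 2) (by positivity) (hrest.congr (by
      filter_upwards [hG] with n hn
      rw [map_sub, map_pow, map_pow, ← hn, hFQ, map_px]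
      push_cast
      rfl))
  have hQd' : (Ψ (G ^ 3 - FQ ^ 2)).natDegree < 6 * j := by
    have h1 : ((Ψ (G ^ 3 - FQ ^ 2)).natDegree : ℝ) < ((6 * j : ℕ) : ℝ) := by
      refine lt_of_le_of_lt hQd ?_
      push_cast
      linarith
    exact_mod_cast h1
  have hGn : (Ψ G).natDegree = 2 * j := by
    have h1 : (Ψ G) ^ 3 = (Ψ FQ) ^ 2 + Ψ (G ^ 3 - FQ ^ 2) := by
      rw [map_sub, map_pow, map_pow]
      ring
    have h2 : ((Ψ FQ) ^ 2).natDegree = 6 * j := by
      rw [Polynomial.natDegree_pow, hFd]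
      ring
    have h3 := congrArg Polynomial.natDegree h1
    rw [Polynomial.natDegree_add_eq_left_of_natDegree_lt (by rw [h2]; exact hQd'), h2,
      Polynomial.natDegree_pow] at h3
    omega
  -- integral multiples
  obtain ⟨m, Gm, hm0, hGm⟩ := exists_int G
  obtain ⟨m1, R1, hm10, hR1⟩ := exists_int (FQ ^ 2 - G ^ 3)
  have hGmd : Gm.totalDegree ≤ 2 * j := by
    have h1 : (map (Int.castRingHom ℚ) Gm).totalDegree = Gm.totalDegree := by
      unfold totalDegree
      rw [support_map_of_injective _ Int.cast_injective]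
    rw [← h1, hGm]
    refine (totalDegree_mul _ _).trans ?_
    rw [totalDegree_C, zero_add]
    exact hGd
  have hGmt : topv (2 * j) Gm θ ≠ 0 := by
    intro h0
    have h1 := Phi_coeff θ Gm hGmd
    rw [h0, map_zero, ← hΨZ, hGm, map_mul] at h1
    have h2 : Ψ (C (m : ℚ)) = Polynomial.C (C (m : ℝ)) := by
      rw [hΨ, RingHom.comp_apply, map_C]
      change Phi θ (C _) = _
      have h3 := (Phi θ).commutes (algebraMap ℚ ℝ (m : ℚ))
      rw [MvPolynomial.algebraMap_eq] at h3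
      rw [h3]
      simp
    rw [h2, Polynomial.coeff_C_mul] at h1
    rcases mul_eq_zero.1 h1 with h3 | h3
    · have h4 : (m : ℝ) = 0 := C_injective σ ℝ (h3.trans (map_zero C).symm)
      exact hm0 (by exact_mod_cast h4)
    · rw [← hGn] at h3
      have h4 : Ψ G = 0 := Polynomial.leadingCoeff_eq_zero.1 h3
      rw [h4, Polynomial.natDegree_zero] at hGn
      omega
  have hvG : ∀ᶠ n in (UU : Filter ℕ), eval (px (q n) (x n)) Gm = m * X n := by
    filter_upwards [hG] with n hn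
    have h1 : va (q n) (x n) (map (Int.castRingHom ℚ) Gm) = m * (X n : ℚ) := by
      rw [hGm, map_mul, ← hn]
      congr 1
      unfold va
      rw [aeval_C]
      rfl
    rw [map_px] at h1
    exact_mod_cast h1
  have hvR : ∀ᶠ n in (UU : Filter ℕ), eval (px (q n) (x n)) R1 = m1 * (A n * X n + B n) := by
    filter_upwards [hG] with n hn
    have h1 : va (q n) (x n) (map (Int.castRingHom ℚ) R1)
        = m1 * (((eval (px (q n) (x n)) F : ℤ) : ℚ) ^ 2 - (X n : ℚ) ^ 3) := by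
      rw [hR1, map_mul, map_sub, map_pow, map_pow, ← hn, hFQ, map_px]
      congr 1
      unfold va
      rw [aeval_C]
      rfl
    rw [map_px] at h1
    have h2 : eval (px (q n) (x n)) R1 = m1 * ((eval (px (q n) (x n)) F) ^ 2 - (X n) ^ 3) := by
      exact_mod_cast h1
    rw [h2, heq n]
    ring
  set Num : MvPolynomial (Option σ) ℤ := C m * R1 with hNum
  set Den : MvPolynomial (Option σ) ℤ := C m1 * Gm with hDen
  have hDend : Den.totalDegree ≤ 2 * j := by
    refine (totalDegree_mul _ _).trans ?_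
    rw [totalDegree_C, zero_add]
    exact hGmd
  have hDent : topv (2 * j) Den θ ≠ 0 := by
    have h1 : topv (2 * j) Den θ = (m1 : ℝ) * topv (2 * j) Gm θ := by
      unfold topv
      rw [hDen, homogeneousComponent_C_mul, map_mul]
      congr 1
      simp
    rw [h1]
    exact mul_ne_zero (by exact_mod_cast hm10) hGmt
  have hDen0 : Den ≠ 0 := topv_ne hDent
  have hlow : ∀ ε : ℝ, 0 < ε → ∀ᶠ n in (UU : Filter ℕ),
      (q n : ℝ) ^ (((2 * j : ℕ) : ℝ) - ε) ≤ |((eval (px (q n) (x n)) Den : ℤ) : ℝ)| := fun ε hε =>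
    low_val S hS halg hind H hDend hDent hε
  have hDn0 : ∀ᶠ n in (UU : Filter ℕ), eval (px (q n) (x n)) Den ≠ 0 := by
    filter_upwards [hlow 1 one_pos] with n hn h0
    rw [h0, Int.cast_zero, abs_zero] at hn
    have := qpos H.big n
    have h2 : 0 < (q n : ℝ) ^ (((2 * j : ℕ) : ℝ) - 1) := by positivity
    linarith
  have hinv : Sm q (-((2 * j : ℕ) : ℝ)) (fun n => 1 / ((eval (px (q n) (x n)) Den : ℤ) : ℂ)) := by
    intro ε hε
    filter_upwards [hlow ε hε] with n hn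
    have hqp := qpos H.big n
    rw [norm_div, norm_one, Complex.norm_intCast]
    have h1 : (0 : ℝ) < (q n : ℝ) ^ (((2 * j : ℕ) : ℝ) - ε) := by positivity
    have h2 : -((2 * j : ℕ) : ℝ) + ε = -(((2 * j : ℕ) : ℝ) - ε) := by ring
    rw [h2, Real.rpow_neg hqp.le, one_div]
    exact inv_anti₀ h1 hn
  set ρ : ℕ → ℂ := fun n => ((eval (px (q n) (x n)) Num : ℤ) : ℂ)
    / ((eval (px (q n) (x n)) Den : ℤ) : ℂ) with hρ
  have hroot : ∀ᶠ n in (UU : Filter ℕ), ((lin Num Den).map (evx (q n) (x n) ℂ)).eval (ρ n) = 0 := by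
    filter_upwards [hDn0] with n hn
    exact lin_root (px (q n) (x n)) hn (q n) (x n) rfl
  obtain ⟨cf, hcf⟩ := Pool.Agent.Q4.Tube.root_exp H halg (P := lin Num Den) (D := Num.totalDegree)
    (d := 2 * j) (by rw [lin_lc hDen0]; exact hDent)
    (fun i => lin_hdeg hDen0 (Nat.le_add_right _ _) hDend i) (lin_sep hDent) ρ hroot 0
  have hclose : Sm q (-1) (fun n => (A n : ℂ) - ρ n) := by
    have h1 := Sm.mul H.big (Sm.mul H.big (Sm.const H.big (-((m : ℂ) * m1))) hB) hinv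
    have h2 := h1.mono H.big (e' := -1) (by
      push_cast
      linarith)
    refine h2.congr ?_
    filter_upwards [hDn0, hvG, hvR] with n h3 h4 h5
    have h6 : eval (px (q n) (x n)) Den = m1 * (m * X n) := by
      rw [hDen, map_mul, eval_C, h4]
    have h7 : eval (px (q n) (x n)) Num = m * (m1 * (A n * X n + B n)) := by
      rw [hNum, map_mul, eval_C, h5]
    have hX0 : X n ≠ 0 := by
      rintro h0
      rw [h6, h0] at h3
      simp at h3
    have hXc : (X n : ℂ) ≠ 0 := by exact_mod_cast hX0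
    have hmc : (m : ℂ) ≠ 0 := by exact_mod_cast hm0
    have hm1c : (m1 : ℂ) ≠ 0 := by exact_mod_cast hm10
    rw [hρ]
    simp only []
    rw [h6, h7]
    push_cast
    field_simp
    ring
  obtain ⟨A', -, hA'⟩ := engineT S hS halg hind H (0 + Num.totalDegree) (fun _ => 1)
    (fun _ => one_ne_zero) (fun _ => by simp) 0 0 (fun n => by simp) A cf 1 one_pos (by
      refine (Sm.add H.big hclose hcf).congr (Eventually.of_forall fun n => ?_)
      simp only [pow_zero, Nat.cast_one, div_one, one_mul]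
      ring)
  have hA1 : ∀ᶠ n in (UU : Filter ℕ), (A n : ℚ) = va (q n) (x n) A' := by
    filter_upwards [hA'] with n hn
    rw [hn]
    simp
  set B' : MvPolynomial (Option σ) ℚ := FQ ^ 2 - G ^ 3 - A' * G with hB'
  have hB1 : ∀ᶠ n in (UU : Filter ℕ), (B n : ℚ) = va (q n) (x n) B' := by
    filter_upwards [hA1, hG] with n h1 h2
    have h3 : (((eval (px (q n) (x n)) F : ℤ) : ℚ)) ^ 2 = (X n : ℚ) ^ 3 + A n * (X n : ℚ) + B n := by
      exact_mod_cast heq n
    have h4 : va (q n) (x n) FQ = ((eval (px (q n) (x n)) F : ℤ) : ℚ) := by rw [hFQ, map_px]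
    rw [hB', map_sub, map_sub, map_mul, map_pow, map_pow, ← h1, ← h2, h4, h3]
    ring
  have hda := deg_le_of_sm S hS halg hind H A' he0 (hA.congr (by
    filter_upwards [hA1] with n hn
    rw [← hn]
    push_cast
    rfl))
  have hdb := deg_le_of_sm S hS halg hind H B' he0 (hB.congr (by
    filter_upwards [hB1] with n hn
    rw [← hn]
    push_cast
    rfl))
  have hda0 : (Phi θ (map (algebraMap ℚ ℝ) A')).natDegree = 0 := by
    have h1 : ((Phi θ (map (algebraMap ℚ ℝ) A')).natDegree : ℝ) < 1 := lt_of_le_of_lt hda he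
    have h2 : (Phi θ (map (algebraMap ℚ ℝ) A')).natDegree < 1 := by exact_mod_cast h1
    omega
  have hdb0 : (Phi θ (map (algebraMap ℚ ℝ) B')).natDegree = 0 := by
    have h1 : ((Phi θ (map (algebraMap ℚ ℝ) B')).natDegree : ℝ) < 1 := lt_of_le_of_lt hdb he
    have h2 : (Phi θ (map (algebraMap ℚ ℝ) B')).natDegree < 1 := by exact_mod_cast h1
    omega
  refine no_point (Ψ G) (Ψ FQ) (Ψ A') (Ψ B') (2 * j) hGn (by omega) ?_ hda0 hdb0 ?_
  · have h1 := congrArg Ψ (show FQ ^ 2 = G ^ 3 + A' * G + B' by rw [hB']; ring)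
    rw [map_add, map_add, map_mul, map_pow, map_pow] at h1
    exact h1
  · have h1 : 4 * (Ψ A') ^ 3 + 27 * (Ψ B') ^ 2 = Ψ (4 * A' ^ 3 + 27 * B' ^ 2) := by
      simp only [map_add, map_mul, map_pow, map_ofNat]
    rw [h1]
    intro h2
    have h3 : 4 * A' ^ 3 + 27 * B' ^ 2 = 0 := hΨi (h2.trans (map_zero Ψ).symm)
    obtain ⟨n, h4, h5⟩ := (hA1.and hB1).exists
    have h6 := congrArg (va (q n) (x n)) h3
    simp only [map_add, map_mul, map_pow, map_ofNat, map_zero] at h6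
    rw [← h4, ← h5] at h6
    exact hdisc n (by exact_mod_cast h6)

end

section
variable {σ : Type} [Fintype σ] [DecidableEq σ]

/-- **Coefficients are large**, for all points near a ray. -/
theorem ord3_main (S : Finset ℕ) (hS : ∀ p ∈ S, p.Prime) {θ : σ → ℝ}
    (halg : ∀ s, IsAlgebraic ℚ (θ s))
    (hind : LinearIndependent ℚ (fun o : Option σ => (o.elim 1 (fun s => θ s) : ℝ)))
    {F : MvPolynomial (Option σ) ℤ} {j : ℕ} (hF : F.totalDegree ≤ 3 * j)
    (hj : 0 < j) (htop : topv (3 * j) F θ ≠ 0) {e : ℝ} (he0 : 0 ≤ e) (he : e < 1) :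
    ∃ (η : ℝ) (N : ℕ), 0 < η ∧ ∀ q ≥ N, ∀ x, Near S θ η q x → ∀ X A B : ℤ,
      4 * A ^ 3 + 27 * B ^ 2 ≠ 0 → (eval (px q x) F) ^ 2 = X ^ 3 + A * X + B →
      (q : ℝ) ^ e < max |(A : ℝ)| |(B : ℝ)| := by
  classical
  obtain ⟨η, N, hη, h⟩ := none_left S θ (Δ := ℤ × ℤ × ℤ) (fun q x d =>
      4 * d.2.1 ^ 3 + 27 * d.2.2 ^ 2 ≠ 0 ∧
      (eval (px q x) F) ^ 2 = d.1 ^ 3 + d.2.1 * d.1 + d.2.2 ∧
      max |(d.2.1 : ℝ)| |(d.2.2 : ℝ)| ≤ (q : ℝ) ^ e) (by
    intro q x d H hd
    refine ord3_seq S hS halg hind H hF hj htop (fun n => (d n).1) (fun n => (d n).2.1)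
      (fun n => (d n).2.2) (fun n => (hd n).2.1) (fun n => (hd n).1) he0 he ?_ ?_
    · intro ε hε
      refine Eventually.of_forall fun n => ?_
      rw [Complex.norm_intCast]
      exact ((le_max_left _ _).trans (hd n).2.2).trans
        (Real.rpow_le_rpow_of_exponent_le (qone H.big n) (by linarith))
    · intro ε hε
      refine Eventually.of_forall fun n => ?_
      rw [Complex.norm_intCast]
      exact ((le_max_right _ _).trans (hd n).2.2).trans
        (Real.rpow_le_rpow_of_exponent_le (qone H.big n) (by linarith)))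
  refine ⟨η, N, hη, fun q hq x hx X A B h1 h2 => ?_⟩
  by_contra hcon
  exact h q hq x hx (X, A, B) ⟨h1, h2, not_lt.1 hcon⟩

/-- points whose coefficients are large compared with `q` -/
theorem size3_main (S : Finset ℕ) {θ : σ → ℝ} {F : MvPolynomial (Option σ) ℤ} {D : ℕ}
    (hF : F.totalDegree ≤ D) (hD : 0 < D) {e : ℝ} (he0 : 0 < e) (he : e ≤ 1) {ε : ℝ} (hε : 0 < ε) :
    ∃ (η : ℝ) (N : ℕ), 0 < η ∧ ∀ q ≥ N, ∀ x, Near S θ η q x → ∀ X A B : ℤ,
      (eval (px q x) F) ^ 2 = X ^ 3 + A * X + B →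
      (q : ℝ) ^ e < max |(A : ℝ)| |(B : ℝ)| →
      max |(X : ℝ)| |((eval (px q x) F : ℤ) : ℝ)| < (max |(A : ℝ)| |(B : ℝ)|) ^ (D / e + ε) := by
  classical
  obtain ⟨η, N, hη, h⟩ := none_left S θ (Δ := ℤ × ℤ × ℤ) (fun q x d =>
      (eval (px q x) F) ^ 2 = d.1 ^ 3 + d.2.1 * d.1 + d.2.2 ∧
      (q : ℝ) ^ e < max |(d.2.1 : ℝ)| |(d.2.2 : ℝ)| ∧
      (max |(d.2.1 : ℝ)| |(d.2.2 : ℝ)|) ^ (D / e + ε)
        ≤ max |(d.1 : ℝ)| |((eval (px q x) F : ℤ) : ℝ)|) (by
    intro q x d H hd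
    have hDr : (1 : ℝ) ≤ D := by exact_mod_cast hD
    obtain ⟨n, h1, h2⟩ := ((sm_val S H F hF (ε * e / 2) (by positivity)).and
      (big_ev H.big 7 (show 0 < e * (ε / 2) by positivity))).exists
    rw [Complex.norm_intCast] at h1
    obtain ⟨h3, h4, h5⟩ := hd n
    set M : ℝ := max |((d n).2.1 : ℝ)| |((d n).2.2 : ℝ)| with hM
    set Y : ℝ := ((eval (px (q n) (x n)) F : ℤ) : ℝ) with hY
    have hq1 := qone H.big n
    have hqp := qpos H.big n
    have hM1 : 1 ≤ M := (Real.one_le_rpow hq1 he0.le).trans h4.le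
    have hM0 : 0 < M := by linarith
    have hDe : 1 ≤ D / e := by
      rw [le_div_iff₀ he0]
      linarith
    have hqM : (q n : ℝ) ^ ((D : ℝ) + ε * e / 2) ≤ M ^ (D / e + ε / 2) := by
      have h6 : (q n : ℝ) ^ ((D : ℝ) + ε * e / 2) = ((q n : ℝ) ^ e) ^ (D / e + ε / 2) := by
        rw [← Real.rpow_mul hqp.le]
        congr 1
        field_simp
      rw [h6]
      exact Real.rpow_le_rpow (by positivity) h4.le (by linarith)
    set Z : ℝ := M ^ (D / e + ε / 2) with hZ
    have hZ1 : 1 ≤ Z := Real.one_le_rpow hM1 (by linarith)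
    have hMZ : M ≤ Z := by
      conv_lhs => rw [← Real.rpow_one M]
      exact Real.rpow_le_rpow_of_exponent_le hM1 (by linarith)
    have hYZ : |Y| ≤ Z := h1.trans hqM
    have hXZ : |((d n).1 : ℝ)| ≤ 6 * Z := by
      by_cases hx : |((d n).1 : ℝ)| < 1
      · linarith
      rw [not_lt] at hx
      have h6 : Y ^ 2 = ((d n).1 : ℝ) ^ 3 + ((d n).2.1 : ℝ) * ((d n).1 : ℝ) + ((d n).2.2 : ℝ) := by
        rw [hY]
        exact_mod_cast h3
      rcases cubic_size h6 (le_max_left _ _) (le_max_right _ _) hx with h7 | h7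
      · exact h7.trans (mul_le_mul_of_nonneg_left hMZ (by norm_num))
      · by_contra hcon
        rw [not_le] at hcon
        have h8 : (6 * Z) ^ 3 ≤ |((d n).1 : ℝ)| ^ 3 := pow_le_pow_left₀ (by positivity) hcon.le 3
        have h9 : Y ^ 2 ≤ Z ^ 2 := by
          rw [← sq_abs]
          exact pow_le_pow_left₀ (abs_nonneg _) hYZ 2
        have h10 : Z ^ 2 ≤ Z ^ 3 := pow_le_pow_right₀ hZ1 (by norm_num)
        have h11 : 0 < Z ^ 3 := by positivity
        nlinarith
    have h8 : max |((d n).1 : ℝ)| |Y| ≤ 6 * Z := max_le hXZ (hYZ.trans (by linarith))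
    have h10 : (7 : ℝ) ≤ M ^ (ε / 2) := by
      refine h2.trans ?_
      rw [Real.rpow_mul hqp.le]
      exact Real.rpow_le_rpow (by positivity) h4.le (by positivity)
    have h11 : M ^ (D / e + ε) = M ^ (ε / 2) * Z := by
      rw [hZ, ← Real.rpow_add hM0]
      congr 1
      ring
    rw [h11] at h5
    have h13 := h5.trans h8
    nlinarith)
  refine ⟨η, N, hη, fun q hq x hx X A B h1 h2 => ?_⟩
  by_contra hcon
  exact h q hq x hx (X, A, B) ⟨h1, h2, not_lt.1 hcon⟩

end

end Pool.Agent.Q4.Hyp
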