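import Mathlib
import Pool.Agent.Q4.Hall.Main
import Pool.Agent.Q4.Hall.ProdSeq

set_option autoImplicit false
set_option linter.unusedSectionVars false

/-!
# Powers of roots, and regular functions on the cuspidal cubic
-/

namespace Pool.Agent.Q4.Hyp

open Filter Topology Pool.Agent.TH932.Abs Pool.Agent.TH932.Germs Pool.Agent.TH932.Chi
open Pool.Agent.TH796.AL Pool.Agent.Q4.Blk Pool.Agent.Q4.Gcd Pool.Agent.Q4.Cov Module MvPolynomial
open Pool.Agent.Q4.Tube Pool.Agent.Q4.Hall

lemma sm_sqrt {q : ℕ → ℕ} {e : ℝ} {f : ℕ → ℂ} (hf : Sm q (2 * e) (fun n => f n ^ 2)) :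
    Sm q e f := by
  intro ε hε
  filter_upwards [hf (2 * ε) (by positivity)] with n hn
  rw [norm_pow] at hn
  have h1 : (q n : ℝ) ^ (2 * e + 2 * ε) = ((q n : ℝ) ^ (e + ε)) ^ 2 := by
    rw [← Real.rpow_natCast, ← Real.rpow_mul (Nat.cast_nonneg _)]
    congr 1
    push_cast
    ring
  rw [h1] at hn
  exact (pow_le_pow_iff_left₀ (norm_nonneg _) (Real.rpow_nonneg (Nat.cast_nonneg _) _)
    two_ne_zero).1 hn

section
variable {σ : Type} [Fintype σ] [DecidableEq σ]
variable {S : Finset ℕ} {θ : σ → ℝ} {q : ℕ → ℕ} {x : ℕ → σ → ℤ} (H : Tub S θ q x)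
variable {P : Polynomial (MvPolynomial (Option σ) ℤ)} {D d : ℕ}

include H

/-- expansion of the powers of the roots -/
theorem root_pow_exp (halg : ∀ s, IsAlgebraic ℚ (θ s)) (hlead : topv d P.leadingCoeff θ ≠ 0)
    (hdeg : ∀ i, (P.coeff i).totalDegree ≤ (P.natDegree - i) * D + d)
    (hsep : (pnf P D d θ).Separable)
    (ρ : ℕ → ℂ) (hρ : ∀ᶠ n in (UU : Filter ℕ), (P.map (evx (q n) (x n) ℂ)).eval (ρ n) = 0) (k : ℕ) :
    ∃ c : Ex (Option σ) (k * D) → QB, Sm q (-1) (fun n => ρ n ^ k
      - ∑ a, phi (c a) * ((zv θ (q n) (x n) a.1 : ℝ) : ℂ)) := by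
  have hqn0 : ∀ n, q n ≠ 0 := px_ne H
  set θK : σ → QB := fun s => ⟨(θ s : ℂ), mem_algebraicClosure_iff.2 (alg_of_real.2 (halg s))⟩ with hθK
  have hθ : ∀ s, phi (θK s) = (θ s : ℂ) := fun s => rfl
  have hlead' : topv d P.leadingCoeff θK ≠ 0 := by
    intro h
    have h1 := topv_map phi d P.leadingCoeff θK
    rw [h, map_zero] at h1
    have h2 := topv_map (algebraMap ℝ ℂ) d P.leadingCoeff θ
    have h3 : (fun s => phi (θK s)) = fun s => algebraMap ℝ ℂ (θ s) := rfl
    rw [h3, ← h2] at h1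
    exact hlead ((map_eq_zero _).1 h1.symm)
  obtain ⟨M, hM⟩ := root_bnd (P := P) (D := D) (d := d) H θK hlead' hdeg
  have hcc := ptl_cc hdeg θK
  have hp0 : (ptl P D d θK).map constantCoeff ≠ 0 := by
    rw [hcc]
    intro h
    have h1 := pnf_coeff_top (P := P) (D := D) (d := d) θK
    rw [h, Polynomial.coeff_zero] at h1
    exact hlead' h1.symm
  have hsep' : ∀ η : QB, ((ptl P D d θK).map constantCoeff).eval η = 0 →
      ((ptl P D d θK).map constantCoeff).derivative.eval η ≠ 0 := by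
    rw [hcc]
    intro η h1 h2
    have h3 : (pnf P D d (fun s => (θ s : ℂ))).Separable := by
      have h4 := hsep.map (f := algebraMap ℝ ℂ)
      rw [pnf_map] at h4
      exact h4
    have h4 : (pnf P D d θK).map phi = pnf P D d (fun s => (θ s : ℂ)) := pnf_map phi θK
    rw [← h4] at h3
    obtain ⟨a, b, hab⟩ := h3
    have h5 := congrArg (Polynomial.eval (phi η)) hab
    rw [Polynomial.eval_add, Polynomial.eval_mul, Polynomial.eval_mul, Polynomial.derivative_map,
      Polynomial.eval_map_apply, Polynomial.eval_map_apply, h1, h2] at h5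
    simp at h5
  set Y : ℕ → ℂ := fun n => ρ n / (q n : ℂ) ^ D with hY
  have hroot : ∀ᶠ n in (UU : Filter ℕ), ((ptl P D d θK).map (evr phi (vs θ q x n))).eval (Y n) = 0 := by
    filter_upwards [hρ] with n h1
    have hqc : (q n : ℂ) ≠ 0 := by exact_mod_cast hqn0 n
    rw [← ptl_eval hθ hdeg (hqn0 n) (x n) (ρ n)] at h1
    exact (mul_eq_zero.1 h1).resolve_left (pow_ne_zero _ hqc)
  have hYb : ∀ᶠ n in (UU : Filter ℕ), ‖Y n‖ ≤ M := by
    filter_upwards [hM, hroot] with n h1 h2
    exact h1 _ h2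
  obtain ⟨E, hE⟩ := approxS H (ptl P D d θK) hp0 hsep' Y M hYb hroot (k * D)
  obtain ⟨c, hc⟩ := expand' phi H (E ^ k) (k * D)
  refine ⟨c, ?_⟩
  have hY0 : Sm q 0 Y := by
    refine (Sm.const H.big (M : ℂ)).le ?_
    filter_upwards [hYb] with n hn
    rw [Complex.norm_real, Real.norm_eq_abs]
    exact hn.trans (le_abs_self _)
  have hE0 : Sm q 0 (fun n => evr phi (vs θ q x n) E) := sm_any phi H E
  have hpow : Sm q (-(k * D + 1 : ℕ)) (fun n => Y n ^ k - evr phi (vs θ q x n) (E ^ k)) := by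
    have h1 : Sm q 0 (fun n => ∑ i ∈ Finset.range k, Y n ^ i
        * (evr phi (vs θ q x n) E) ^ (k - 1 - i)) := by
      refine Sm.sum H.big _ _ fun i _ => ?_
      have h2 := Sm.mul H.big (Sm.pow H.big hY0 i) (Sm.pow H.big hE0 (k - 1 - i))
      simpa using h2
    have h2 := Sm.mul H.big h1 hE
    rw [zero_add] at h2
    refine h2.congr (Eventually.of_forall fun n => ?_)
    rw [map_pow, geom_sum₂_mul]
  have h1 := Sm.mul H.big (Sm.qpow H.big (k * D)) hpow
  have e1 : ((k * D : ℕ) : ℝ) + -((k * D + 1 : ℕ) : ℝ) = -1 := by push_cast; ring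
  rw [e1] at h1
  refine (Sm.add H.big h1 hc).congr (Eventually.of_forall fun n => ?_)
  have hqc : (q n : ℂ) ≠ 0 := by exact_mod_cast hqn0 n
  have h2 : (q n : ℂ) ^ (k * D) * Y n ^ k = ρ n ^ k := by
    rw [hY]
    simp only []
    rw [div_pow, ← pow_mul, mul_comm k D]
    field_simp
  rw [mul_sub, h2]
  ring

end

/-! ### the restriction to the cuspidal cubic -/

/-- the restriction of the function `A(X) + B(X) Y` to the cuspidal cubic `(T², T³)` -/
noncomputable def cusp (A B : Polynomial ℤ) : Polynomial ℤ :=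
  Polynomial.expand ℤ 2 A + Polynomial.X ^ 3 * Polynomial.expand ℤ 2 B

/-- the functional -/
noncomputable def wf (x t : ℂ) (ψ : Polynomial ℤ) : ℂ :=
  ψ.sum fun k c => (c : ℂ) * (x ^ (k / 2) * t ^ (k % 2))

lemma wf_add (x t : ℂ) (ψ χ : Polynomial ℤ) : wf x t (ψ + χ) = wf x t ψ + wf x t χ := by
  unfold wf
  exact Polynomial.sum_add_index _ _ _ (fun i => by simp) (fun i a b => by push_cast; ring)

lemma wf_monomial (x t : ℂ) (k : ℕ) (c : ℤ) :
    wf x t (Polynomial.monomial k c) = c * (x ^ (k / 2) * t ^ (k % 2)) := by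
  unfold wf
  exact Polynomial.sum_monomial_index _ _ (by simp)

lemma wf_cusp (x t : ℂ) (A B : Polynomial ℤ) :
    wf x t (cusp A B) = Polynomial.aeval x A + Polynomial.aeval x B * (t * x) := by
  unfold cusp
  rw [wf_add]
  congr 1
  · induction A using Polynomial.induction_on' with
    | add p r hp hr => rw [map_add, wf_add, hp, hr, map_add]
    | monomial n a =>
      rw [Polynomial.expand_monomial, wf_monomial, Polynomial.aeval_monomial]
      simp
  · induction B using Polynomial.induction_on' with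
    | add p r hp hr => rw [map_add, mul_add, wf_add, hp, hr, map_add, add_mul]
    | monomial n a =>
      rw [Polynomial.expand_monomial, Polynomial.X_pow_mul_monomial, wf_monomial,
        Polynomial.aeval_monomial]
      have h1 : (n * 2 + 3) / 2 = n + 1 := by omega
      have h2 : (n * 2 + 3) % 2 = 1 := by omega
      rw [h1, h2]
      simp
      ring

lemma wf_range (x t : ℂ) (ψ : Polynomial ℤ) :
    wf x t ψ = ∑ k ∈ Finset.range (ψ.natDegree + 1), (ψ.coeff k : ℂ) * (x ^ (k / 2) * t ^ (k % 2)) := by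
  unfold wf
  exact Polynomial.sum_over_range _ (fun n => by simp)

lemma cusp_coeff_one (A B : Polynomial ℤ) : (cusp A B).coeff 1 = 0 := by
  unfold cusp
  rw [Polynomial.coeff_add, Polynomial.coeff_X_pow_mul', if_neg (by norm_num), add_zero,
    Polynomial.coeff_expand (by norm_num), if_neg (by norm_num)]

lemma cusp_coeff_even (A B : Polynomial ℤ) (i : ℕ) : (cusp A B).coeff (2 * i) = A.coeff i := by
  unfold cusp
  rw [Polynomial.coeff_add, Polynomial.coeff_expand (by norm_num), if_pos ⟨i, rfl⟩,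
    Nat.mul_div_cancel_left _ (by norm_num), Polynomial.coeff_X_pow_mul']
  split_ifs with h
  · rw [Polynomial.coeff_expand (by norm_num), if_neg (by omega), add_zero]
  · rw [add_zero]

lemma cusp_coeff_odd (A B : Polynomial ℤ) (i : ℕ) : (cusp A B).coeff (2 * i + 3) = B.coeff i := by
  unfold cusp
  rw [Polynomial.coeff_add, Polynomial.coeff_expand (by norm_num), if_neg (by omega), zero_add,
    Polynomial.coeff_X_pow_mul', if_pos (by omega), Polynomial.coeff_expand (by norm_num),
    if_pos ⟨i, by omega⟩]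
  congr 1
  omega

lemma cusp_A (A B : Polynomial ℤ) : 2 * A.natDegree ≤ (cusp A B).natDegree := by
  by_cases h : A = 0
  · rw [h, Polynomial.natDegree_zero]
    exact Nat.zero_le _
  · apply Polynomial.le_natDegree_of_ne_zero
    rw [cusp_coeff_even]
    exact fun h1 => h (Polynomial.leadingCoeff_eq_zero.1 h1)

lemma cusp_B (A : Polynomial ℤ) {B : Polynomial ℤ} (hB : B ≠ 0) :
    2 * B.natDegree + 3 ≤ (cusp A B).natDegree := by
  apply Polynomial.le_natDegree_of_ne_zero
  rw [cusp_coeff_odd]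
  exact fun h1 => hB (Polynomial.leadingCoeff_eq_zero.1 h1)

lemma cusp_two (A B : Polynomial ℤ) (h : 0 < (cusp A B).natDegree) : 2 ≤ (cusp A B).natDegree := by
  by_contra h1
  have h2 : (cusp A B).natDegree = 1 := by omega
  have h3 : (cusp A B).leadingCoeff = 0 := by
    rw [Polynomial.leadingCoeff, h2, cusp_coeff_one]
  rw [Polynomial.leadingCoeff_eq_zero] at h3
  rw [h3, Polynomial.natDegree_zero] at h
  omega

end Pool.Agent.Q4.Hyp
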