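import Mathlib
import Pool.Agent.Q4.Hyp.RegSeq

set_option autoImplicit false
set_option linter.unusedSectionVars false

/-!
# Hall's inequality when a regular function takes the value of a polynomial near a ray: theorem
-/

namespace Pool.Agent.Q4.Hyp

open Filter Topology Pool.Agent.TH932.Abs Pool.Agent.TH932.Germs Pool.Agent.TH932.Chi
open Pool.Agent.TH796.AL Pool.Agent.Q4.Blk Pool.Agent.Q4.Gcd Pool.Agent.Q4.Cov Module MvPolynomial
open Pool.Agent.Q4.Tube Pool.Agent.Q4.Hall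

/-- the value of an integral polynomial -/
noncomputable def ev {R : Type*} [CommRing R] (G : R) (T : Polynomial ℤ) : R :=
  T.eval₂ (Int.castRingHom R) G

lemma hom_ev {R R' : Type*} [CommRing R] [CommRing R'] (ψ : R →+* R') (G : R) (T : Polynomial ℤ) :
    ψ (ev G T) = ev (ψ G) T := by
  unfold ev
  rw [Polynomial.hom_eval₂]
  congr 1
  exact RingHom.ext_int _ _

lemma aeval_deg {K : Type*} [CommRing K] (f : Polynomial K) (A : Polynomial ℤ) :
    (ev f A).natDegree ≤ A.natDegree * f.natDegree := by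
  unfold ev
  rw [Polynomial.eval₂_eq_sum_range]
  refine Polynomial.natDegree_sum_le_of_forall_le _ _ fun i hi => ?_
  refine Polynomial.natDegree_mul_le.trans ?_
  rw [eq_intCast, Polynomial.natDegree_intCast, zero_add]
  refine Polynomial.natDegree_pow_le.trans ?_
  exact Nat.mul_le_mul_right _ (Nat.lt_succ_iff.1 (Finset.mem_range.1 hi))

/-- the degree of the first coordinate -/
lemma cusp_deg {K : Type*} [CommRing K] [IsDomain K] (f g : Polynomial K) (A B : Polynomial ℤ)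
    {j : ℕ} (hj : 0 < j) (hw : 0 < (cusp A B).natDegree) (hf : f.natDegree < 2 * j)
    (hr : (g ^ 2 - f ^ 3).natDegree ≤ j) :
    (ev f A + ev f B * g).natDegree < (cusp A B).natDegree * j := by
  set w := (cusp A B).natDegree with hwd
  set m := f.natDegree with hm
  have hg : 2 * g.natDegree ≤ max j (3 * m) := by
    have h1 : (g ^ 2).natDegree = 2 * g.natDegree := Polynomial.natDegree_pow g 2
    rw [← h1]
    have h2 : g ^ 2 = (g ^ 2 - f ^ 3) + f ^ 3 := by ring
    rw [h2]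
    refine (Polynomial.natDegree_add_le _ _).trans (max_le_max hr ?_)
    rw [Polynomial.natDegree_pow]
  have hg' : 2 * g.natDegree + 3 ≤ 6 * j := by
    rcases max_le_iff.1 (le_refl (max j (3 * m))) with ⟨-, -⟩
    rcases le_total j (3 * m) with h | h
    · rw [max_eq_right h] at hg
      omega
    · rw [max_eq_left h] at hg
      omega
  refine lt_of_le_of_lt (Polynomial.natDegree_add_le _ _) (max_lt ?_ ?_)
  · refine lt_of_le_of_lt (aeval_deg f A) ?_
    have h1 := cusp_A A B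
    rw [← hwd] at h1
    nlinarith
  · by_cases hB : B = 0
    · rw [hB, ev, Polynomial.eval₂_zero, zero_mul, Polynomial.natDegree_zero]
      positivity
    · have h1 := cusp_B A hB
      rw [← hwd] at h1
      refine lt_of_le_of_lt (Polynomial.natDegree_mul_le) ?_
      have h2 := aeval_deg f B
      rw [← hm] at h2
      nlinarith

section
variable {σ : Type} [Fintype σ] [DecidableEq σ]
variable (S : Finset ℕ) (hS : ∀ p ∈ S, p.Prime) {θ : σ → ℝ} (halg : ∀ s, IsAlgebraic ℚ (θ s))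
  (hind : LinearIndependent ℚ (fun o : Option σ => (o.elim 1 (fun s => θ s) : ℝ)))
  {q : ℕ → ℕ} {x : ℕ → σ → ℤ} (H : Tub S θ q x)

include hS halg hind H

/-- **The theorem for sequences.** -/
theorem reg_seq {A B : Polynomial ℤ} {F : MvPolynomial (Option σ) ℤ} {j : ℕ}
    (hw : 0 < (cusp A B).natDegree) (hF : F.totalDegree ≤ (cusp A B).natDegree * j) (hj : 0 < j)
    (htop : topv ((cusp A B).natDegree * j) F θ ≠ 0) {e : ℝ} (he0 : 0 < e)
    (he : e < 1 / 2 + 1 / (2 * j)) (X Y : ℕ → ℤ)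
    (hXY : ∀ n, A.eval (X n) + B.eval (X n) * Y n = eval (px (q n) (x n)) F)
    (hne : ∀ n, Y n ^ 2 ≠ X n ^ 3)
    (hd : ∀ n, |(Y n : ℝ) ^ 2 - (X n : ℝ) ^ 3| ≤ |(X n : ℝ)| ^ e) : False := by
  classical
  have hjr : (1 : ℝ) ≤ j := by exact_mod_cast hj
  have he1 : e ≤ 1 := by
    have h1 : 1 / (2 * (j : ℝ)) ≤ 1 / 2 := by
      apply one_div_le_one_div_of_le <;> linarith
    linarith
  have hd' : ∀ n, |Y n ^ 2 - X n ^ 3| ≤ |X n| := by
    intro n
    have h1 : |(X n : ℝ)| ^ e ≤ |(X n : ℝ)| := by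
      rcases eq_or_ne (X n) 0 with h0 | h0
      · rw [h0, Int.cast_zero, abs_zero, Real.zero_rpow he0.ne']
      · have h2 : (1 : ℝ) ≤ |(X n : ℝ)| := by exact_mod_cast Int.one_le_abs h0
        calc |(X n : ℝ)| ^ e ≤ |(X n : ℝ)| ^ (1 : ℝ) := Real.rpow_le_rpow_of_exponent_le h2 he1
          _ = _ := Real.rpow_one _
    exact_mod_cast (hd n).trans h1
  obtain ⟨hXS, -, G, G2, hGd, hG⟩ := reg_poly S hS halg hind H hw hF hj htop X Y hXY hd'
  set R : MvPolynomial (Option σ) ℚ := G2 ^ 2 - G ^ 3 with hR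
  have hRv : ∀ᶠ n in (UU : Filter ℕ), va (q n) (x n) R = (Y n : ℚ) ^ 2 - (X n : ℚ) ^ 3 := by
    filter_upwards [hG] with n hn
    rw [hR, map_sub, map_pow, map_pow, ← hn.1, ← hn.2]
  have hR0 : R ≠ 0 := by
    intro h
    obtain ⟨n, hn⟩ := hRv.exists
    rw [h, map_zero] at hn
    apply hne n
    have h2 : (Y n : ℚ) ^ 2 = (X n : ℚ) ^ 3 := (sub_eq_zero.1 hn.symm)
    exact_mod_cast h2
  -- the identity
  have hid : ev G A + ev G B * G2 = map (Int.castRingHom ℚ) F := by
    apply va_inj S hS halg hind H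
    filter_upwards [hG] with n hn
    have h1 : ∀ T : Polynomial ℤ, va (q n) (x n) (ev G T) = ((T.eval (X n) : ℤ) : ℚ) := by
      intro T
      have h2 : va (q n) (x n) (ev G T) = ev (va (q n) (x n) G) T :=
        hom_ev (va (q n) (x n)).toRingHom G T
      rw [h2, ← hn.1, ev, Polynomial.eval₂_at_intCast]
      simp
    rw [map_add, map_mul, h1, h1, ← hn.2, map_px, ← hXY n]
    push_cast
    rfl
  set f := Phi θ (map (algebraMap ℚ ℝ) G) with hf
  set g := Phi θ (map (algebraMap ℚ ℝ) G2) with hg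
  have hr : g ^ 2 - f ^ 3 = Phi θ (map (algebraMap ℚ ℝ) R) := by
    rw [hR, map_sub, map_pow, map_pow, map_sub, map_pow, map_pow]
  have hrd : (g ^ 2 - f ^ 3).natDegree ≤ j := by
    rw [hr]
    have h1 : Sm q (2 * j * e) (fun n => ((va (q n) (x n) R : ℚ) : ℂ)) := by
      intro ε hε
      filter_upwards [hXS (ε / e) (by positivity), hRv] with n hn hRn
      rw [hRn]
      have h2 : (((Y n : ℚ) ^ 2 - (X n : ℚ) ^ 3 : ℚ) : ℂ) = (((Y n : ℝ) ^ 2 - (X n : ℝ) ^ 3 : ℝ) : ℂ) := by
        push_cast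
        rfl
      rw [h2, Complex.norm_real, Real.norm_eq_abs]
      refine (hd n).trans ?_
      rw [Complex.norm_intCast] at hn
      refine (Real.rpow_le_rpow (abs_nonneg _) hn he0.le).trans (le_of_eq ?_)
      rw [← Real.rpow_mul (qpos H.big n).le]
      congr 1
      field_simp
    have h2 := deg_le_of_sm S hS halg hind H R (by positivity) h1
    have h3 : 2 * j * e < j + 1 := by
      have h4 : 2 * (j : ℝ) * (1 / 2 + 1 / (2 * j)) = j + 1 := by field_simp
      rw [← h4]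
      exact mul_lt_mul_of_pos_left he (by positivity)
    have h5 : ((Phi θ (map (algebraMap ℚ ℝ) R)).natDegree : ℝ) < ((j + 1 : ℕ) : ℝ) := by
      push_cast
      linarith
    exact Nat.lt_succ_iff.1 (by exact_mod_cast h5)
  have hfd : f.natDegree = 2 * j := by
    have h1 : f.natDegree ≤ 2 * j :=
      Phi_le θ ((Finset.sup_mono (support_map_subset _ _)).trans hGd)
    by_contra h2
    have h3 := cusp_deg f g A B hj hw (by omega) hrd
    have h4 : ev f A + ev f B * g = Phi θ (map (Int.castRingHom ℝ) F) := by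
      have h5 : map (Int.castRingHom ℝ) F = map (algebraMap ℚ ℝ) (map (Int.castRingHom ℚ) F) := by
        rw [MvPolynomial.map_map]
        congr 1
      have h6 : ∀ T : Polynomial ℤ, Phi θ (map (algebraMap ℚ ℝ) (ev G T)) = ev f T := by
        intro T
        rw [hom_ev (map (algebraMap ℚ ℝ)) G T]
        exact hom_ev (Phi θ).toRingHom _ T
      rw [h5, ← hid, map_add, map_mul, map_add, map_mul, h6, h6]
    rw [h4, Phi_eq θ hF htop] at h3
    exact lt_irrefl _ h3
  have hdav := dav f g 3 2 (2 * j) (3 * j) hfd (by omega) (by norm_num) (by norm_num) (by ring) (by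
    intro h
    have h1 : Phi θ (map (algebraMap ℚ ℝ) R) = 0 := by rw [← hr, h, sub_self]
    have h2 : tw θ (map (algebraMap ℚ ℝ) R) = 0 :=
      (map_eq_zero_iff _ (optionEquivLeft ℝ σ).injective).1 h1
    refine tw_ne θ (fun h3 => hR0 ?_) h2
    exact map_injective _ (algebraMap ℚ ℝ).injective (h3.trans (map_zero _).symm))
  omega

end

section
variable {σ : Type} [Fintype σ] [DecidableEq σ]

theorem reg_main (S : Finset ℕ) (hS : ∀ p ∈ S, p.Prime) {θ : σ → ℝ}
    (halg : ∀ s, IsAlgebraic ℚ (θ s))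
    (hind : LinearIndependent ℚ (fun o : Option σ => (o.elim 1 (fun s => θ s) : ℝ)))
    {A B : Polynomial ℤ} {F : MvPolynomial (Option σ) ℤ} {j : ℕ}
    (hw : 0 < (cusp A B).natDegree) (hF : F.totalDegree ≤ (cusp A B).natDegree * j) (hj : 0 < j)
    (htop : topv ((cusp A B).natDegree * j) F θ ≠ 0) {e : ℝ} (he0 : 0 < e)
    (he : e < 1 / 2 + 1 / (2 * j)) :
    ∃ (η : ℝ) (N : ℕ), 0 < η ∧ ∀ q ≥ N, ∀ x, Near S θ η q x → ∀ X Y : ℤ,
      A.eval X + B.eval X * Y = eval (px q x) F → Y ^ 2 ≠ X ^ 3 →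
      |(X : ℝ)| ^ e < |(Y : ℝ) ^ 2 - (X : ℝ) ^ 3| := by
  classical
  obtain ⟨η, N, hη, h⟩ := none_left S θ (Δ := ℤ × ℤ) (fun q x d =>
    A.eval d.1 + B.eval d.1 * d.2 = eval (px q x) F ∧ d.2 ^ 2 ≠ d.1 ^ 3 ∧
      |(d.2 : ℝ) ^ 2 - (d.1 : ℝ) ^ 3| ≤ |(d.1 : ℝ)| ^ e) (by
    intro q x d H hd
    exact reg_seq S hS halg hind H hw hF hj htop he0 he (fun n => (d n).1) (fun n => (d n).2)
      (fun n => (hd n).1) (fun n => (hd n).2.1) (fun n => (hd n).2.2))
  refine ⟨η, N, hη, fun q hq x hx X Y h1 h2 => ?_⟩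
  by_contra hcon
  exact h q hq x hx (X, Y) ⟨h1, h2, not_lt.1 hcon⟩

end

end Pool.Agent.Q4.Hyp
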