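import Mathlib
import Pool.Agent.Q4.Hyp.RegMain

set_option autoImplicit false
set_option linter.unusedSectionVars false

/-!
# Two integers, close to powers of one number, with a polynomial relation to a point near a ray
-/

namespace Pool.Agent.Q4.Hyp

open Filter Topology Pool.Agent.TH932.Abs Pool.Agent.TH932.Germs Pool.Agent.TH932.Chi
open Pool.Agent.TH796.AL Pool.Agent.Q4.Blk Pool.Agent.Q4.Gcd Pool.Agent.Q4.Cov Module MvPolynomial
open Pool.Agent.Q4.Tube Pool.Agent.Q4.Hall

/-- the restriction `P(T^b, T^a)` -/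
noncomputable def curve (a b : ℕ) (P : MvPolynomial (Fin 2) ℤ) : Polynomial ℤ :=
  aeval (fun i : Fin 2 => (if i = 0 then Polynomial.X ^ b else Polynomial.X ^ a : Polynomial ℤ)) P

lemma curve_eq (a b : ℕ) (P : MvPolynomial (Fin 2) ℤ) :
    curve a b P = ∑ m ∈ P.support, Polynomial.C (coeff m P) * Polynomial.X ^ (b * m 0 + a * m 1) := by
  unfold curve
  rw [aeval_def, eval₂_eq']
  refine Finset.sum_congr rfl fun m _ => ?_
  rw [Fin.prod_univ_two, if_pos rfl, if_neg (by norm_num), ← pow_mul, ← pow_mul, ← pow_add]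
  rfl

lemma curve_coeff (a b : ℕ) (P : MvPolynomial (Fin 2) ℤ) (k : ℕ) :
    (curve a b P).coeff k = ∑ m ∈ P.support, if b * m 0 + a * m 1 = k then coeff m P else 0 := by
  rw [curve_eq, Polynomial.finsetSum_coeff]
  refine Finset.sum_congr rfl fun m _ => ?_
  rw [Polynomial.coeff_C_mul, Polynomial.coeff_X_pow]
  by_cases h : k = b * m 0 + a * m 1
  · rw [if_pos h, if_pos h.symm, mul_one]
  · rw [if_neg h, if_neg (Ne.symm h), mul_zero]

lemma curve_eval (a b : ℕ) (P : MvPolynomial (Fin 2) ℤ) (z : ℂ) :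
    (curve a b P).eval₂ (Int.castRingHom ℂ) z
      = ∑ m ∈ P.support, ((coeff m P : ℤ) : ℂ) * z ^ (b * m 0 + a * m 1) := by
  rw [curve_eq, Polynomial.eval₂_finsetSum]
  refine Finset.sum_congr rfl fun m _ => ?_
  rw [Polynomial.eval₂_mul, Polynomial.eval₂_C, Polynomial.eval₂_X_pow]
  rfl

lemma pair_eval {R : Type*} [CommRing R] (P : MvPolynomial (Fin 2) ℤ) (f g : R) :
    aeval (fun i : Fin 2 => if i = 0 then f else g) P
      = ∑ m ∈ P.support, ((coeff m P : ℤ) : R) * (f ^ (m 0) * g ^ (m 1)) := by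
  rw [aeval_def, eval₂_eq']
  refine Finset.sum_congr rfl fun m _ => ?_
  rw [Fin.prod_univ_two, if_pos rfl, if_neg (by norm_num)]
  simp

/-! ### numbers close to one -/

section
variable {q : ℕ → ℕ} (hq : ∀ n, n + 2 ≤ q n)
include hq

lemma one_sm0 {e : ℝ} (he : e < 0) {f : ℕ → ℂ} (h : Sm q e (fun n => f n - 1)) : Sm q 0 f := by
  have h1 := Sm.add hq (h.mono hq he.le) (Sm.const hq 1)
  refine h1.congr (Eventually.of_forall fun n => ?_)
  ring

lemma one_tendsto {e : ℝ} (he : e < 0) {f : ℕ → ℂ} (h : Sm q e (fun n => f n - 1)) :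
    Tendsto f (UU : Filter ℕ) (𝓝 1) := by
  have h1 := (Sm.tendsto hq he h).add_const 1
  rw [zero_add] at h1
  refine h1.congr fun n => ?_
  ring

lemma one_mul' {e : ℝ} (he : e < 0) {f g : ℕ → ℂ} (hf : Sm q e (fun n => f n - 1))
    (hg : Sm q e (fun n => g n - 1)) : Sm q e (fun n => f n * g n - 1) := by
  have h1 := Sm.mul hq hf (one_sm0 hq he hg)
  rw [add_zero] at h1
  refine (Sm.add hq h1 hg).congr (Eventually.of_forall fun n => ?_)
  ring

lemma one_pow' {e : ℝ} (he : e < 0) {f : ℕ → ℂ} (hf : Sm q e (fun n => f n - 1)) (k : ℕ) :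
    Sm q e (fun n => f n ^ k - 1) := by
  induction k with
  | zero =>
    simp only [pow_zero, sub_self]
    exact Sm.zero hq _
  | succ k ih =>
    refine (one_mul' hq he ih hf).congr (Eventually.of_forall fun n => ?_)
    rw [pow_succ]

lemma one_inv {e : ℝ} (he : e < 0) {f : ℕ → ℂ} (hf : Sm q e (fun n => f n - 1)) :
    Sm q e (fun n => (f n)⁻¹ - 1) := by
  have h0 := one_tendsto hq he hf
  have h1 : ∀ᶠ n in (UU : Filter ℕ), 1 / 2 < ‖f n‖ := by
    have h2 := h0.norm
    rw [norm_one] at h2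
    exact h2.eventually (lt_mem_nhds (by norm_num))
  have h2 : Sm q 0 (fun n => (f n)⁻¹) := by
    refine (Sm.const hq 2).le ?_
    filter_upwards [h1] with n hn
    rw [norm_inv]
    have h3 : ‖(2 : ℂ)‖ = (1 / 2 : ℝ)⁻¹ := by norm_num
    rw [h3]
    exact inv_anti₀ (by norm_num) hn.le
  have h3 := (Sm.mul hq hf h2).neg
  rw [add_zero] at h3
  refine h3.congr ?_
  filter_upwards [h1] with n hn
  have h4 : f n ≠ 0 := by
    rintro h
    rw [h, norm_zero] at hn
    norm_num at hn
  field_simp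
  ring

lemma one_zpow' {e : ℝ} (he : e < 0) {f : ℕ → ℂ} (hf : Sm q e (fun n => f n - 1)) (k : ℤ) :
    Sm q e (fun n => f n ^ k - 1) := by
  obtain ⟨m, rfl | rfl⟩ := Int.eq_nat_or_neg k
  · simp only [zpow_natCast]
    exact one_pow' hq he hf m
  · refine (one_pow' hq he (one_inv hq he hf) m).congr (Eventually.of_forall fun n => ?_)
    rw [zpow_neg, zpow_natCast, inv_pow]

end

section
variable {σ : Type} [Fintype σ] [DecidableEq σ]
variable (S : Finset ℕ) (hS : ∀ p ∈ S, p.Prime) {θ : σ → ℝ} (halg : ∀ s, IsAlgebraic ℚ (θ s))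
  (hind : LinearIndependent ℚ (fun o : Option σ => (o.elim 1 (fun s => θ s) : ℝ)))
  {q : ℕ → ℕ} {x : ℕ → σ → ℤ} (H : Tub S θ q x)

include hS halg hind H

/-- the size of the common root -/
theorem pair_size {P : MvPolynomial (Fin 2) ℤ} {a b w : ℕ}
    (hwd : (curve a b P).natDegree = w) (hwt : ∀ m ∈ P.support, b * m 0 + a * m 1 ≤ w)
    (hw : 0 < w) {F : MvPolynomial (Option σ) ℤ} {j : ℕ} (hF : F.totalDegree ≤ w * j) (hj : 0 < j)
    (htop : topv (w * j) F θ ≠ 0) (k1 k2 t : ℕ → ℂ) {ε : ℝ} (hε : 0 < ε)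
    (hk1 : Sm q (-ε) (fun n => k1 n - 1)) (hk2 : Sm q (-ε) (fun n => k2 n - 1))
    (hval : ∀ n, ∑ m ∈ P.support, ((coeff m P : ℤ) : ℂ) * (k1 n ^ (m 0) * k2 n ^ (m 1)
      * t n ^ (b * m 0 + a * m 1)) = ((eval (px (q n) (x n)) F : ℤ) : ℂ)) :
    (∀ ε : ℝ, 0 < ε → ∀ᶠ n in (UU : Filter ℕ), (q n : ℝ) ^ ((j : ℝ) - ε) ≤ ‖t n‖) ∧ Sm q j t := by
  classical
  have hjr : (1 : ℝ) ≤ j := by exact_mod_cast hj
  have hwr : (0 : ℝ) < w := by exact_mod_cast hw
  have hε' : -ε < 0 := by linarith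
  have h10 := one_sm0 H.big hε' hk1
  have h20 := one_sm0 H.big hε' hk2
  have hlow : ∀ ε : ℝ, 0 < ε → ∀ᶠ n in (UU : Filter ℕ), (q n : ℝ) ^ (((w * j : ℕ) : ℝ) - ε)
      ≤ ‖((eval (px (q n) (x n)) F : ℤ) : ℂ)‖ := by
    intro ε hε
    filter_upwards [low_val S hS halg hind H hF htop hε] with n hn
    rwa [Complex.norm_intCast]
  refine ⟨?_, ?_⟩
  · intro ε1 hε1
    by_contra hcon
    have hcon' := Ultrafilter.eventually_not.2 hcon
    set e1 : ℝ := max (j - ε1) 0 with he1
    have he0 : 0 ≤ e1 := le_max_right _ _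
    have ht : Sm q e1 t := by
      intro ε' hε'
      filter_upwards [hcon'] with n hn
      exact (not_le.1 hn).le.trans (Real.rpow_le_rpow_of_exponent_le (qone H.big n) (by
        have := le_max_left ((j : ℝ) - ε1) 0
        linarith))
    have hFs : Sm q (w * e1) (fun n => ((eval (px (q n) (x n)) F : ℤ) : ℂ)) := by
      have h1 := Sm.sum H.big P.support (e := w * e1)
        (fun m n => ((coeff m P : ℤ) : ℂ) * (k1 n ^ (m 0) * k2 n ^ (m 1) * t n ^ (b * m 0 + a * m 1))) (by
          intro m hm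
          have h2 := Sm.mul H.big (Sm.const H.big ((coeff m P : ℤ) : ℂ))
            (Sm.mul H.big (Sm.mul H.big (Sm.pow H.big h10 (m 0)) (Sm.pow H.big h20 (m 1)))
              (Sm.pow H.big ht (b * m 0 + a * m 1)))
          refine h2.mono H.big ?_
          have h4 : ((b * m 0 + a * m 1 : ℕ) : ℝ) ≤ w := by exact_mod_cast hwt m hm
          have h5 := mul_le_mul_of_nonneg_right h4 he0
          linarith)
      exact h1.congr (Eventually.of_forall fun n => (hval n).symm)
    have h1 := sm_low H.big hFs hlow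
    push_cast at h1
    have h2 : (j : ℝ) ≤ e1 := le_of_mul_le_mul_left h1 hwr
    rcases le_total ((j : ℝ) - ε1) 0 with h3 | h3
    · rw [he1, max_eq_right h3] at h2
      linarith
    · rw [he1, max_eq_left h3] at h2
      linarith
  · intro ε1 hε1
    by_contra hcon
    have hcon' := Ultrafilter.eventually_not.2 hcon
    have hτ : Sm q (-(j + ε1)) (fun n => 1 / t n) := by
      intro ε' hε'
      filter_upwards [hcon'] with n hn
      rw [not_le] at hn
      have hqp := qpos H.big n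
      rw [norm_div, norm_one, one_div]
      have h1 : (q n : ℝ) ^ (-(j + ε1) + ε') = ((q n : ℝ) ^ (j + ε1 - ε'))⁻¹ := by
        rw [← Real.rpow_neg hqp.le]
        congr 1
        ring
      rw [h1]
      apply inv_anti₀ (by positivity)
      exact (Real.rpow_le_rpow_of_exponent_le (qone H.big n) (by linarith)).trans hn.le
    have ht0 : ∀ᶠ n in (UU : Filter ℕ), t n ≠ 0 := by
      filter_upwards [hcon'] with n hn h0
      apply hn
      rw [h0, norm_zero]
      have := qpos H.big n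
      positivity
    have hτ0 := Sm.tendsto H.big (by linarith : -((j : ℝ) + ε1) < 0) hτ
    have hlim : Tendsto (fun n => ∑ m ∈ P.support, ((coeff m P : ℤ) : ℂ)
        * (k1 n ^ (m 0) * k2 n ^ (m 1) * (1 / t n) ^ (w - (b * m 0 + a * m 1)))) (UU : Filter ℕ)
        (𝓝 (∑ m ∈ P.support, ((coeff m P : ℤ) : ℂ)
        * ((1 : ℂ) ^ (m 0) * 1 ^ (m 1) * 0 ^ (w - (b * m 0 + a * m 1))))) :=
      tendsto_finsetSum _ fun m _ => ((((one_tendsto H.big hε' hk1).pow _).mul
        ((one_tendsto H.big hε' hk2).pow _)).mul (hτ0.pow _)).const_mul _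
    have hlimv : ∑ m ∈ P.support, ((coeff m P : ℤ) : ℂ)
        * ((1 : ℂ) ^ (m 0) * 1 ^ (m 1) * 0 ^ (w - (b * m 0 + a * m 1)))
        = ((curve a b P).coeff w : ℤ) := by
      rw [curve_coeff]
      push_cast
      refine Finset.sum_congr rfl fun m hm => ?_
      have h1 := hwt m hm
      by_cases h2 : b * m 0 + a * m 1 = w
      · rw [if_pos h2, h2, Nat.sub_self]
        simp
      · rw [if_neg h2, zero_pow (by omega)]
        simp
    rw [hlimv] at hlim
    have hzero : Tendsto (fun n => ((eval (px (q n) (x n)) F : ℤ) : ℂ) * (1 / t n) ^ w)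
        (UU : Filter ℕ) (𝓝 0) := by
      have h1 := Sm.mul H.big (sm_val S H F hF) (Sm.pow H.big hτ w)
      refine Sm.tendsto H.big ?_ h1
      push_cast
      have : (w : ℝ) * j + w * (-(j + ε1)) = -(w * ε1) := by ring
      rw [this]
      have := mul_pos hwr hε1
      linarith
    have heq : (fun n => ((eval (px (q n) (x n)) F : ℤ) : ℂ) * (1 / t n) ^ w)
        =ᶠ[(UU : Filter ℕ)] (fun n => ∑ m ∈ P.support, ((coeff m P : ℤ) : ℂ)
        * (k1 n ^ (m 0) * k2 n ^ (m 1) * (1 / t n) ^ (w - (b * m 0 + a * m 1)))) := by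
      filter_upwards [ht0] with n hn
      rw [← hval n, Finset.sum_mul]
      refine Finset.sum_congr rfl fun m hm => ?_
      have h1 := hwt m hm
      have h4 : (1 / t n) ^ w = (1 / t n) ^ (w - (b * m 0 + a * m 1))
          * (1 / t n) ^ (b * m 0 + a * m 1) := by
        rw [← pow_add]
        congr 1
        omega
      have h5 : t n ^ (b * m 0 + a * m 1) * (1 / t n) ^ (b * m 0 + a * m 1) = 1 := by
        rw [← mul_pow]
        have : t n * (1 / t n) = 1 := by field_simp
        rw [this, one_pow]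
      rw [h4]
      calc _ = ((coeff m P : ℤ) : ℂ) * (k1 n ^ (m 0) * k2 n ^ (m 1)
            * (1 / t n) ^ (w - (b * m 0 + a * m 1)))
            * (t n ^ (b * m 0 + a * m 1) * (1 / t n) ^ (b * m 0 + a * m 1)) := by ring
        _ = _ := by rw [h5, mul_one]
    have h1 := tendsto_nhds_unique (hzero.congr' heq) hlim
    have h2 : (curve a b P).coeff w = 0 := by exact_mod_cast h1.symm
    have h3 : (curve a b P).leadingCoeff = 0 := by rw [Polynomial.leadingCoeff, hwd, h2]
    rw [Polynomial.leadingCoeff_eq_zero] at h3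
    rw [h3, Polynomial.natDegree_zero] at hwd
    omega

end

end Pool.Agent.Q4.Hyp
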