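import Mathlib
import Pool.Agent.Q4.Hyp.Pair
import Pool.Agent.Q4.Hall.OptMain

set_option autoImplicit false
set_option linter.unusedSectionVars false

/-!
# Two integers, close to powers of one number, with a polynomial relation to a point near a ray
-/

namespace Pool.Agent.Q4.Hyp

open Filter Topology Pool.Agent.TH932.Abs Pool.Agent.TH932.Germs Pool.Agent.TH932.Chi
open Pool.Agent.TH796.AL Pool.Agent.Q4.Blk Pool.Agent.Q4.Gcd Pool.Agent.Q4.Cov Module MvPolynomial
open Pool.Agent.Q4.Tube Pool.Agent.Q4.Hall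

/-- the value `P(f, g)` -/
noncomputable def pv {R : Type*} [CommRing R] (P : MvPolynomial (Fin 2) ℤ) (f g : R) : R :=
  ∑ m ∈ P.support, ((coeff m P : ℤ) : R) * (f ^ (m 0) * g ^ (m 1))

lemma hom_pv {R R' : Type*} [CommRing R] [CommRing R'] (ψ : R →+* R') (P : MvPolynomial (Fin 2) ℤ)
    (f g : R) : ψ (pv P f g) = pv P (ψ f) (ψ g) := by
  unfold pv
  rw [map_sum]
  refine Finset.sum_congr rfl fun m _ => ?_
  rw [map_mul, map_mul, map_pow, map_pow, map_intCast]

lemma pv_int (P : MvPolynomial (Fin 2) ℤ) (X Y : ℤ) :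
    eval (fun i : Fin 2 => if i = 0 then X else Y) P = pv P X Y := by
  unfold pv
  rw [eval_eq']
  refine Finset.sum_congr rfl fun m _ => ?_
  rw [Fin.prod_univ_two, if_pos rfl, if_neg (by norm_num)]
  simp

/-- the degree of the first coordinate -/
lemma pair_deg {K : Type*} [CommRing K] [IsDomain K] (f g : Polynomial K)
    (P : MvPolynomial (Fin 2) ℤ) {a b w j : ℕ} (ha : 0 < a) (hw : 0 < w) (hj : 0 < j)
    (hwt : ∀ m ∈ P.support, b * m 0 + a * m 1 ≤ w) (hf : f.natDegree < b * j)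
    (hr : (g ^ b - f ^ a).natDegree < a * b * j) : (pv P f g).natDegree < w * j := by
  have hg : g.natDegree < a * j := by
    have h1 : (g ^ b).natDegree = b * g.natDegree := Polynomial.natDegree_pow g b
    have h2 : g ^ b = (g ^ b - f ^ a) + f ^ a := by ring
    have h3 : (g ^ b).natDegree < b * (a * j) := by
      rw [h2]
      refine lt_of_le_of_lt (Polynomial.natDegree_add_le _ _) (max_lt ?_ ?_)
      · have : a * b * j = b * (a * j) := by ring
        rwa [← this]
      · rw [Polynomial.natDegree_pow]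
        calc a * f.natDegree < a * (b * j) := Nat.mul_lt_mul_of_pos_left hf ha
          _ = b * (a * j) := by ring
    rw [h1] at h3
    exact Nat.lt_of_mul_lt_mul_left h3
  have hwj : 0 < w * j := Nat.mul_pos hw hj
  have hle : (pv P f g).natDegree ≤ w * j - 1 := by
    unfold pv
    refine Polynomial.natDegree_sum_le_of_forall_le _ _ fun m hm => ?_
    refine Polynomial.natDegree_mul_le.trans ?_
    rw [Polynomial.natDegree_intCast, zero_add]
    refine Polynomial.natDegree_mul_le.trans ?_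
    refine (add_le_add Polynomial.natDegree_pow_le Polynomial.natDegree_pow_le).trans ?_
    have h1 := hwt m hm
    rcases Nat.eq_zero_or_pos (m 0 + m 1) with h0 | h0
    · have h2 : m 0 = 0 := by omega
      have h3 : m 1 = 0 := by omega
      rw [h2, h3]
      simp
    · have h2 : m 0 * f.natDegree + m 0 ≤ m 0 * (b * j) := by
        have := Nat.mul_le_mul_left (m 0) (Nat.succ_le_of_lt hf)
        rw [Nat.mul_succ] at this
        exact this
      have h3 : m 1 * g.natDegree + m 1 ≤ m 1 * (a * j) := by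
        have := Nat.mul_le_mul_left (m 1) (Nat.succ_le_of_lt hg)
        rw [Nat.mul_succ] at this
        exact this
      have h4 : m 0 * (b * j) + m 1 * (a * j) ≤ w * j := by
        have : m 0 * (b * j) + m 1 * (a * j) = (b * m 0 + a * m 1) * j := by ring
        rw [this]
        exact Nat.mul_le_mul_right _ h1
      omega
  omega

section
variable {σ : Type} [Fintype σ] [DecidableEq σ]
variable (S : Finset ℕ) (hS : ∀ p ∈ S, p.Prime) {θ : σ → ℝ} (halg : ∀ s, IsAlgebraic ℚ (θ s))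
  (hind : LinearIndependent ℚ (fun o : Option σ => (o.elim 1 (fun s => θ s) : ℝ)))
  {q : ℕ → ℕ} {x : ℕ → σ → ℤ} (H : Tub S θ q x)

include hS halg hind H

/-- **the two integers are values of polynomials** -/
theorem pair_poly {P : MvPolynomial (Fin 2) ℤ} {a b w : ℕ} (ha : 0 < a) (hb : 0 < b)
    (hab : Nat.Coprime a b) (hwd : (curve a b P).natDegree = w)
    (hwt : ∀ m ∈ P.support, b * m 0 + a * m 1 ≤ w)
    (hw : 0 < w) {F : MvPolynomial (Option σ) ℤ} {j : ℕ} (hF : F.totalDegree ≤ w * j) (hj : 0 < j)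
    (htop : topv (w * j) F θ ≠ 0) (X Y : ℕ → ℤ) (hX : ∀ n, X n ≠ 0) (hY : ∀ n, Y n ≠ 0)
    (hXY : ∀ n, pv P (X n) (Y n) = eval (px (q n) (x n)) F) {ε : ℝ} (hε : 0 < ε)
    (hΛ : Sm q (1 - ε) (fun n => ((X n : ℂ) ^ a / (Y n : ℂ) ^ b - 1) * (X n * Y n))) :
    Sm q (a * j) (fun n => (Y n : ℂ)) ∧
    Sm q (1 - ε - (a + b) * j) (fun n => (X n : ℂ) ^ a / (Y n : ℂ) ^ b - 1) ∧
    ∃ G G2 : MvPolynomial (Option σ) ℚ, G.totalDegree ≤ b * j ∧ ∀ᶠ n in (UU : Filter ℕ),
      (X n : ℚ) = va (q n) (x n) G ∧ (Y n : ℚ) = va (q n) (x n) G2 := by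
  classical
  have hjr : (1 : ℝ) ≤ j := by exact_mod_cast hj
  have har : (1 : ℝ) ≤ a := by exact_mod_cast ha
  have hbr : (1 : ℝ) ≤ b := by exact_mod_cast hb
  have hwr : (0 : ℝ) < w := by exact_mod_cast hw
  have hXc : ∀ n, (X n : ℂ) ≠ 0 := fun n => by exact_mod_cast hX n
  have hYc : ∀ n, (Y n : ℂ) ≠ 0 := fun n => by exact_mod_cast hY n
  have hX1 : ∀ n, (1 : ℝ) ≤ ‖(X n : ℂ)‖ := fun n => by
    rw [Complex.norm_intCast]
    exact_mod_cast Int.one_le_abs (hX n)
  have hY1 : ∀ n, (1 : ℝ) ≤ ‖(Y n : ℂ)‖ := fun n => by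
    rw [Complex.norm_intCast]
    exact_mod_cast Int.one_le_abs (hY n)
  have hlow : ∀ ε : ℝ, 0 < ε → ∀ᶠ n in (UU : Filter ℕ), (q n : ℝ) ^ (((w * j : ℕ) : ℝ) - ε)
      ≤ ‖((eval (px (q n) (x n)) F : ℤ) : ℂ)‖ := by
    intro ε hε
    filter_upwards [low_val S hS halg hind H hF htop hε] with n hn
    rwa [Complex.norm_intCast]
  have hFc : ∀ n, ((eval (px (q n) (x n)) F : ℤ) : ℂ)
      = ∑ m ∈ P.support, ((coeff m P : ℤ) : ℂ) * ((X n : ℂ) ^ (m 0) * (Y n : ℂ) ^ (m 1)) := by
    intro n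
    rw [← hXY n, pv]
    push_cast
    rfl
  -- step 0
  have hprod : ∀ ε1 : ℝ, 0 < ε1 → ∀ᶠ n in (UU : Filter ℕ), (q n : ℝ) ^ (1 - ε1)
      ≤ ‖(X n : ℂ) * Y n‖ := by
    intro ε1 hε1
    by_contra hcon
    have hcon' := Ultrafilter.eventually_not.2 hcon
    set e1 : ℝ := max (1 - ε1) 0 with he1
    have he0 : 0 ≤ e1 := le_max_right _ _
    have hmul : ∀ᶠ n in (UU : Filter ℕ), ‖(X n : ℂ)‖ * ‖(Y n : ℂ)‖ ≤ (q n : ℝ) ^ e1 := by
      filter_upwards [hcon'] with n hn
      rw [norm_mul] at hn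
      exact (not_le.1 hn).le.trans (Real.rpow_le_rpow_of_exponent_le (qone H.big n)
        (le_max_left _ _))
    have hXs : Sm q e1 (fun n => (X n : ℂ)) := by
      intro ε' hε'
      filter_upwards [hmul] with n hn
      exact ((le_mul_of_one_le_right (norm_nonneg _) (hY1 n)).trans hn).trans
        (Real.rpow_le_rpow_of_exponent_le (qone H.big n) (by linarith))
    have hYs : Sm q e1 (fun n => (Y n : ℂ)) := by
      intro ε' hε'
      filter_upwards [hmul] with n hn
      exact ((le_mul_of_one_le_left (norm_nonneg _) (hX1 n)).trans hn).trans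
        (Real.rpow_le_rpow_of_exponent_le (qone H.big n) (by linarith))
    have hFs : Sm q (w * e1) (fun n => ((eval (px (q n) (x n)) F : ℤ) : ℂ)) := by
      have h1 := Sm.sum H.big P.support (e := w * e1)
        (fun m n => ((coeff m P : ℤ) : ℂ) * ((X n : ℂ) ^ (m 0) * (Y n : ℂ) ^ (m 1))) (by
          intro m hm
          have h2 := Sm.mul H.big (Sm.const H.big ((coeff m P : ℤ) : ℂ))
            (Sm.mul H.big (Sm.pow H.big hXs (m 0)) (Sm.pow H.big hYs (m 1)))
          refine h2.mono H.big ?_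
          have h3 : m 0 + m 1 ≤ w := by
            have h4 := hwt m hm
            have h5 : m 0 ≤ b * m 0 := Nat.le_mul_of_pos_left _ hb
            have h6 : m 1 ≤ a * m 1 := Nat.le_mul_of_pos_left _ ha
            omega
          have h4 : ((m 0 + m 1 : ℕ) : ℝ) ≤ w := by exact_mod_cast h3
          have h5 := mul_le_mul_of_nonneg_right h4 he0
          push_cast at h5
          linarith)
      exact h1.congr (Eventually.of_forall fun n => hFc n)
    have h1 := sm_low H.big hFs hlow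
    push_cast at h1
    have h2 : (j : ℝ) ≤ e1 := le_of_mul_le_mul_left h1 hwr
    have h3 : e1 < 1 := max_lt (by linarith) one_pos
    linarith
  -- step 1
  have hL1 : Sm q (-ε) (fun n => (X n : ℂ) ^ a / (Y n : ℂ) ^ b - 1) := by
    intro ε' hε'
    filter_upwards [hΛ (ε' / 2) (half_pos hε'), hprod (ε' / 2) (half_pos hε')] with n h1 h2
    rw [norm_mul] at h1
    have hqp := qpos H.big n
    have h3 : (0 : ℝ) < (q n : ℝ) ^ (1 - ε' / 2) := by positivity
    have h4 : (q n : ℝ) ^ (-ε + ε') = (q n : ℝ) ^ (1 - ε + ε' / 2) / (q n : ℝ) ^ (1 - ε' / 2) := by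
      rw [← Real.rpow_sub hqp]
      congr 1
      ring
    rw [h4, le_div_iff₀ h3]
    exact (mul_le_mul_of_nonneg_left h2 (norm_nonneg _)).trans h1
  -- step 2
  obtain ⟨v, u, huv⟩ := Nat.isCoprime_iff_coprime.2 hab
  set L : ℕ → ℂ := fun n => (X n : ℂ) ^ a / (Y n : ℂ) ^ b with hL
  set t : ℕ → ℂ := fun n => (X n : ℂ) ^ u * (Y n : ℂ) ^ v with ht
  set k1 : ℕ → ℂ := fun n => L n ^ v with hk1
  set k2 : ℕ → ℂ := fun n => L n ^ (-u) with hk2
  have hXt : ∀ n, (X n : ℂ) = k1 n * t n ^ b := by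
    intro n
    rw [hk1, ht, hL]
    simp only []
    rw [div_zpow, mul_pow, ← zpow_natCast, ← zpow_natCast, ← zpow_natCast, ← zpow_natCast,
      ← zpow_mul, ← zpow_mul, ← zpow_mul, ← zpow_mul]
    have h1 : (X n : ℂ) ^ ((a : ℤ) * v) / (Y n : ℂ) ^ ((b : ℤ) * v)
        * ((X n : ℂ) ^ (u * (b : ℤ)) * (Y n : ℂ) ^ (v * (b : ℤ)))
        = (X n : ℂ) ^ ((a : ℤ) * v + u * b) := by
      rw [zpow_add₀ (hXc n), mul_comm (b : ℤ) v]
      have := zpow_ne_zero (v * (b : ℤ)) (hYc n)
      field_simp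
    rw [h1]
    have h2 : (a : ℤ) * v + u * b = 1 := by linarith
    rw [h2, zpow_one]
  have hYt : ∀ n, (Y n : ℂ) = k2 n * t n ^ a := by
    intro n
    rw [hk2, ht, hL]
    simp only []
    rw [div_zpow, mul_pow, ← zpow_natCast, ← zpow_natCast, ← zpow_natCast, ← zpow_natCast,
      ← zpow_mul, ← zpow_mul, ← zpow_mul, ← zpow_mul]
    have h1 : (X n : ℂ) ^ ((a : ℤ) * -u) / (Y n : ℂ) ^ ((b : ℤ) * -u)
        * ((X n : ℂ) ^ (u * (a : ℤ)) * (Y n : ℂ) ^ (v * (a : ℤ)))
        = (Y n : ℂ) ^ (v * a + u * b) := by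
      have e1 : (a : ℤ) * -u = -(u * a) := by ring
      have e2 : (b : ℤ) * -u = -(u * b) := by ring
      rw [zpow_add₀ (hYc n), e1, e2, zpow_neg, zpow_neg]
      have h3 := zpow_ne_zero (u * (a : ℤ)) (hXc n)
      have h4 := zpow_ne_zero (u * (b : ℤ)) (hYc n)
      field_simp
    rw [h1, huv, zpow_one]
  have hε' : -ε < 0 := by linarith
  have hk1all : ∀ e : ℝ, e < 0 → Sm q e (fun n => L n - 1) → Sm q e (fun n => k1 n - 1) :=
    fun e he h => one_zpow' H.big he h v
  have hk2all : ∀ e : ℝ, e < 0 → Sm q e (fun n => L n - 1) → Sm q e (fun n => k2 n - 1) :=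
    fun e he h => one_zpow' H.big he h (-u)
  clear_value t k1 k2
  have hk1s := hk1all _ hε' hL1
  have hk2s := hk2all _ hε' hL1
  have hval : ∀ n, ∑ m ∈ P.support, ((coeff m P : ℤ) : ℂ) * (k1 n ^ (m 0) * k2 n ^ (m 1)
      * t n ^ (b * m 0 + a * m 1)) = ((eval (px (q n) (x n)) F : ℤ) : ℂ) := by
    intro n
    rw [hFc n]
    refine Finset.sum_congr rfl fun m _ => ?_
    congr 1
    rw [hXt n, hYt n]
    rw [mul_pow, mul_pow, ← pow_mul, ← pow_mul, pow_add]
    ring
  obtain ⟨htlow, htS⟩ := pair_size S hS halg hind H hwd hwt hw hF hj htop k1 k2 t hε hk1s hk2s hval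
  have htinv : Sm q (-j) (fun n => (t n)⁻¹) := by
    intro ε' hε'
    filter_upwards [htlow ε' hε'] with n hn
    have hqp := qpos H.big n
    rw [norm_inv]
    have h2 : (q n : ℝ) ^ (-(j : ℝ) + ε') = ((q n : ℝ) ^ ((j : ℝ) - ε'))⁻¹ := by
      rw [← Real.rpow_neg hqp.le]
      congr 1
      ring
    rw [h2]
    exact inv_anti₀ (by positivity) hn
  have hXinv : Sm q (-(b * j)) (fun n => (X n : ℂ)⁻¹) := by
    have h1 := Sm.mul H.big (one_sm0 H.big hε' (one_inv H.big hε' hk1s)) (Sm.pow H.big htinv b)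
    refine (h1.mono H.big (le_of_eq (by ring))).congr (Eventually.of_forall fun n => ?_)
    rw [hXt n]
    rw [mul_inv, inv_pow]
  have hYinv : Sm q (-(a * j)) (fun n => (Y n : ℂ)⁻¹) := by
    have h1 := Sm.mul H.big (one_sm0 H.big hε' (one_inv H.big hε' hk2s)) (Sm.pow H.big htinv a)
    refine (h1.mono H.big (le_of_eq (by ring))).congr (Eventually.of_forall fun n => ?_)
    rw [hYt n]
    rw [mul_inv, inv_pow]
  set e0 : ℝ := 1 - ε - (a + b) * j with he0
  have he0neg : e0 < 0 := by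
    rw [he0]
    nlinarith
  have hLe : Sm q e0 (fun n => L n - 1) := by
    have h1 := Sm.mul H.big hΛ (Sm.mul H.big hXinv hYinv)
    refine (h1.mono H.big (le_of_eq (by rw [he0]; ring))).congr (Eventually.of_forall fun n => ?_)
    have h2 := hXc n
    have h3 := hYc n
    rw [hL]
    simp only []
    field_simp
  have hk1e := hk1all _ he0neg hLe
  have hk2e := hk2all _ he0neg hLe
  have hYS : Sm q (a * j) (fun n => (Y n : ℂ)) := by
    have h1 := Sm.mul H.big (one_sm0 H.big hε' hk2s) (Sm.pow H.big htS a)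
    refine (h1.mono H.big (le_of_eq (by ring))).congr (Eventually.of_forall fun n => ?_)
    exact hYt n
  refine ⟨hYS, hLe, ?_⟩
  -- the polynomial
  set φ := curve a b P with hφ
  set Q := hy φ F with hQ
  have hφw : 0 < φ.natDegree := by rw [hwd]; exact hw
  have hQd : Q.natDegree = w := by rw [hQ, hy_deg, hwd]
  have hlc : Q.leadingCoeff = C φ.leadingCoeff := hy_lc hφw
  have hφ0 : φ.leadingCoeff ≠ 0 := by
    rw [Ne, Polynomial.leadingCoeff_eq_zero]
    intro h
    rw [h, Polynomial.natDegree_zero] at hφw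
    omega
  have hlead : topv 0 Q.leadingCoeff θ ≠ 0 := by
    rw [hlc, topv_C0]
    exact_mod_cast hφ0
  have hld : Q.leadingCoeff.totalDegree ≤ 0 := by rw [hlc, totalDegree_C]
  have hF' : F.totalDegree ≤ φ.natDegree * j := by rw [hwd]; exact hF
  have htop' : topv (φ.natDegree * j) F θ ≠ 0 := by rw [hwd]; exact htop
  have hdeg := hy_hdeg (h := φ) (M := F) hφw (E := j) hF'
  have hsep := hy_sep (h := φ) (M := F) hφw (E := j) hj (θ := θ) htop'
  have hfv : ∀ (n : ℕ) (z : ℂ), (Q.map (evx (q n) (x n) ℂ)).eval z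
      = ∑ m ∈ P.support, ((coeff m P : ℤ) : ℂ) * z ^ (b * m 0 + a * m 1)
        - ((eval (px (q n) (x n)) F : ℤ) : ℂ) := by
    intro n z
    rw [hQ, hy, Polynomial.map_sub, Polynomial.map_C, Polynomial.map_map, Polynomial.eval_sub,
      Polynomial.eval_C]
    have h1 : (evx (q n) (x n) ℂ).comp (C : ℤ →+* MvPolynomial (Option σ) ℤ) = Int.castRingHom ℂ :=
      RingHom.ext_int _ _
    rw [h1, Polynomial.eval_map, hφ, curve_eval]
    rfl
  have hft : Sm q (w * j + e0) (fun n => (Q.map (evx (q n) (x n) ℂ)).eval (t n)) := by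
    have h1 := Sm.sum H.big P.support (e := w * j + e0)
      (fun m n => ((coeff m P : ℤ) : ℂ) * (t n ^ (b * m 0 + a * m 1)
        * -(k1 n ^ (m 0) * k2 n ^ (m 1) - 1))) (by
        intro m hm
        have h2 := one_mul' H.big he0neg (one_pow' H.big he0neg hk1e (m 0))
          (one_pow' H.big he0neg hk2e (m 1))
        have h3 := Sm.mul H.big (Sm.const H.big ((coeff m P : ℤ) : ℂ)) (Sm.mul H.big
          (Sm.pow H.big htS (b * m 0 + a * m 1)) h2.neg)
        refine h3.mono H.big ?_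
        have h4 : ((b * m 0 + a * m 1 : ℕ) : ℝ) ≤ w := by exact_mod_cast hwt m hm
        have h5 := mul_le_mul_of_nonneg_right h4 (show (0 : ℝ) ≤ j by linarith)
        linarith)
    refine h1.congr (Eventually.of_forall fun n => ?_)
    rw [hfv, ← hval n, ← Finset.sum_sub_distrib]
    refine Finset.sum_congr rfl fun m _ => ?_
    ring
  obtain ⟨ρ, hρ0, hρ⟩ := near_gen S hS halg hind H (by rw [hQd]; exact hw) hlead hld hdeg hsep t hft
  have hρ' : Sm q (j + e0) (fun n => t n - ρ n) := by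
    refine hρ.mono H.big (le_of_eq ?_)
    rw [hQd]
    have : (((w - 1) * j + 0 : ℕ) : ℝ) = ((w : ℝ) - 1) * j := by
      rw [add_zero, Nat.cast_mul, Nat.cast_sub (by omega)]
      push_cast
      ring
    rw [this]
    ring
  have hρS : Sm q j ρ := by
    have h1 := Sm.sub H.big htS (hρ'.mono H.big (show (j : ℝ) + e0 ≤ j by linarith))
    refine h1.congr (Eventually.of_forall fun n => ?_)
    ring
  have hpow : ∀ k : ℕ, 0 < k → Sm q (k * j + e0) (fun n => t n ^ k - ρ n ^ k) := by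
    intro k h0
    have h1 : Sm q ((k - 1 : ℝ) * j) (fun n => ∑ i ∈ Finset.range k, t n ^ i * ρ n ^ (k - 1 - i)) := by
      refine Sm.sum H.big _ _ fun i hi => ?_
      have hi' := Finset.mem_range.1 hi
      refine (Sm.mul H.big (Sm.pow H.big htS i) (Sm.pow H.big hρS (k - 1 - i))).mono H.big
        (le_of_eq ?_)
      have h4 : ((k - 1 - i : ℕ) : ℝ) = (k : ℝ) - 1 - i := by
        rw [Nat.cast_sub (by omega), Nat.cast_sub (by omega)]
        push_cast
        ring
      rw [h4]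
      ring
    have h2 := Sm.mul H.big h1 hρ'
    refine (h2.mono H.big (le_of_eq (by ring))).congr (Eventually.of_forall fun n => ?_)
    rw [geom_sum₂_mul]
  have hmin : 0 < min ε 1 := lt_min hε one_pos
  have hmin1 : min ε 1 ≤ ε := min_le_left _ _
  have hmin2 : min ε 1 ≤ 1 := min_le_right _ _
  have hstep : ∀ (k : ℕ) (z : ℕ → ℤ), Sm q (-min ε 1) (fun n => (z n : ℂ) - ρ n ^ k) →
      ∃ G : MvPolynomial (Option σ) ℚ, G.totalDegree ≤ k * j ∧ ∀ᶠ n in (UU : Filter ℕ),
        (z n : ℚ) = va (q n) (x n) G := by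
    intro k z hz
    obtain ⟨cf, hcf⟩ := root_pow_exp H halg hlead hdeg hsep ρ hρ0 k
    obtain ⟨G, hG1, hG⟩ := engineT S hS halg hind H (k * j) (fun _ => 1) (fun _ => one_ne_zero)
      (fun _ => by simp) 0 0 (fun n => by simp) z cf (min ε 1) hmin (by
        refine (Sm.add H.big hz (hcf.mono H.big (show (-1 : ℝ) ≤ -min ε 1 by linarith))).congr
          (Eventually.of_forall fun n => ?_)
        simp only [pow_zero, Nat.cast_one, div_one, one_mul]
        ring)
    refine ⟨G, hG1, ?_⟩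
    filter_upwards [hG] with n hn
    rw [hn]
    simp
  obtain ⟨G, hG1, hG⟩ := hstep b X (by
    have h0 := Sm.mul H.big hk1e (Sm.pow H.big htS b)
    have h1 := Sm.add H.big (h0.mono H.big (show e0 + (b : ℝ) * j ≤ b * j + e0 by linarith))
      (hpow b hb)
    refine (h1.mono H.big (show (b : ℝ) * j + e0 ≤ -min ε 1 by
      rw [he0]
      nlinarith)).congr (Eventually.of_forall fun n => ?_)
    rw [hXt n]
    ring)
  obtain ⟨G2, -, hG2⟩ := hstep a Y (by
    have h0 := Sm.mul H.big hk2e (Sm.pow H.big htS a)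
    have h1 := Sm.add H.big (h0.mono H.big (show e0 + (a : ℝ) * j ≤ a * j + e0 by linarith))
      (hpow a ha)
    refine (h1.mono H.big (show (a : ℝ) * j + e0 ≤ -min ε 1 by
      rw [he0]
      nlinarith)).congr (Eventually.of_forall fun n => ?_)
    rw [hYt n]
    ring)
  refine ⟨G, G2, hG1, ?_⟩
  filter_upwards [hG, hG2] with n h1 h2
  exact ⟨h1, h2⟩

end

end Pool.Agent.Q4.Hyp
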