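import Mathlib
import Pool.Agent.Q4.Hyp.PairSeq

set_option autoImplicit false
set_option linter.unusedSectionVars false

/-!
# Powers of two integers with a polynomial relation to a point near a ray: theorem
-/

namespace Pool.Agent.Q4.Hyp

open Filter Topology Pool.Agent.TH932.Abs Pool.Agent.TH932.Germs Pool.Agent.TH932.Chi
open Pool.Agent.TH796.AL Pool.Agent.Q4.Blk Pool.Agent.Q4.Gcd Pool.Agent.Q4.Cov Module MvPolynomial
open Pool.Agent.Q4.Tube Pool.Agent.Q4.Hall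

section
variable {σ : Type} [Fintype σ] [DecidableEq σ]
variable (S : Finset ℕ) (hS : ∀ p ∈ S, p.Prime) {θ : σ → ℝ} (halg : ∀ s, IsAlgebraic ℚ (θ s))
  (hind : LinearIndependent ℚ (fun o : Option σ => (o.elim 1 (fun s => θ s) : ℝ)))
  {q : ℕ → ℕ} {x : ℕ → σ → ℤ} (H : Tub S θ q x)

include hS halg hind H

/-- **The theorem for sequences.** -/
theorem pair_seq {P : MvPolynomial (Fin 2) ℤ} {a b w : ℕ} (ha : 0 < a) (hb : 0 < b)
    (hab : Nat.Coprime a b) (hwd : (curve a b P).natDegree = w)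
    (hwt : ∀ m ∈ P.support, b * m 0 + a * m 1 ≤ w)
    (hw : 0 < w) {F : MvPolynomial (Option σ) ℤ} {j : ℕ} (hF : F.totalDegree ≤ w * j) (hj : 0 < j)
    (htop : topv (w * j) F θ ≠ 0) (X Y : ℕ → ℤ) (hX : ∀ n, X n ≠ 0) (hY : ∀ n, Y n ≠ 0)
    (hXY : ∀ n, pv P (X n) (Y n) = eval (px (q n) (x n)) F) (hne : ∀ n, X n ^ a ≠ Y n ^ b)
    {ε : ℝ} (hε : 0 < ε)
    (hΛ : ∀ n, |(X n : ℝ) ^ a / (Y n : ℝ) ^ b - 1| * (|(X n : ℝ)| * |(Y n : ℝ)|)
      ≤ (q n : ℝ) ^ (1 - ε)) : False := by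
  classical
  have hjr : (1 : ℝ) ≤ j := by exact_mod_cast hj
  have har : (1 : ℝ) ≤ a := by exact_mod_cast ha
  have hbr : (1 : ℝ) ≤ b := by exact_mod_cast hb
  have hYc : ∀ n, (Y n : ℂ) ≠ 0 := fun n => by exact_mod_cast hY n
  obtain ⟨hYS, hLe, G, G2, hGd, hG⟩ := pair_poly S hS halg hind H ha hb hab hwd hwt hw hF hj htop X Y
    hX hY hXY hε (by
      intro ε' hε'
      refine Eventually.of_forall fun n => ?_
      have h1 : ((X n : ℂ) ^ a / (Y n : ℂ) ^ b - 1) * (X n * Y n)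
          = ((((X n : ℝ) ^ a / (Y n : ℝ) ^ b - 1) * ((X n : ℝ) * (Y n : ℝ)) : ℝ) : ℂ) := by
        push_cast
        rfl
      beta_reduce
      rw [h1, Complex.norm_real, Real.norm_eq_abs, abs_mul, abs_mul]
      exact (hΛ n).trans (Real.rpow_le_rpow_of_exponent_le (qone H.big n) (by linarith)))
  set R : MvPolynomial (Option σ) ℚ := G2 ^ b - G ^ a with hR
  have hRv : ∀ᶠ n in (UU : Filter ℕ), va (q n) (x n) R = (Y n : ℚ) ^ b - (X n : ℚ) ^ a := by
    filter_upwards [hG] with n hn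
    rw [hR, map_sub, map_pow, map_pow, ← hn.1, ← hn.2]
  have hR0 : R ≠ 0 := by
    intro h
    obtain ⟨n, hn⟩ := hRv.exists
    rw [h, map_zero] at hn
    apply hne n
    have h2 : (Y n : ℚ) ^ b = (X n : ℚ) ^ a := (sub_eq_zero.1 hn.symm)
    exact_mod_cast h2.symm
  -- the identity
  have hid : pv P G G2 = map (Int.castRingHom ℚ) F := by
    apply va_inj S hS halg hind H
    filter_upwards [hG] with n hn
    have h2 : va (q n) (x n) (pv P G G2) = pv P (va (q n) (x n) G) (va (q n) (x n) G2) :=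
      hom_pv (va (q n) (x n)).toRingHom P G G2
    rw [h2, ← hn.1, ← hn.2, map_px, ← hXY n]
    exact (hom_pv (Int.castRingHom ℚ) P (X n) (Y n)).symm
  have hr : Psi θ G2 ^ b - Psi θ G ^ a = Psi θ R := by
    rw [hR, map_sub, map_pow, map_pow]
  set eR : ℝ := 1 - ε - (a + b) * j + a * b * j with heR
  have hRs : Sm q eR (fun n => ((va (q n) (x n) R : ℚ) : ℂ)) := by
    have h1 := Sm.mul H.big hLe.neg (Sm.pow H.big hYS b)
    refine (h1.mono H.big (le_of_eq (by rw [heR]; ring))).congr ?_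
    filter_upwards [hRv] with n hn
    rw [hn]
    push_cast
    have h2 := pow_ne_zero b (hYc n)
    field_simp
    ring
  have heR0 : 0 ≤ eR := by
    refine sm_low H.big hRs fun ε' hε' => ?_
    filter_upwards [hRv] with n hn
    rw [hn]
    have h1 : (((Y n : ℚ) ^ b - (X n : ℚ) ^ a : ℚ) : ℂ) = ((Y n ^ b - X n ^ a : ℤ) : ℂ) := by
      push_cast
      rfl
    rw [h1, Complex.norm_intCast]
    have h2 : (1 : ℝ) ≤ |((Y n ^ b - X n ^ a : ℤ) : ℝ)| := by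
      exact_mod_cast Int.one_le_abs (sub_ne_zero.2 fun h => hne n h.symm)
    refine le_trans ?_ h2
    exact Real.rpow_le_one_of_one_le_of_nonpos (qone H.big n) (by linarith)
  have hdegR : ((Psi θ R).natDegree : ℝ) ≤ eR := deg_le_of_sm S hS halg hind H R heR0 hRs
  have hrd : (Psi θ G2 ^ b - Psi θ G ^ a).natDegree < a * b * j := by
    rw [hr]
    have h1 : ((Psi θ R).natDegree : ℝ) < ((a * b * j : ℕ) : ℝ) := by
      refine lt_of_le_of_lt hdegR ?_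
      rw [heR]
      push_cast
      nlinarith
    exact_mod_cast h1
  have hfd : (Psi θ G).natDegree = b * j := by
    have h1 : (Psi θ G).natDegree ≤ b * j :=
      Phi_le θ ((Finset.sup_mono (support_map_subset _ _)).trans hGd)
    by_contra h2
    have h3 := pair_deg (Psi θ G) (Psi θ G2) P ha hw hj hwt (by omega) hrd
    rw [← hom_pv, hid, Psi_int, Phi_eq θ hF htop] at h3
    exact lt_irrefl _ h3
  have hdav := dav (Psi θ G) (Psi θ G2) a b (b * j) (a * j) hfd (Nat.mul_pos hb hj) hb ha (by ring) (by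
    intro h
    apply hR0
    apply Psi_inj θ
    rw [← hr, h, sub_self, map_zero])
  rw [hr] at hdav
  obtain ⟨a', rfl⟩ : ∃ a', a = a' + 1 := ⟨a - 1, by omega⟩
  rw [Nat.add_sub_cancel] at hdav
  have h5 : ((a' * (b * j) + 1 : ℕ) : ℝ) ≤ (((Psi θ R).natDegree + (a' + 1) * j : ℕ) : ℝ) := by
    exact_mod_cast hdav
  push_cast at h5 hdegR
  rw [heR] at hdegR
  push_cast at hdegR
  nlinarith

end

section
variable {σ : Type} [Fintype σ] [DecidableEq σ]

/-- **The theorem.** -/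
theorem pair_main (S : Finset ℕ) (hS : ∀ p ∈ S, p.Prime) {θ : σ → ℝ}
    (halg : ∀ s, IsAlgebraic ℚ (θ s))
    (hind : LinearIndependent ℚ (fun o : Option σ => (o.elim 1 (fun s => θ s) : ℝ)))
    {P : MvPolynomial (Fin 2) ℤ} {a b w : ℕ} (ha : 0 < a) (hb : 0 < b)
    (hab : Nat.Coprime a b) (hwd : (curve a b P).natDegree = w)
    (hwt : ∀ m ∈ P.support, b * m 0 + a * m 1 ≤ w)
    (hw : 0 < w) {F : MvPolynomial (Option σ) ℤ} {j : ℕ} (hF : F.totalDegree ≤ w * j) (hj : 0 < j)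
    (htop : topv (w * j) F θ ≠ 0) {ε : ℝ} (hε : 0 < ε) :
    ∃ (η : ℝ) (N : ℕ), 0 < η ∧ ∀ q ≥ N, ∀ x, Near S θ η q x → ∀ X Y : ℤ, X ≠ 0 → Y ≠ 0 →
      eval (fun i : Fin 2 => if i = 0 then X else Y) P = eval (px q x) F → X ^ a ≠ Y ^ b →
      (q : ℝ) ^ (1 - ε) < |(X : ℝ) ^ a / (Y : ℝ) ^ b - 1| * (|(X : ℝ)| * |(Y : ℝ)|) := by
  classical
  obtain ⟨η, N, hη, h⟩ := none_left S θ (Δ := ℤ × ℤ) (fun q x d => d.1 ≠ 0 ∧ d.2 ≠ 0 ∧
    pv P d.1 d.2 = eval (px q x) F ∧ d.1 ^ a ≠ d.2 ^ b ∧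
      |(d.1 : ℝ) ^ a / (d.2 : ℝ) ^ b - 1| * (|(d.1 : ℝ)| * |(d.2 : ℝ)|) ≤ (q : ℝ) ^ (1 - ε)) (by
    intro q x d H hd
    exact pair_seq S hS halg hind H ha hb hab hwd hwt hw hF hj htop (fun n => (d n).1)
      (fun n => (d n).2) (fun n => (hd n).1) (fun n => (hd n).2.1) (fun n => (hd n).2.2.1)
      (fun n => (hd n).2.2.2.1) hε (fun n => (hd n).2.2.2.2))
  refine ⟨η, N, hη, fun q hq x hx X Y hX hY h1 h2 => ?_⟩
  by_contra hcon
  rw [pv_int] at h1
  exact h q hq x hx (X, Y) ⟨hX, hY, h1, h2, not_lt.1 hcon⟩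

end

end Pool.Agent.Q4.Hyp
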