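import Mathlib
import Pool.Agent.Q4.Hyp.PairMain

set_option autoImplicit false
set_option linter.unusedSectionVars false

/-!
# The logarithmic form
-/

namespace Pool.Agent.Q4.Hyp

open Filter Topology Pool.Agent.TH932.Abs Pool.Agent.TH932.Germs Pool.Agent.TH932.Chi
open Pool.Agent.TH796.AL Pool.Agent.Q4.Blk Pool.Agent.Q4.Gcd Pool.Agent.Q4.Cov Module MvPolynomial
open Pool.Agent.Q4.Tube Pool.Agent.Q4.Hall

section
variable {σ : Type} [Fintype σ] [DecidableEq σ]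
variable (S : Finset ℕ) (hS : ∀ p ∈ S, p.Prime) {θ : σ → ℝ} (halg : ∀ s, IsAlgebraic ℚ (θ s))
  (hind : LinearIndependent ℚ (fun o : Option σ => (o.elim 1 (fun s => θ s) : ℝ)))
  {q : ℕ → ℕ} {x : ℕ → σ → ℤ} (H : Tub S θ q x)

include hS halg hind H

/-- the product of the two integers is large -/
theorem pair_prod {P : MvPolynomial (Fin 2) ℤ} {a b w : ℕ} (ha : 0 < a) (hb : 0 < b)
    (hwt : ∀ m ∈ P.support, b * m 0 + a * m 1 ≤ w)
    (hw : 0 < w) {F : MvPolynomial (Option σ) ℤ} {j : ℕ} (hF : F.totalDegree ≤ w * j) (hj : 0 < j)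
    (htop : topv (w * j) F θ ≠ 0) (X Y : ℕ → ℤ) (hX : ∀ n, X n ≠ 0) (hY : ∀ n, Y n ≠ 0)
    (hXY : ∀ n, pv P (X n) (Y n) = eval (px (q n) (x n)) F) {ε1 : ℝ} (hε1 : 0 < ε1) :
    ∀ᶠ n in (UU : Filter ℕ), (q n : ℝ) ^ (1 - ε1) ≤ ‖(X n : ℂ) * Y n‖ := by
  classical
  have hjr : (1 : ℝ) ≤ j := by exact_mod_cast hj
  have hwr : (0 : ℝ) < w := by exact_mod_cast hw
  have hX1 : ∀ n, (1 : ℝ) ≤ ‖(X n : ℂ)‖ := fun n => by
    rw [Complex.norm_intCast]
    exact_mod_cast Int.one_le_abs (hX n)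
  have hY1 : ∀ n, (1 : ℝ) ≤ ‖(Y n : ℂ)‖ := fun n => by
    rw [Complex.norm_intCast]
    exact_mod_cast Int.one_le_abs (hY n)
  have hlow : ∀ ε : ℝ, 0 < ε → ∀ᶠ n in (UU : Filter ℕ), (q n : ℝ) ^ (((w * j : ℕ) : ℝ) - ε)
      ≤ ‖((eval (px (q n) (x n)) F : ℤ) : ℂ)‖ := by
    intro ε hε
    filter_upwards [low_val S hS halg hind H hF htop hε] with n hn
    rwa [Complex.norm_intCast]
  have hFc : ∀ n, ((eval (px (q n) (x n)) F : ℤ) : ℂ)
      = ∑ m ∈ P.support, ((coeff m P : ℤ) : ℂ) * ((X n : ℂ) ^ (m 0) * (Y n : ℂ) ^ (m 1)) := by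
    intro n
    rw [← hXY n, pv]
    push_cast
    rfl
  by_contra hcon
  have hcon' := Ultrafilter.eventually_not.2 hcon
  set e1 : ℝ := max (1 - ε1) 0 with he1
  have he0 : 0 ≤ e1 := le_max_right _ _
  have hmul : ∀ᶠ n in (UU : Filter ℕ), ‖(X n : ℂ)‖ * ‖(Y n : ℂ)‖ ≤ (q n : ℝ) ^ e1 := by
    filter_upwards [hcon'] with n hn
    rw [norm_mul] at hn
    exact (not_le.1 hn).le.trans (Real.rpow_le_rpow_of_exponent_le (qone H.big n)
      (le_max_left _ _))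
  have hXs : Sm q e1 (fun n => (X n : ℂ)) := by
    intro ε' hε'
    filter_upwards [hmul] with n hn
    exact ((le_mul_of_one_le_right (norm_nonneg _) (hY1 n)).trans hn).trans
      (Real.rpow_le_rpow_of_exponent_le (qone H.big n) (by linarith))
  have hYs : Sm q e1 (fun n => (Y n : ℂ)) := by
    intro ε' hε'
    filter_upwards [hmul] with n hn
    exact ((le_mul_of_one_le_left (norm_nonneg _) (hX1 n)).trans hn).trans
      (Real.rpow_le_rpow_of_exponent_le (qone H.big n) (by linarith))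
  have hFs : Sm q (w * e1) (fun n => ((eval (px (q n) (x n)) F : ℤ) : ℂ)) := by
    have h1 := Sm.sum H.big P.support (e := w * e1)
      (fun m n => ((coeff m P : ℤ) : ℂ) * ((X n : ℂ) ^ (m 0) * (Y n : ℂ) ^ (m 1))) (by
        intro m hm
        have h2 := Sm.mul H.big (Sm.const H.big ((coeff m P : ℤ) : ℂ))
          (Sm.mul H.big (Sm.pow H.big hXs (m 0)) (Sm.pow H.big hYs (m 1)))
        refine h2.mono H.big ?_
        have h3 : m 0 + m 1 ≤ w := by
          have h4 := hwt m hm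
          have h5 : m 0 ≤ b * m 0 := Nat.le_mul_of_pos_left _ hb
          have h6 : m 1 ≤ a * m 1 := Nat.le_mul_of_pos_left _ ha
          omega
        have h4 : ((m 0 + m 1 : ℕ) : ℝ) ≤ w := by exact_mod_cast h3
        have h5 := mul_le_mul_of_nonneg_right h4 he0
        push_cast at h5
        linarith)
    exact h1.congr (Eventually.of_forall fun n => hFc n)
  have h1 := sm_low H.big hFs hlow
  push_cast at h1
  have h2 : (j : ℝ) ≤ e1 := le_of_mul_le_mul_left h1 hwr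
  have h3 : e1 < 1 := max_lt (by linarith) one_pos
  linarith

end

section
variable {σ : Type} [Fintype σ] [DecidableEq σ]

/-- the product of the two integers is large -/
theorem prod_main (S : Finset ℕ) (hS : ∀ p ∈ S, p.Prime) {θ : σ → ℝ}
    (halg : ∀ s, IsAlgebraic ℚ (θ s))
    (hind : LinearIndependent ℚ (fun o : Option σ => (o.elim 1 (fun s => θ s) : ℝ)))
    {P : MvPolynomial (Fin 2) ℤ} {a b w : ℕ} (ha : 0 < a) (hb : 0 < b)
    (hwt : ∀ m ∈ P.support, b * m 0 + a * m 1 ≤ w)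
    (hw : 0 < w) {F : MvPolynomial (Option σ) ℤ} {j : ℕ} (hF : F.totalDegree ≤ w * j) (hj : 0 < j)
    (htop : topv (w * j) F θ ≠ 0) {ε : ℝ} (hε : 0 < ε) :
    ∃ (η : ℝ) (N : ℕ), 0 < η ∧ ∀ q ≥ N, ∀ x, Near S θ η q x → ∀ X Y : ℤ, X ≠ 0 → Y ≠ 0 →
      eval (fun i : Fin 2 => if i = 0 then X else Y) P = eval (px q x) F →
      (q : ℝ) ^ (1 - ε) ≤ |(X : ℝ)| * |(Y : ℝ)| := by
  classical
  obtain ⟨η, N, hη, h⟩ := none_left S θ (Δ := ℤ × ℤ) (fun q x d => d.1 ≠ 0 ∧ d.2 ≠ 0 ∧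
    pv P d.1 d.2 = eval (px q x) F ∧ |(d.1 : ℝ)| * |(d.2 : ℝ)| < (q : ℝ) ^ (1 - ε)) (by
    intro q x d H hd
    obtain ⟨n, hn⟩ := (pair_prod S hS halg hind H ha hb hwt hw hF hj htop (fun n => (d n).1)
      (fun n => (d n).2) (fun n => (hd n).1) (fun n => (hd n).2.1) (fun n => (hd n).2.2.1) hε).exists
    rw [norm_mul, Complex.norm_intCast, Complex.norm_intCast] at hn
    exact absurd (hd n).2.2.2 (not_lt.2 hn))
  refine ⟨η, N, hη, fun q hq x hx X Y hX hY h1 => ?_⟩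
  by_contra hcon
  rw [pv_int] at h1
  exact h q hq x hx (X, Y) ⟨hX, hY, h1, not_le.1 hcon⟩

/-- **The theorem**, logarithmic form. -/
theorem pair_log (S : Finset ℕ) (hS : ∀ p ∈ S, p.Prime) {θ : σ → ℝ}
    (halg : ∀ s, IsAlgebraic ℚ (θ s))
    (hind : LinearIndependent ℚ (fun o : Option σ => (o.elim 1 (fun s => θ s) : ℝ)))
    {P : MvPolynomial (Fin 2) ℤ} {a b w : ℕ} (ha : 0 < a) (hb : 0 < b)
    (hab : Nat.Coprime a b) (hwd : (curve a b P).natDegree = w)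
    (hwt : ∀ m ∈ P.support, b * m 0 + a * m 1 ≤ w)
    (hw : 0 < w) {F : MvPolynomial (Option σ) ℤ} {j : ℕ} (hF : F.totalDegree ≤ w * j) (hj : 0 < j)
    (htop : topv (w * j) F θ ≠ 0) {ε : ℝ} (hε : 0 < ε) :
    ∃ (η : ℝ) (N : ℕ), 0 < η ∧ ∀ q ≥ N, ∀ x, Near S θ η q x → ∀ X Y : ℤ, 0 < X → 0 < Y →
      eval (fun i : Fin 2 => if i = 0 then X else Y) P = eval (px q x) F →
      a * Real.log X - b * Real.log Y ≠ 0 →
      (q : ℝ) ^ (1 - ε) < |a * Real.log X - b * Real.log Y| * (X * Y) := by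
  obtain ⟨η1, N1, hη1, h1⟩ := pair_main S hS halg hind ha hb hab hwd hwt hw hF hj htop (half_pos hε)
  obtain ⟨η2, N2, hη2, h2⟩ := prod_main S hS halg hind ha hb hwt hw hF hj htop hε
  obtain ⟨N3, hN3⟩ : ∃ N3 : ℕ, ∀ q ≥ N3, (2 : ℝ) < (q : ℝ) ^ (ε / 2) := by
    have h3 := (tendsto_rpow_atTop (half_pos hε)).comp tendsto_natCast_atTop_atTop
    have h4 := h3.eventually_gt_atTop 2
    rw [eventually_atTop] at h4
    exact h4
  refine ⟨min η1 η2, max (max N1 N2) (max N3 1), lt_min hη1 hη2,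
    fun q hq x hx X Y hX hY hXY hΛ => ?_⟩
  have hq1 : N1 ≤ q := ((le_max_left _ _).trans (le_max_left _ _)).trans hq
  have hq2 : N2 ≤ q := ((le_max_right _ _).trans (le_max_left _ _)).trans hq
  have hq3 : N3 ≤ q := ((le_max_left _ _).trans (le_max_right _ _)).trans hq
  have hq4 : 1 ≤ q := ((le_max_right _ _).trans (le_max_right _ _)).trans hq
  have hqp : (0 : ℝ) < q := by exact_mod_cast hq4
  have hXr : (0 : ℝ) < X := by exact_mod_cast hX
  have hYr : (0 : ℝ) < Y := by exact_mod_cast hY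
  set Λ : ℝ := a * Real.log X - b * Real.log Y with hL
  have hexp : Real.exp Λ = (X : ℝ) ^ a / (Y : ℝ) ^ b := by
    rw [hL, Real.exp_sub, mul_comm (a : ℝ), mul_comm (b : ℝ), ← Real.rpow_def_of_pos hXr,
      ← Real.rpow_def_of_pos hYr, Real.rpow_natCast, Real.rpow_natCast]
  have hne : X ^ a ≠ Y ^ b := by
    intro h5
    apply hΛ
    have h6 : (X : ℝ) ^ a = (Y : ℝ) ^ b := by exact_mod_cast h5
    have h7 : Real.exp Λ = 1 := by
      rw [hexp, h6]
      exact div_self (by positivity)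
    rwa [Real.exp_eq_one_iff] at h7
  have h5 := h1 q hq1 x (Near.mono (min_le_left _ _) hq4 hx) X Y hX.ne' hY.ne' hXY hne
  have h6 := h2 q hq2 x (Near.mono (min_le_right _ _) hq4 hx) X Y hX.ne' hY.ne' hXY
  rw [← hexp, abs_of_pos hXr, abs_of_pos hYr] at h5
  rw [abs_of_pos hXr, abs_of_pos hYr] at h6
  have hXYp : (0 : ℝ) < X * Y := by positivity
  rcases le_or_gt |Λ| 1 with h7 | h7
  · have h8 := Real.abs_exp_sub_one_le h7
    have h9 : (q : ℝ) ^ (1 - ε / 2) < 2 * |Λ| * (X * Y) :=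
      h5.trans_le (mul_le_mul_of_nonneg_right h8 hXYp.le)
    have h10 : (q : ℝ) ^ (1 - ε / 2) = (q : ℝ) ^ (1 - ε) * (q : ℝ) ^ (ε / 2) := by
      rw [← Real.rpow_add hqp]
      congr 1
      ring
    have h11 : (0 : ℝ) < (q : ℝ) ^ (1 - ε) := by positivity
    have h12 := mul_lt_mul_of_pos_left (hN3 q hq3) h11
    rw [h10] at h9
    linarith
  · refine lt_of_le_of_lt h6 ?_
    exact lt_mul_of_one_lt_left hXYp h7

end

end Pool.Agent.Q4.Hyp
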