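import Mathlib
import Pool.Agent.Q4.Hall.OptLang
import Pool.Agent.Q4.Hall.Root
import Pool.Agent.Q4.Hyp.RegMain

set_option autoImplicit false
set_option linter.unusedSectionVars false

/-!
# Hall's inequality when a regular function takes the value of a polynomial at nearly optimal
approximations
-/

namespace Pool.Agent.Q4.Hyp

open Filter Topology Pool.Agent.TH932.Abs Pool.Agent.TH932.Germs Pool.Agent.TH932.Chi
open Pool.Agent.TH796.AL Pool.Agent.Q4.Blk Pool.Agent.Q4.Gcd Pool.Agent.Q4.Cov Module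
open Pool.Agent.Q4.Tube hiding Near sm_fr sm_vs sm_dl dl_tendsto dl_le_one sm_ord sm_any lim_evr branch' expand' px_ne root_bnd approxS root_exp deriv_seq sm_px
open Pool.Agent.Q4.Opt
open Pool.Agent.Q4.Hall
open MvPolynomial

section
variable {σ : Type} [Fintype σ] [DecidableEq σ]

/-- expansion of the powers of the roots -/
theorem root_pow_expN {θ : σ → ℝ} {q : ℕ → ℕ} {x : ℕ → σ → ℤ} (H : Nr θ q x)
    {P : Polynomial (MvPolynomial (Option σ) ℤ)} {D d : ℕ} (halg : ∀ s, IsAlgebraic ℚ (θ s)) (hlead : topv d P.leadingCoeff θ ≠ 0)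
    (hdeg : ∀ i, (P.coeff i).totalDegree ≤ (P.natDegree - i) * D + d)
    (hsep : (pnf P D d θ).Separable)
    (ρ : ℕ → ℂ) (hρ : ∀ᶠ n in (UU : Filter ℕ), (P.map (evx (q n) (x n) ℂ)).eval (ρ n) = 0) (k : ℕ) :
    ∃ c : Ex (Option σ) (k * D) → QB, Sm q (-1) (fun n => ρ n ^ k
      - ∑ a, phi (c a) * ((zv θ (q n) (x n) a.1 : ℝ) : ℂ)) := by
  have hqn0 : ∀ n, q n ≠ 0 := px_ne H
  set θK : σ → QB := fun s => ⟨(θ s : ℂ), mem_algebraicClosure_iff.2 (alg_of_real.2 (halg s))⟩ with hθK
  have hθ : ∀ s, phi (θK s) = (θ s : ℂ) := fun s => rfl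
  have hlead' : topv d P.leadingCoeff θK ≠ 0 := by
    intro h
    have h1 := topv_map phi d P.leadingCoeff θK
    rw [h, map_zero] at h1
    have h2 := topv_map (algebraMap ℝ ℂ) d P.leadingCoeff θ
    have h3 : (fun s => phi (θK s)) = fun s => algebraMap ℝ ℂ (θ s) := rfl
    rw [h3, ← h2] at h1
    exact hlead ((map_eq_zero _).1 h1.symm)
  obtain ⟨M, hM⟩ := root_bnd (P := P) (D := D) (d := d) H θK hlead' hdeg
  have hcc := ptl_cc hdeg θK
  have hp0 : (ptl P D d θK).map constantCoeff ≠ 0 := by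
    rw [hcc]
    intro h
    have h1 := pnf_coeff_top (P := P) (D := D) (d := d) θK
    rw [h, Polynomial.coeff_zero] at h1
    exact hlead' h1.symm
  have hsep' : ∀ η : QB, ((ptl P D d θK).map constantCoeff).eval η = 0 →
      ((ptl P D d θK).map constantCoeff).derivative.eval η ≠ 0 := by
    rw [hcc]
    intro η h1 h2
    have h3 : (pnf P D d (fun s => (θ s : ℂ))).Separable := by
      have h4 := hsep.map (f := algebraMap ℝ ℂ)
      rw [pnf_map] at h4
      exact h4
    have h4 : (pnf P D d θK).map phi = pnf P D d (fun s => (θ s : ℂ)) := pnf_map phi θK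
    rw [← h4] at h3
    obtain ⟨a, b, hab⟩ := h3
    have h5 := congrArg (Polynomial.eval (phi η)) hab
    rw [Polynomial.eval_add, Polynomial.eval_mul, Polynomial.eval_mul, Polynomial.derivative_map,
      Polynomial.eval_map_apply, Polynomial.eval_map_apply, h1, h2] at h5
    simp at h5
  set Y : ℕ → ℂ := fun n => ρ n / (q n : ℂ) ^ D with hY
  have hroot : ∀ᶠ n in (UU : Filter ℕ), ((ptl P D d θK).map (evr phi (vs θ q x n))).eval (Y n) = 0 := by
    filter_upwards [hρ] with n h1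
    have hqc : (q n : ℂ) ≠ 0 := by exact_mod_cast hqn0 n
    rw [← ptl_eval hθ hdeg (hqn0 n) (x n) (ρ n)] at h1
    exact (mul_eq_zero.1 h1).resolve_left (pow_ne_zero _ hqc)
  have hYb : ∀ᶠ n in (UU : Filter ℕ), ‖Y n‖ ≤ M := by
    filter_upwards [hM, hroot] with n h1 h2
    exact h1 _ h2
  obtain ⟨E, hE⟩ := approxS H (ptl P D d θK) hp0 hsep' Y M hYb hroot (k * D)
  obtain ⟨c, hc⟩ := expand' phi H (E ^ k) (k * D)
  refine ⟨c, ?_⟩
  have hY0 : Sm q 0 Y := by
    refine (Sm.const H.big (M : ℂ)).le ?_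
    filter_upwards [hYb] with n hn
    rw [Complex.norm_real, Real.norm_eq_abs]
    exact hn.trans (le_abs_self _)
  have hE0 : Sm q 0 (fun n => evr phi (vs θ q x n) E) := sm_any phi H E
  have hpow : Sm q (-(k * D + 1 : ℕ)) (fun n => Y n ^ k - evr phi (vs θ q x n) (E ^ k)) := by
    have h1 : Sm q 0 (fun n => ∑ i ∈ Finset.range k, Y n ^ i
        * (evr phi (vs θ q x n) E) ^ (k - 1 - i)) := by
      refine Sm.sum H.big _ _ fun i _ => ?_
      have h2 := Sm.mul H.big (Sm.pow H.big hY0 i) (Sm.pow H.big hE0 (k - 1 - i))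
      simpa using h2
    have h2 := Sm.mul H.big h1 hE
    rw [zero_add] at h2
    refine h2.congr (Eventually.of_forall fun n => ?_)
    rw [map_pow, geom_sum₂_mul]
  have h1 := Sm.mul H.big (Sm.qpow H.big (k * D)) hpow
  have e1 : ((k * D : ℕ) : ℝ) + -((k * D + 1 : ℕ) : ℝ) = -1 := by push_cast; ring
  rw [e1] at h1
  refine (Sm.add H.big h1 hc).congr (Eventually.of_forall fun n => ?_)
  have hqc : (q n : ℂ) ≠ 0 := by exact_mod_cast hqn0 n
  have h2 : (q n : ℂ) ^ (k * D) * Y n ^ k = ρ n ^ k := by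
    rw [hY]
    simp only []
    rw [div_pow, ← pow_mul, mul_comm k D]
    field_simp
  rw [mul_sub, h2]
  ring

end

section
variable {σ : Type} [Fintype σ] [DecidableEq σ]
variable {S : Finset ℕ} {hS : ∀ p ∈ S, p.Prime} {θ : σ → ℝ} {q : ℕ → ℕ} {x : ℕ → σ → ℤ}
  {β : Fin S.card → ℝ} {v : σ → ℝ}

/-- complex numbers where a polynomial is small are close to roots -/
theorem near_genO (H : Ext S hS θ q x β v) (halg : ∀ s, IsAlgebraic ℚ (θ s)) {P : Polynomial (MvPolynomial (Option σ) ℤ)} {D d : ℕ} (hk : 0 < P.natDegree)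
    (hlead : topv d P.leadingCoeff θ ≠ 0) (hld : P.leadingCoeff.totalDegree ≤ d)
    (hdeg : ∀ i, (P.coeff i).totalDegree ≤ (P.natDegree - i) * D + d)
    (hsep : (pnf P D d θ).Separable) (t : ℕ → ℂ) {e : ℝ}
    (ht : Sm q e (fun n => (P.map (evx (q n) (x n) ℂ)).eval (t n))) :
    ∃ ρ : ℕ → ℂ, (∀ᶠ n in (UU : Filter ℕ), (P.map (evx (q n) (x n) ℂ)).eval (ρ n) = 0) ∧
      Sm q (e - (((P.natDegree - 1) * D + d : ℕ) : ℝ)) (fun n => t n - ρ n) := by
  classical
  set b := P.natDegree with hb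
  set f : ℕ → Polynomial ℂ := fun n => P.map (evx (q n) (x n) ℂ) with hf
  have hl0 : ∀ᶠ n in (UU : Filter ℕ), evx (q n) (x n) ℂ P.leadingCoeff ≠ 0 := by
    filter_upwards [low_valN H.nr halg hld hlead one_pos] with n hn h0
    have h1 : eval (px (q n) (x n)) P.leadingCoeff = 0 := by
      have : ((eval (px (q n) (x n)) P.leadingCoeff : ℤ) : ℂ) = 0 := h0
      exact_mod_cast this
    rw [h1, Int.cast_zero, abs_zero] at hn
    have := qpos H.big n
    have h2 : 0 < (q n : ℝ) ^ ((d : ℝ) - 1) := by positivity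
    linarith
  have hfd : ∀ᶠ n in (UU : Filter ℕ), (f n).natDegree = b := by
    filter_upwards [hl0] with n hn
    exact Polynomial.natDegree_map_of_leadingCoeff_ne_zero _ hn
  have hnear : ∀ n, ∃ ρ : ℂ, 0 < (f n).natDegree → (f n).eval ρ = 0 ∧
      ‖t n - ρ‖ * ‖(f n).derivative.eval ρ‖ ≤ 2 ^ ((f n).natDegree - 1)
        * ‖(f n).eval (t n)‖ := by
    intro n
    by_cases h : 0 < (f n).natDegree
    · obtain ⟨ρ, hρ⟩ := nearest (f n) h (t n)
      exact ⟨ρ, fun _ => hρ⟩
    · exact ⟨0, fun h' => absurd h' h⟩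
  choose ρ hρ using hnear
  have hρ0 : ∀ᶠ n in (UU : Filter ℕ), (f n).eval (ρ n) = 0 := by
    filter_upwards [hfd] with n hn
    exact (hρ n (by rw [hn]; exact hk)).1
  obtain ⟨c, hcpos, hder⟩ := deriv_seqN H.nr halg hk hlead hdeg hsep ρ hρ0
  refine ⟨ρ, hρ0, ?_⟩
  have h1 := Sm.mul H.big (Sm.const H.big ((2 ^ (b - 1) / c : ℝ) : ℂ))
    (Sm.mul H.big ht (Sm.pow H.big (Sm.qinv H.big) ((b - 1) * D + d)))
  have e1 : (0 : ℝ) + (e + (((b - 1) * D + d : ℕ) : ℝ) * (-1)) = e - (((b - 1) * D + d : ℕ) : ℝ) := by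
    ring
  rw [e1] at h1
  refine h1.le ?_
  filter_upwards [hder, hfd] with n hn hfdn
  have hqp := qpos H.big n
  have h2 := (hρ n (by rw [hfdn]; exact hk)).2
  rw [hfdn] at h2
  have h3 : ‖t n - ρ n‖ * (c * (q n : ℝ) ^ ((b - 1) * D + d)) ≤ 2 ^ (b - 1)
      * ‖(f n).eval (t n)‖ :=
    (mul_le_mul_of_nonneg_left hn (norm_nonneg _)).trans h2
  have h4 : ‖((2 ^ (b - 1) / c : ℝ) : ℂ) * ((f n).eval (t n)
      * (1 / (q n : ℂ)) ^ ((b - 1) * D + d))‖
      = (2 ^ (b - 1) / c) * (‖(f n).eval (t n)‖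
        * (1 / (q n : ℝ)) ^ ((b - 1) * D + d)) := by
    rw [norm_mul, norm_mul, norm_pow, norm_div, norm_one, Complex.norm_natCast,
      Complex.norm_real, Real.norm_eq_abs, abs_of_nonneg (by positivity)]
  rw [h4]
  have h5 : (2 ^ (b - 1) / c) * (‖(f n).eval (t n)‖
        * (1 / (q n : ℝ)) ^ ((b - 1) * D + d))
      = (2 ^ (b - 1) * ‖(f n).eval (t n)‖)
        / (c * (q n : ℝ) ^ ((b - 1) * D + d)) := by
    rw [one_div, inv_pow]
    field_simp
  rw [h5, le_div_iff₀ (by positivity)]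
  exact h3

/-- sizes of the coordinates -/
theorem reg_sizeO (H : Ext S hS θ q x β v) (halg : ∀ s, IsAlgebraic ℚ (θ s)) {A B : Polynomial ℤ} {F : MvPolynomial (Option σ) ℤ} {j : ℕ}
    (hw : 0 < (cusp A B).natDegree) (hF : F.totalDegree ≤ (cusp A B).natDegree * j) (hj : 0 < j)
    (htop : topv ((cusp A B).natDegree * j) F θ ≠ 0) (X t s : ℕ → ℂ)
    (hval : ∀ n, wf (X n) (t n) (cusp A B) = ((eval (px (q n) (x n)) F : ℤ) : ℂ))
    (ht2 : ∀ n, t n ^ 2 = X n + s n) (hs1 : ∀ n, ‖s n‖ ≤ 1) :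
    (∀ ε : ℝ, 0 < ε → ∀ᶠ n in (UU : Filter ℕ), (q n : ℝ) ^ ((2 * j : ℝ) - ε) ≤ ‖X n‖) ∧
      Sm q j t ∧ Sm q (2 * j) X := by
  classical
  set φ := cusp A B with hφ
  set w := φ.natDegree with hwd
  have hjr : (1 : ℝ) ≤ j := by exact_mod_cast hj
  have hwr : (0 : ℝ) < w := by exact_mod_cast hw
  have hs0 : Sm q 0 s := (Sm.const H.big 1).le (Eventually.of_forall fun n => by
    rw [norm_one]
    exact hs1 n)
  have hlow : ∀ ε : ℝ, 0 < ε → ∀ᶠ n in (UU : Filter ℕ), (q n : ℝ) ^ (((w * j : ℕ) : ℝ) - ε)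
      ≤ ‖((eval (px (q n) (x n)) F : ℤ) : ℂ)‖ := by
    intro ε hε
    filter_upwards [low_valN H.nr halg hF htop hε] with n hn
    rwa [Complex.norm_intCast]
  -- the lower bound
  have hXlow : ∀ ε : ℝ, 0 < ε → ∀ᶠ n in (UU : Filter ℕ), (q n : ℝ) ^ ((2 * j : ℝ) - ε) ≤ ‖X n‖ := by
    intro ε hε
    by_contra hcon
    have hcon' := Ultrafilter.eventually_not.2 hcon
    set e1 : ℝ := max (2 * j - ε) 0 with he1
    have he0 : 0 ≤ e1 := le_max_right _ _
    have hX : Sm q e1 X := by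
      intro ε' hε'
      filter_upwards [hcon'] with n hn
      exact (not_le.1 hn).le.trans (Real.rpow_le_rpow_of_exponent_le (qone H.big n) (by
        have := le_max_left (2 * (j : ℝ) - ε) 0
        linarith))
    have ht : Sm q (e1 / 2) t := by
      apply sm_sqrt
      have h1 : 2 * (e1 / 2) = e1 := by ring
      rw [h1]
      refine (Sm.add H.big hX (hs0.mono H.big he0)).congr (Eventually.of_forall fun n => ?_)
      exact ht2 n
    have hFs : Sm q (w * (e1 / 2)) (fun n => ((eval (px (q n) (x n)) F : ℤ) : ℂ)) := by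
      have h1 := Sm.sum H.big (Finset.range (w + 1)) (e := w * (e1 / 2))
        (fun k n => (φ.coeff k : ℂ) * (X n ^ (k / 2) * t n ^ (k % 2))) (by
          intro k hk
          have h2 := Sm.mul H.big (Sm.const H.big (φ.coeff k : ℂ))
            (Sm.mul H.big (Sm.pow H.big hX (k / 2)) (Sm.pow H.big ht (k % 2)))
          refine h2.mono H.big ?_
          have h3 : ((2 * (k / 2) + k % 2 : ℕ) : ℝ) = k := by
            congr 1
            omega
          have h4 : (k : ℝ) ≤ w := by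
            exact_mod_cast Nat.lt_succ_iff.1 (Finset.mem_range.1 hk)
          have h5 : (0 : ℝ) + (((k / 2 : ℕ) : ℝ) * e1 + ((k % 2 : ℕ) : ℝ) * (e1 / 2))
              = ((2 * (k / 2) + k % 2 : ℕ) : ℝ) * (e1 / 2) := by
            push_cast
            ring
          rw [h5, h3]
          exact mul_le_mul_of_nonneg_right h4 (by linarith))
      refine h1.congr (Eventually.of_forall fun n => ?_)
      rw [← hval n, wf_range]
    have h1 := sm_low H.big hFs hlow
    push_cast at h1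
    have h2 : (j : ℝ) ≤ e1 / 2 := le_of_mul_le_mul_left h1 hwr
    rcases le_total (2 * (j : ℝ) - ε) 0 with h3 | h3
    · rw [he1, max_eq_right h3] at h2
      linarith
    · rw [he1, max_eq_left h3] at h2
      linarith
  -- the upper bound
  have htup : Sm q j t := by
    intro ε hε
    by_contra hcon
    have hcon' := Ultrafilter.eventually_not.2 hcon
    have hτ : Sm q (-(j + ε)) (fun n => 1 / t n) := by
      intro ε' hε'
      filter_upwards [hcon'] with n hn
      rw [not_le] at hn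
      have hqp := qpos H.big n
      rw [norm_div, norm_one, one_div]
      have h1 : (q n : ℝ) ^ (-(j + ε) + ε') = ((q n : ℝ) ^ (j + ε - ε'))⁻¹ := by
        rw [← Real.rpow_neg hqp.le]
        congr 1
        ring
      rw [h1]
      apply inv_anti₀ (by positivity)
      exact (Real.rpow_le_rpow_of_exponent_le (qone H.big n) (by linarith)).trans hn.le
    have ht0 : ∀ᶠ n in (UU : Filter ℕ), t n ≠ 0 := by
      filter_upwards [hcon'] with n hn h0
      apply hn
      rw [h0, norm_zero]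
      have := qpos H.big n
      positivity
    have hτ0 := Sm.tendsto H.big (by linarith : -((j : ℝ) + ε) < 0) hτ
    have hu : Tendsto (fun n => 1 - s n * (1 / t n) ^ 2) (UU : Filter ℕ) (𝓝 1) := by
      have h1 := Sm.mul H.big hs0 (Sm.pow H.big hτ 2)
      have h2 := Sm.tendsto H.big (by push_cast; linarith :
        (0 : ℝ) + ((2 : ℕ) : ℝ) * (-((j : ℝ) + ε)) < 0) h1
      have h3 := (tendsto_const_nhds (x := (1 : ℂ)) (f := (UU : Filter ℕ))).sub h2
      rwa [sub_zero] at h3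
    have hlim : Tendsto (fun n => ∑ k ∈ Finset.range (w + 1), (φ.coeff k : ℂ)
        * ((1 - s n * (1 / t n) ^ 2) ^ (k / 2) * (1 / t n) ^ (w - k))) (UU : Filter ℕ)
        (𝓝 (∑ k ∈ Finset.range (w + 1), (φ.coeff k : ℂ) * ((1 : ℂ) ^ (k / 2) * 0 ^ (w - k)))) :=
      tendsto_finsetSum _ fun k _ => ((hu.pow _).mul (hτ0.pow _)).const_mul _
    have hlimv : ∑ k ∈ Finset.range (w + 1), (φ.coeff k : ℂ) * ((1 : ℂ) ^ (k / 2) * 0 ^ (w - k))
        = φ.coeff w := by
      rw [Finset.sum_range_succ, Finset.sum_eq_zero]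
      · simp
      · intro k hk
        have := Finset.mem_range.1 hk
        rw [zero_pow (by omega)]
        ring
    rw [hlimv] at hlim
    have hzero : Tendsto (fun n => ((eval (px (q n) (x n)) F : ℤ) : ℂ) * (1 / t n) ^ w)
        (UU : Filter ℕ) (𝓝 0) := by
      have h1 := Sm.mul H.big ((H.sm_val F).mono H.big (show ((F.totalDegree : ℕ) : ℝ) ≤ ((w * j : ℕ) : ℝ) by exact_mod_cast hF)) (Sm.pow H.big hτ w)
      refine Sm.tendsto H.big ?_ h1
      push_cast
      have : (w : ℝ) * j + w * (-(j + ε)) = -(w * ε) := by ring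
      rw [this]
      have := mul_pos hwr hε
      linarith
    have heq : (fun n => ((eval (px (q n) (x n)) F : ℤ) : ℂ) * (1 / t n) ^ w)
        =ᶠ[(UU : Filter ℕ)] (fun n => ∑ k ∈ Finset.range (w + 1), (φ.coeff k : ℂ)
        * ((1 - s n * (1 / t n) ^ 2) ^ (k / 2) * (1 / t n) ^ (w - k))) := by
      filter_upwards [ht0] with n hn
      rw [← hval n, wf_range, Finset.sum_mul]
      refine Finset.sum_congr rfl fun k hk => ?_
      have hk' := Nat.lt_succ_iff.1 (Finset.mem_range.1 hk)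
      rw [mul_assoc]
      congr 1
      have h1 : X n = (1 - s n * (1 / t n) ^ 2) * t n ^ 2 := by
        have h2 : X n = t n ^ 2 - s n := by rw [ht2 n]; ring
        rw [h2]
        field_simp
      conv_lhs => rw [h1]
      set u := 1 - s n * (1 / t n) ^ 2
      have h3 : (u * t n ^ 2) ^ (k / 2) * t n ^ (k % 2) = u ^ (k / 2) * t n ^ k := by
        rw [mul_pow, ← pow_mul, mul_assoc, ← pow_add]
        congr 2
        omega
      rw [h3, mul_assoc]
      congr 1
      have h4 : (1 / t n) ^ w = (1 / t n) ^ (w - k) * (1 / t n) ^ k := by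
        rw [← pow_add]
        congr 1
        omega
      rw [h4, one_div, inv_pow, inv_pow]
      field_simp
    have h1 := tendsto_nhds_unique (hzero.congr' heq) hlim
    have h2 : φ.coeff w = 0 := by exact_mod_cast h1.symm
    have h3 : φ.leadingCoeff = 0 := h2
    rw [Polynomial.leadingCoeff_eq_zero] at h3
    have h4 : w = 0 := by rw [hwd, h3, Polynomial.natDegree_zero]
    omega
  refine ⟨hXlow, htup, ?_⟩
  have h1 := Sm.sub H.big (Sm.pow H.big htup 2) (hs0.mono H.big (show (0 : ℝ) ≤ ((2 : ℕ) : ℝ) * j by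
    positivity))
  have e1 : ((2 : ℕ) : ℝ) * (j : ℝ) = 2 * j := by push_cast; ring
  rw [e1] at h1
  refine h1.congr (Eventually.of_forall fun n => ?_)
  rw [ht2 n]
  ring


/-- **the coordinates are values of polynomials** -/
theorem reg_polyO (H : Ext S hS θ q x β v) (halg : ∀ s, IsAlgebraic ℚ (θ s))
    (hind : ∀ R : MvPolynomial (Option σ) ℚ, Rel q x R → R = 0) {A B : Polynomial ℤ} {F : MvPolynomial (Option σ) ℤ} {j : ℕ}
    (hw : 0 < (cusp A B).natDegree) (hF : F.totalDegree ≤ (cusp A B).natDegree * j) (hj : 0 < j)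
    (htop : topv ((cusp A B).natDegree * j) F θ ≠ 0) (X Y : ℕ → ℤ)
    (hXY : ∀ n, A.eval (X n) + B.eval (X n) * Y n = eval (px (q n) (x n)) F)
    (hd : ∀ n, |Y n ^ 2 - X n ^ 3| ≤ |X n|) :
    Sm q (2 * j) (fun n => (X n : ℂ)) ∧
    (∀ ε : ℝ, 0 < ε → ∀ᶠ n in (UU : Filter ℕ), (q n : ℝ) ^ ((2 * j : ℝ) - ε) ≤ ‖(X n : ℂ)‖) ∧
    ∃ G G2 : MvPolynomial (Option σ) ℚ, G.totalDegree ≤ 2 * j ∧ ∀ᶠ n in (UU : Filter ℕ),
      (X n : ℚ) = va (q n) (x n) G ∧ (Y n : ℚ) = va (q n) (x n) G2 := by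
  classical
  set φ := cusp A B with hφ
  set w := φ.natDegree with hwd
  have hw2 : 2 ≤ w := cusp_two A B hw
  have hjr : (1 : ℝ) ≤ j := by exact_mod_cast hj
  have hwr : (2 : ℝ) ≤ w := by exact_mod_cast hw2
  set t : ℕ → ℂ := fun n => (Y n : ℂ) / X n with ht
  set s : ℕ → ℂ := fun n => ((Y n : ℂ) ^ 2 - (X n : ℂ) ^ 3) / (X n : ℂ) ^ 2 with hs
  have hY0 : ∀ n, X n = 0 → Y n = 0 := by
    intro n h0
    have h1 := hd n
    rw [h0] at h1
    simp at h1
    exact h1
  have hYt : ∀ n, (Y n : ℂ) = t n * X n := by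
    intro n
    rw [ht]
    simp only []
    rcases eq_or_ne (X n) 0 with h0 | h0
    · rw [h0, hY0 n h0]
      simp
    · have : (X n : ℂ) ≠ 0 := by exact_mod_cast h0
      field_simp
  have ht2 : ∀ n, t n ^ 2 = (X n : ℂ) + s n := by
    intro n
    rw [ht, hs]
    simp only []
    rcases eq_or_ne (X n) 0 with h0 | h0
    · rw [h0, hY0 n h0]
      simp
    · have : (X n : ℂ) ≠ 0 := by exact_mod_cast h0
      field_simp
      ring
  have hsX : ∀ n, ‖s n‖ * ‖(X n : ℂ)‖ ≤ 1 := by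
    intro n
    rw [hs]
    simp only []
    rcases eq_or_ne (X n) 0 with h0 | h0
    · rw [h0]
      simp
    · have h1 : (0 : ℝ) < |(X n : ℝ)| := by
        rw [abs_pos]
        exact_mod_cast h0
      have h2 : |(Y n : ℝ) ^ 2 - (X n : ℝ) ^ 3| ≤ |(X n : ℝ)| := by exact_mod_cast hd n
      have h3 : ((Y n : ℂ) ^ 2 - (X n : ℂ) ^ 3) = (((Y n : ℝ) ^ 2 - (X n : ℝ) ^ 3 : ℝ) : ℂ) := by
        push_cast
        rfl
      rw [h3, norm_div, norm_pow, Complex.norm_real, Complex.norm_intCast, Real.norm_eq_abs,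
        div_mul_eq_mul_div, div_le_one (by positivity)]
      refine (mul_le_mul_of_nonneg_right h2 h1.le).trans (le_of_eq ?_)
      ring
  have hs1 : ∀ n, ‖s n‖ ≤ 1 := by
    intro n
    rcases eq_or_ne (X n) 0 with h0 | h0
    · have : s n = 0 := by
        rw [hs]
        simp only []
        rw [h0, hY0 n h0]
        simp
      rw [this, norm_zero]
      exact zero_le_one
    · refine le_trans ?_ (hsX n)
      have h1 : (1 : ℝ) ≤ ‖(X n : ℂ)‖ := by
        rw [Complex.norm_intCast]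
        exact_mod_cast Int.one_le_abs h0
      exact le_mul_of_one_le_right (norm_nonneg _) h1
  have hval : ∀ n, wf (X n) (t n) φ = ((eval (px (q n) (x n)) F : ℤ) : ℂ) := by
    intro n
    rw [hφ, wf_cusp, ← hXY n, ← hYt n]
    push_cast
    congr 1
    · rw [Polynomial.aeval_def, Polynomial.eval₂_at_intCast]
      simp
    · congr 1
      rw [Polynomial.aeval_def, Polynomial.eval₂_at_intCast]
      simp
  obtain ⟨hlow, htS, hXS⟩ := reg_sizeO H halg hw hF hj htop (fun n => (X n : ℂ)) t s hval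
    ht2 hs1
  refine ⟨hXS, hlow, ?_⟩
  have hsS : Sm q (-(2 * j)) s := by
    intro ε hε
    filter_upwards [hlow ε hε] with n hn
    have hqp := qpos H.big n
    have h1 : (0 : ℝ) < (q n : ℝ) ^ ((2 * j : ℝ) - ε) := by positivity
    have h2 : (q n : ℝ) ^ (-(2 * j : ℝ) + ε) = ((q n : ℝ) ^ ((2 * j : ℝ) - ε))⁻¹ := by
      rw [← Real.rpow_neg hqp.le]
      congr 1
      ring
    rw [h2, ← one_div, le_div_iff₀ h1]
    exact (mul_le_mul_of_nonneg_left hn (norm_nonneg _)).trans (hsX n)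
  -- the polynomial
  set P := hy φ F with hP
  have hPd : P.natDegree = w := hy_deg
  have hlc : P.leadingCoeff = C φ.leadingCoeff := hy_lc hw
  have hφ0 : φ.leadingCoeff ≠ 0 := by
    rw [Ne, Polynomial.leadingCoeff_eq_zero]
    intro h
    rw [hwd, h, Polynomial.natDegree_zero] at hw
    omega
  have hlead : topv 0 P.leadingCoeff θ ≠ 0 := by
    rw [hlc, topv_C0]
    exact_mod_cast hφ0
  have hld : P.leadingCoeff.totalDegree ≤ 0 := by rw [hlc, totalDegree_C]
  have hdeg := hy_hdeg (h := φ) (M := F) hw (E := j) hF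
  have hsep := hy_sep (h := φ) (M := F) hw (E := j) hj (θ := θ) htop
  have hfv : ∀ (n : ℕ) (z : ℂ), (P.map (evx (q n) (x n) ℂ)).eval z
      = ∑ k ∈ Finset.range (w + 1), (φ.coeff k : ℂ) * z ^ k
        - ((eval (px (q n) (x n)) F : ℤ) : ℂ) := by
    intro n z
    rw [hP, hy, Polynomial.map_sub, Polynomial.map_C, Polynomial.map_map, Polynomial.eval_sub,
      Polynomial.eval_C]
    have h1 : (evx (q n) (x n) ℂ).comp (C : ℤ →+* MvPolynomial (Option σ) ℤ) = Int.castRingHom ℂ :=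
      RingHom.ext_int _ _
    rw [h1, Polynomial.eval_map, Polynomial.eval₂_eq_sum_range]
    rfl
  have hft : Sm q (((w : ℝ) - 4) * j) (fun n => (P.map (evx (q n) (x n) ℂ)).eval (t n)) := by
    have h1 := Sm.sum H.big (Finset.range (w + 1)) (e := ((w : ℝ) - 4) * j)
      (fun k n => (φ.coeff k : ℂ) * (t n ^ (k % 2) * ((∑ i ∈ Finset.range (k / 2),
        (t n ^ 2) ^ i * (X n : ℂ) ^ (k / 2 - 1 - i)) * s n))) (by
        intro k hk
        have hk' := Nat.lt_succ_iff.1 (Finset.mem_range.1 hk)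
        rcases Nat.eq_zero_or_pos (k / 2) with h0 | h0
        · rw [h0]
          simp only [Finset.range_zero, Finset.sum_empty, zero_mul, mul_zero]
          exact Sm.zero H.big _
        · have h2 : Sm q (2 * j * ((k / 2 : ℕ) - 1 : ℝ)) (fun n => ∑ i ∈ Finset.range (k / 2),
              (t n ^ 2) ^ i * (X n : ℂ) ^ (k / 2 - 1 - i)) := by
            refine Sm.sum H.big _ _ fun i hi => ?_
            have hi' := Finset.mem_range.1 hi
            have h3 := Sm.mul H.big (Sm.pow H.big (Sm.pow H.big htS 2) i)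
              (Sm.pow H.big hXS (k / 2 - 1 - i))
            refine h3.mono H.big (le_of_eq ?_)
            have h4 : ((k / 2 - 1 - i : ℕ) : ℝ) = ((k / 2 : ℕ) : ℝ) - 1 - i := by
              rw [Nat.cast_sub (by omega), Nat.cast_sub (by omega)]
              push_cast
              ring
            rw [h4]
            push_cast
            ring
          have h3 := Sm.mul H.big (Sm.const H.big (φ.coeff k : ℂ)) (Sm.mul H.big
            (Sm.pow H.big htS (k % 2)) (Sm.mul H.big h2 hsS))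
          refine h3.mono H.big ?_
          have h4 : ((k % 2 : ℕ) : ℝ) + 2 * ((k / 2 : ℕ) : ℝ) = k := by
            have : k % 2 + 2 * (k / 2) = k := by omega
            exact_mod_cast this
          have h5 : (0 : ℝ) + (((k % 2 : ℕ) : ℝ) * j + (2 * j * (((k / 2 : ℕ) : ℝ) - 1) + -(2 * j)))
              = ((k : ℝ) - 4) * j := by
            rw [← h4]
            ring
          rw [h5]
          have h6 : (k : ℝ) ≤ w := by exact_mod_cast hk'
          exact mul_le_mul_of_nonneg_right (by linarith) (by linarith))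
    refine h1.congr (Eventually.of_forall fun n => ?_)
    rw [hfv, ← hval n, wf_range, ← Finset.sum_sub_distrib]
    refine Finset.sum_congr rfl fun k _ => ?_
    have h2 : s n = t n ^ 2 - X n := by rw [ht2 n]; ring
    rw [h2, geom_sum₂_mul, ← mul_sub]
    congr 1
    rw [mul_sub]
    congr 1
    · rw [← pow_mul, ← pow_add]
      congr 1
      omega
    · ring
  obtain ⟨ρ, hρ0, hρ⟩ := near_genO H halg (by rw [hPd]; exact hw) hlead hld hdeg hsep t hft
  have hρ' : Sm q (-(3 * j)) (fun n => t n - ρ n) := by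
    refine hρ.mono H.big (le_of_eq ?_)
    rw [hPd]
    have : (((w - 1) * j + 0 : ℕ) : ℝ) = ((w : ℝ) - 1) * j := by
      rw [add_zero, Nat.cast_mul, Nat.cast_sub (by omega)]
      push_cast
      ring
    rw [this]
    ring
  have hρS : Sm q j ρ := by
    have h1 := Sm.sub H.big htS (hρ'.mono H.big (show -(3 * (j : ℝ)) ≤ j by linarith))
    refine h1.congr (Eventually.of_forall fun n => ?_)
    ring
  have hpow : ∀ k : ℕ, Sm q (-(3 * j) + (k - 1 : ℝ) * j) (fun n => t n ^ k - ρ n ^ k) := by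
    intro k
    rcases Nat.eq_zero_or_pos k with h0 | h0
    · rw [h0]
      simp only [pow_zero, sub_self]
      exact Sm.zero H.big _
    have h1 : Sm q ((k - 1 : ℝ) * j) (fun n => ∑ i ∈ Finset.range k, t n ^ i * ρ n ^ (k - 1 - i)) := by
      refine Sm.sum H.big _ _ fun i hi => ?_
      have hi' := Finset.mem_range.1 hi
      refine (Sm.mul H.big (Sm.pow H.big htS i) (Sm.pow H.big hρS (k - 1 - i))).mono H.big
        (le_of_eq ?_)
      have h4 : ((k - 1 - i : ℕ) : ℝ) = (k : ℝ) - 1 - i := by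
        rw [Nat.cast_sub (by omega), Nat.cast_sub (by omega)]
        push_cast
        ring
      rw [h4]
      ring
    have h2 := Sm.mul H.big h1 hρ'
    refine (h2.mono H.big (le_of_eq (by ring))).congr (Eventually.of_forall fun n => ?_)
    rw [geom_sum₂_mul]
  -- the first coordinate
  have hstep : ∀ (k : ℕ) (z : ℕ → ℤ), Sm q (-1) (fun n => (z n : ℂ) - ρ n ^ k) →
      ∃ G : MvPolynomial (Option σ) ℚ, G.totalDegree ≤ k * j ∧ ∀ᶠ n in (UU : Filter ℕ),
        (z n : ℚ) = va (q n) (x n) G := by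
    intro k z hz
    obtain ⟨cf, hcf⟩ := root_pow_expN H.nr halg hlead hdeg hsep ρ hρ0 k
    exact engineO H halg hind (k * j) z cf 1 one_pos (by
        refine (Sm.add H.big hz hcf).congr (Eventually.of_forall fun n => ?_)
        ring)
  obtain ⟨G, hG1, hG⟩ := hstep 2 X (by
    have h1 := Sm.sub H.big ((hpow 2).mono H.big (show -(3 * (j : ℝ)) + (((2 : ℕ) : ℝ) - 1) * j ≤ -1 by
      push_cast
      linarith)) (hsS.mono H.big (show -(2 * (j : ℝ)) ≤ -1 by linarith))
    refine h1.congr (Eventually.of_forall fun n => ?_)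
    rw [ht2 n]
    ring)
  obtain ⟨G2, -, hG2⟩ := hstep 3 Y (by
    have h0 := Sm.mul H.big htS hsS
    have h1 := Sm.sub H.big ((hpow 3).mono H.big (show -(3 * (j : ℝ)) + (((3 : ℕ) : ℝ) - 1) * j ≤ -1 by
      push_cast
      linarith)) (h0.mono H.big (show (j : ℝ) + -(2 * (j : ℝ)) ≤ -1 by linarith))
    refine h1.congr (Eventually.of_forall fun n => ?_)
    rw [hYt n]
    have h2 : (X n : ℂ) = t n ^ 2 - s n := by rw [ht2 n]; ring
    rw [h2]
    ring)
  refine ⟨G, G2, hG1, ?_⟩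
  filter_upwards [hG, hG2] with n h1 h2
  exact ⟨h1, h2⟩

end

end Pool.Agent.Q4.Hyp
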