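import Mathlib
import Pool.Agent.Q4.Hyp.PairO

set_option autoImplicit false
set_option linter.unusedSectionVars false

/-!
# Powers of two integers with a polynomial relation to a nearly optimal approximation: theorem
-/

namespace Pool.Agent.Q4.Hyp

open Filter Topology Pool.Agent.TH932.Abs Pool.Agent.TH932.Germs Pool.Agent.TH932.Chi
open Pool.Agent.TH796.AL Pool.Agent.Q4.Blk Pool.Agent.Q4.Gcd Pool.Agent.Q4.Cov Module
open Pool.Agent.Q4.Tube hiding Near sm_fr sm_vs sm_dl dl_tendsto dl_le_one sm_ord sm_any lim_evr branch' expand' px_ne root_bnd approxS root_exp deriv_seq sm_px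
open Pool.Agent.Q4.Opt
open Pool.Agent.Q4.Hall
open MvPolynomial

section
variable {S : Finset ℕ} {hS : ∀ p ∈ S, p.Prime} {θ : Unit → ℝ} {q : ℕ → ℕ} {x : ℕ → Unit → ℤ}

/-- **The theorem for sequences.** -/
theorem pair_seqO (H : Ext S hS θ q x (fun _ => 0) (fun _ => 1)) (halg : IsAlgebraic ℚ (θ ()))
    (h3 : 3 ≤ (minpoly ℚ (θ ())).natDegree)
    {P : MvPolynomial (Fin 2) ℤ} {a b w : ℕ} (ha : 2 ≤ a) (hb : 2 ≤ b)
    (hab : Nat.Coprime a b) (hwd : (curve a b P).natDegree = w)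
    (hwt : ∀ m ∈ P.support, b * m 0 + a * m 1 ≤ w)
    (hw : 0 < w) {F : MvPolynomial (Option Unit) ℤ} {j : ℕ} (hF : F.totalDegree ≤ w * j) (hj : 0 < j)
    (htop : topv (w * j) F θ ≠ 0) (X Y : ℕ → ℤ) (hX : ∀ n, X n ≠ 0) (hY : ∀ n, Y n ≠ 0)
    (hXY : ∀ n, pv P (X n) (Y n) = eval (px (q n) (x n)) F) (hne : ∀ n, X n ^ a ≠ Y n ^ b)
    {e : ℝ} (he : e < 1 - 2 / ((minpoly ℚ (θ ())).natDegree : ℝ)
      * (1 + j * ((a : ℝ) * b - a - b)))
    (hΛ : ∀ n, |(X n : ℝ) ^ a / (Y n : ℝ) ^ b - 1| * (|(X n : ℝ)| * |(Y n : ℝ)|)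
      ≤ (q n : ℝ) ^ e) : False := by
  classical
  have hind : ∀ R : MvPolynomial (Option Unit) ℚ, Rel q x R → R = 0 :=
    fun R hR => indep H halg h3 (by simp) R hR
  set dd : ℝ := ((minpoly ℚ (θ ())).natDegree : ℝ) with hdd
  have hdd3 : 3 ≤ dd := by rw [hdd]; exact_mod_cast h3
  have hfac0 : 0 < 1 - 2 / dd := by
    rw [sub_pos, div_lt_one (by linarith)]
    linarith
  have hdd2 : 0 < 2 / dd := by positivity
  have hjr : (1 : ℝ) ≤ j := by exact_mod_cast hj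
  have har : (2 : ℝ) ≤ a := by exact_mod_cast ha
  have hbr : (2 : ℝ) ≤ b := by exact_mod_cast hb
  have hYc : ∀ n, (Y n : ℂ) ≠ 0 := fun n => by exact_mod_cast hY n
  set m : ℝ := (a : ℝ) * b - a - b with hm
  have hm0 : 0 ≤ m := by
    rw [hm]
    nlinarith
  have hjm : 0 ≤ j * m := by positivity
  have he1 : e < 1 := by
    have : 0 < 2 / dd * (1 + j * m) := by positivity
    linarith
  set ε : ℝ := 1 - e with hε
  have hε0 : 0 < ε := by rw [hε]; linarith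
  obtain ⟨hYS, hLe, G, G2, hGd, hG⟩ := pair_polyO H (fun _ => halg) hind (by omega) (by omega) hab
    hwd hwt hw hF hj htop X Y hX hY hXY hε0 (by
      intro ε' hε'
      refine Eventually.of_forall fun n => ?_
      have h1 : ((X n : ℂ) ^ a / (Y n : ℂ) ^ b - 1) * (X n * Y n)
          = ((((X n : ℝ) ^ a / (Y n : ℝ) ^ b - 1) * ((X n : ℝ) * (Y n : ℝ)) : ℝ) : ℂ) := by
        push_cast
        rfl
      beta_reduce
      rw [h1, Complex.norm_real, Real.norm_eq_abs, abs_mul, abs_mul]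
      exact (hΛ n).trans (Real.rpow_le_rpow_of_exponent_le (qone H.big n) (by
        rw [hε]
        linarith)))
  set R : MvPolynomial (Option Unit) ℚ := G2 ^ b - G ^ a with hR
  have hRv : ∀ᶠ n in (UU : Filter ℕ), va (q n) (x n) R = (Y n : ℚ) ^ b - (X n : ℚ) ^ a := by
    filter_upwards [hG] with n hn
    rw [hR, map_sub, map_pow, map_pow, ← hn.1, ← hn.2]
  have hR0 : R ≠ 0 := by
    intro h
    obtain ⟨n, hn⟩ := hRv.exists
    rw [h, map_zero] at hn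
    apply hne n
    have h2 : (Y n : ℚ) ^ b = (X n : ℚ) ^ a := (sub_eq_zero.1 hn.symm)
    exact_mod_cast h2.symm
  -- the identity
  have hid : pv P G G2 = map (Int.castRingHom ℚ) F := by
    rw [← sub_eq_zero]
    apply hind
    filter_upwards [hG] with n hn
    have h2 : va (q n) (x n) (pv P G G2) = pv P (va (q n) (x n) G) (va (q n) (x n) G2) :=
      hom_pv (va (q n) (x n)).toRingHom P G G2
    have h4 : pv P ((X n : ℤ) : ℚ) ((Y n : ℤ) : ℚ) = ((pv P (X n) (Y n) : ℤ) : ℚ) :=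
      (hom_pv (Int.castRingHom ℚ) P (X n) (Y n)).symm
    rw [map_sub, h2, ← hn.1, ← hn.2, map_px, ← hXY n, h4, sub_self]
  have hr : Psi θ G2 ^ b - Psi θ G ^ a = Psi θ R := by
    rw [hR, map_sub, map_pow, map_pow]
  have hRs : Sm q (e + j * m) (fun n => ((va (q n) (x n) R : ℚ) : ℂ)) := by
    have h1 := Sm.mul H.big hLe.neg (Sm.pow H.big hYS b)
    refine (h1.mono H.big (le_of_eq (by rw [hε, hm]; ring))).congr ?_
    filter_upwards [hRv] with n hn
    rw [hn]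
    push_cast
    have h2 := pow_ne_zero b (hYc n)
    field_simp
    ring
  have h2 := notsmO' H halg h3 R hR0 _ hRs
  rw [← hdd] at h2
  have hT : (R.totalDegree : ℝ) < 1 + j * m := by
    by_contra hcon
    rw [not_lt] at hcon
    have h4 := mul_le_mul_of_nonneg_left hcon hfac0.le
    have h5 : (1 - 2 / dd) * (1 + j * m) = 1 - 2 / dd * (1 + j * m) + j * m := by ring
    linarith
  have hnat : (Psi θ R).natDegree ≤ R.totalDegree := Phi_le_total θ R
  have hnatr : ((Psi θ R).natDegree : ℝ) ≤ R.totalDegree := by exact_mod_cast hnat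
  have hrd : (Psi θ G2 ^ b - Psi θ G ^ a).natDegree < a * b * j := by
    rw [hr]
    have h1 : ((Psi θ R).natDegree : ℝ) < ((a * b * j : ℕ) : ℝ) := by
      refine lt_of_le_of_lt hnatr (hT.trans_le ?_)
      rw [hm]
      push_cast
      nlinarith
    exact_mod_cast h1
  have hfd : (Psi θ G).natDegree = b * j := by
    have h1 : (Psi θ G).natDegree ≤ b * j := (Phi_le_total θ G).trans hGd
    by_contra h2
    have h3 := pair_deg (Psi θ G) (Psi θ G2) P (by omega) hw hj hwt (by omega) hrd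
    rw [← hom_pv, hid, Psi_int, Phi_eq θ hF htop] at h3
    exact lt_irrefl _ h3
  have hdav := dav (Psi θ G) (Psi θ G2) a b (b * j) (a * j) hfd (Nat.mul_pos (by omega) hj)
    (by omega) (by omega) (by ring) (by
    intro h
    apply hR0
    apply Psi_inj θ
    rw [← hr, h, sub_self, map_zero])
  rw [hr] at hdav
  obtain ⟨a', rfl⟩ : ∃ a', a = a' + 1 := ⟨a - 1, by omega⟩
  rw [Nat.add_sub_cancel] at hdav
  have h5 : ((a' * (b * j) + 1 : ℕ) : ℝ) ≤ (((Psi θ R).natDegree + (a' + 1) * j : ℕ) : ℝ) := by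
    exact_mod_cast hdav
  rw [hm] at hT
  push_cast at h5 hT
  nlinarith

/-- **The theorem.** -/
theorem pair_mainO (θ : Unit → ℝ) (halg : IsAlgebraic ℚ (θ ()))
    (h3 : 3 ≤ (minpoly ℚ (θ ())).natDegree)
    {P : MvPolynomial (Fin 2) ℤ} {a b w : ℕ} (ha : 2 ≤ a) (hb : 2 ≤ b)
    (hab : Nat.Coprime a b) (hwd : (curve a b P).natDegree = w)
    (hwt : ∀ m ∈ P.support, b * m 0 + a * m 1 ≤ w)
    (hw : 0 < w) {F : MvPolynomial (Option Unit) ℤ} {j : ℕ} (hF : F.totalDegree ≤ w * j) (hj : 0 < j)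
    (htop : topv (w * j) F θ ≠ 0) {e : ℝ}
    (he : e < 1 - 2 / ((minpoly ℚ (θ ())).natDegree : ℝ) * (1 + j * ((a : ℝ) * b - a - b))) :
    ∃ (η : ℝ) (N : ℕ), 0 < η ∧ ∀ q ≥ N, ∀ x : Unit → ℤ,
      (q : ℝ) * |θ () * q - x ()| ≤ (q : ℝ) ^ η → ∀ X Y : ℤ, X ≠ 0 → Y ≠ 0 →
      eval (fun i : Fin 2 => if i = 0 then X else Y) P = eval (px q x) F → X ^ a ≠ Y ^ b →
      (q : ℝ) ^ e < |(X : ℝ) ^ a / (Y : ℝ) ^ b - 1| * (|(X : ℝ)| * |(Y : ℝ)|) := by
  classical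
  obtain ⟨η, N, hη, h⟩ := none_leftO ∅ (by simp) θ (Δ := ℤ × ℤ) (fun η q x d =>
      ((q : ℝ) * |θ () * q - x ()| ≤ (q : ℝ) ^ η) ∧ d.1 ≠ 0 ∧ d.2 ≠ 0 ∧
      pv P d.1 d.2 = eval (px q x) F ∧ d.1 ^ a ≠ d.2 ^ b ∧
      |(d.1 : ℝ) ^ a / (d.2 : ℝ) ^ b - 1| * (|(d.1 : ℝ)| * |(d.2 : ℝ)|) ≤ (q : ℝ) ^ e) (by
    intro q x d β w' H' _ hd
    have H : Ext ∅ (by simp) θ q x (fun _ => 0) (fun _ => 1) := ext_one H'.big (fun n => (hd n).1)
    exact pair_seqO H halg h3 ha hb hab hwd hwt hw hF hj htop (fun n => (d n).1) (fun n => (d n).2)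
      (fun n => (hd n).2.1) (fun n => (hd n).2.2.1) (fun n => (hd n).2.2.2.1)
      (fun n => (hd n).2.2.2.2.1) he (fun n => (hd n).2.2.2.2.2))
  refine ⟨η, N, hη, fun q hq x hx X Y hX hY h1 h2 => ?_⟩
  by_contra hcon
  rw [pv_int] at h1
  exact h q hq x ⟨1, q, (one_mul q).symm, by simp, hx⟩ (X, Y) ⟨hx, hX, hY, h1, h2, not_lt.1 hcon⟩

end

end Pool.Agent.Q4.Hyp
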