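import Mathlib
import Pool.Agent.Q4.Hyp.RegO

set_option autoImplicit false
set_option linter.unusedSectionVars false

/-!
# Hall's inequality when a regular function takes the value of a polynomial at nearly optimal
approximations: theorem
-/

namespace Pool.Agent.Q4.Hyp

open Filter Topology Pool.Agent.TH932.Abs Pool.Agent.TH932.Germs Pool.Agent.TH932.Chi
open Pool.Agent.TH796.AL Pool.Agent.Q4.Blk Pool.Agent.Q4.Gcd Pool.Agent.Q4.Cov Module
open Pool.Agent.Q4.Tube hiding Near sm_fr sm_vs sm_dl dl_tendsto dl_le_one sm_ord sm_any lim_evr branch' expand' px_ne root_bnd approxS root_exp deriv_seq sm_px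
open Pool.Agent.Q4.Opt
open Pool.Agent.Q4.Hall
open MvPolynomial

section
variable {S : Finset ℕ} {hS : ∀ p ∈ S, p.Prime} {θ : Unit → ℝ} {q : ℕ → ℕ} {x : ℕ → Unit → ℤ}

/-- **The theorem for sequences.** -/
theorem reg_seqO (H : Ext S hS θ q x (fun _ => 0) (fun _ => 1)) (halg : IsAlgebraic ℚ (θ ()))
    (h3 : 3 ≤ (minpoly ℚ (θ ())).natDegree)
    {A B : Polynomial ℤ} {F : MvPolynomial (Option Unit) ℤ} {j : ℕ}
    (hw : 0 < (cusp A B).natDegree) (hF : F.totalDegree ≤ (cusp A B).natDegree * j) (hj : 0 < j)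
    (htop : topv ((cusp A B).natDegree * j) F θ ≠ 0) {e : ℝ} (he0 : 0 < e)
    (he : e < (1 - 2 / ((minpoly ℚ (θ ())).natDegree : ℝ)) * (1 / 2 + 1 / (2 * j))) (X Y : ℕ → ℤ)
    (hXY : ∀ n, A.eval (X n) + B.eval (X n) * Y n = eval (px (q n) (x n)) F)
    (hne : ∀ n, Y n ^ 2 ≠ X n ^ 3)
    (hd : ∀ n, |(Y n : ℝ) ^ 2 - (X n : ℝ) ^ 3| ≤ |(X n : ℝ)| ^ e) : False := by
  classical
  have hind : ∀ R : MvPolynomial (Option Unit) ℚ, Rel q x R → R = 0 :=
    fun R hR => indep H halg h3 (by simp) R hR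
  set dd : ℝ := ((minpoly ℚ (θ ())).natDegree : ℝ) with hdd
  have hdd3 : 3 ≤ dd := by rw [hdd]; exact_mod_cast h3
  have hfac0 : 0 < 1 - 2 / dd := by
    rw [sub_pos, div_lt_one (by linarith)]
    linarith
  have hfac1 : 1 - 2 / dd ≤ 1 := by
    have : 0 < 2 / dd := by positivity
    linarith
  have hjr : (1 : ℝ) ≤ j := by exact_mod_cast hj
  have he1 : e ≤ 1 := by
    have h1 : 1 / (2 * (j : ℝ)) ≤ 1 / 2 := by
      apply one_div_le_one_div_of_le <;> linarith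
    have h2 : (1 - 2 / dd) * (1 / 2 + 1 / (2 * j)) ≤ 1 * (1 / 2 + 1 / (2 * (j : ℝ))) := by
      apply mul_le_mul_of_nonneg_right hfac1
      positivity
    linarith
  have hd' : ∀ n, |Y n ^ 2 - X n ^ 3| ≤ |X n| := by
    intro n
    have h1 : |(X n : ℝ)| ^ e ≤ |(X n : ℝ)| := by
      rcases eq_or_ne (X n) 0 with h0 | h0
      · rw [h0, Int.cast_zero, abs_zero, Real.zero_rpow he0.ne']
      · have h2 : (1 : ℝ) ≤ |(X n : ℝ)| := by exact_mod_cast Int.one_le_abs h0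
        calc |(X n : ℝ)| ^ e ≤ |(X n : ℝ)| ^ (1 : ℝ) := Real.rpow_le_rpow_of_exponent_le h2 he1
          _ = _ := Real.rpow_one _
    exact_mod_cast (hd n).trans h1
  obtain ⟨hXS, -, G, G2, hGd, hG⟩ := reg_polyO H (fun _ => halg) hind hw hF hj htop X Y hXY hd'
  set R : MvPolynomial (Option Unit) ℚ := G2 ^ 2 - G ^ 3 with hR
  have hRv : ∀ᶠ n in (UU : Filter ℕ), va (q n) (x n) R = (Y n : ℚ) ^ 2 - (X n : ℚ) ^ 3 := by
    filter_upwards [hG] with n hn
    rw [hR, map_sub, map_pow, map_pow, ← hn.1, ← hn.2]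
  have hR0 : R ≠ 0 := by
    intro h
    obtain ⟨n, hn⟩ := hRv.exists
    rw [h, map_zero] at hn
    apply hne n
    have h2 : (Y n : ℚ) ^ 2 = (X n : ℚ) ^ 3 := (sub_eq_zero.1 hn.symm)
    exact_mod_cast h2
  -- the identity
  have hid : ev G A + ev G B * G2 = map (Int.castRingHom ℚ) F := by
    rw [← sub_eq_zero]
    apply hind
    filter_upwards [hG] with n hn
    have h1 : ∀ T : Polynomial ℤ, va (q n) (x n) (ev G T) = ((T.eval (X n) : ℤ) : ℚ) := by
      intro T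
      have h2 : va (q n) (x n) (ev G T) = ev (va (q n) (x n) G) T :=
        hom_ev (va (q n) (x n)).toRingHom G T
      rw [h2, ← hn.1, ev, Polynomial.eval₂_at_intCast]
      simp
    rw [map_sub, map_add, map_mul, h1, h1, ← hn.2, map_px, ← hXY n]
    push_cast
    ring
  have hr : Psi θ G2 ^ 2 - Psi θ G ^ 3 = Psi θ R := by
    rw [hR, map_sub, map_pow, map_pow]
  have hRd : R.totalDegree ≤ j := by
    have h1 : Sm q (2 * j * e) (fun n => ((va (q n) (x n) R : ℚ) : ℂ)) := by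
      intro ε hε
      filter_upwards [hXS (ε / e) (by positivity), hRv] with n hn hRn
      rw [hRn]
      have h2 : (((Y n : ℚ) ^ 2 - (X n : ℚ) ^ 3 : ℚ) : ℂ) = (((Y n : ℝ) ^ 2 - (X n : ℝ) ^ 3 : ℝ) : ℂ) := by
        push_cast
        rfl
      rw [h2, Complex.norm_real, Real.norm_eq_abs]
      refine (hd n).trans ?_
      rw [Complex.norm_intCast] at hn
      refine (Real.rpow_le_rpow (abs_nonneg _) hn he0.le).trans (le_of_eq ?_)
      rw [← Real.rpow_mul (qpos H.big n).le]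
      congr 1
      field_simp
    have h2 := notsmO' H halg h3 R hR0 _ h1
    rw [← hdd] at h2
    have h3' : 2 * j * e < (1 - 2 / dd) * (j + 1) := by
      have h4 : 2 * (j : ℝ) * ((1 - 2 / dd) * (1 / 2 + 1 / (2 * j))) = (1 - 2 / dd) * (j + 1) := by
        field_simp
      rw [← h4]
      exact mul_lt_mul_of_pos_left he (by positivity)
    have h5 : (R.totalDegree : ℝ) < ((j + 1 : ℕ) : ℝ) := by
      push_cast
      exact lt_of_mul_lt_mul_left (h2.trans_lt h3') hfac0.le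
    exact Nat.lt_succ_iff.1 (by exact_mod_cast h5)
  have hrd : (Psi θ G2 ^ 2 - Psi θ G ^ 3).natDegree ≤ j := by
    rw [hr]
    exact (Phi_le_total θ R).trans hRd
  have hfd : (Psi θ G).natDegree = 2 * j := by
    have h1 : (Psi θ G).natDegree ≤ 2 * j := (Phi_le_total θ G).trans hGd
    by_contra h2
    have h3' := cusp_deg (Psi θ G) (Psi θ G2) A B hj hw (by omega) hrd
    have h4 : ev (Psi θ G) A + ev (Psi θ G) B * Psi θ G2 = Phi θ (map (Int.castRingHom ℝ) F) := by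
      rw [← Psi_int, ← hid, map_add, map_mul, hom_ev, hom_ev]
    rw [h4, Phi_eq θ hF htop] at h3'
    exact lt_irrefl _ h3'
  have hdav := dav (Psi θ G) (Psi θ G2) 3 2 (2 * j) (3 * j) hfd (by omega) (by norm_num)
    (by norm_num) (by ring) (by
    intro h
    apply hR0
    apply Psi_inj θ
    rw [← hr, h, sub_self, map_zero])
  omega

/-- **The theorem.** -/
theorem reg_mainO (θ : Unit → ℝ) (halg : IsAlgebraic ℚ (θ ()))
    (h3 : 3 ≤ (minpoly ℚ (θ ())).natDegree)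
    {A B : Polynomial ℤ} {F : MvPolynomial (Option Unit) ℤ} {j : ℕ}
    (hw : 0 < (cusp A B).natDegree) (hF : F.totalDegree ≤ (cusp A B).natDegree * j) (hj : 0 < j)
    (htop : topv ((cusp A B).natDegree * j) F θ ≠ 0) {e : ℝ} (he0 : 0 < e)
    (he : e < (1 - 2 / ((minpoly ℚ (θ ())).natDegree : ℝ)) * (1 / 2 + 1 / (2 * j))) :
    ∃ (η : ℝ) (N : ℕ), 0 < η ∧ ∀ q ≥ N, ∀ x : Unit → ℤ,
      (q : ℝ) * |θ () * q - x ()| ≤ (q : ℝ) ^ η → ∀ X Y : ℤ,
      A.eval X + B.eval X * Y = eval (px q x) F → Y ^ 2 ≠ X ^ 3 →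
      |(X : ℝ)| ^ e < |(Y : ℝ) ^ 2 - (X : ℝ) ^ 3| := by
  classical
  obtain ⟨η, N, hη, h⟩ := none_leftO ∅ (by simp) θ (Δ := ℤ × ℤ) (fun η q x d =>
      ((q : ℝ) * |θ () * q - x ()| ≤ (q : ℝ) ^ η) ∧
      A.eval d.1 + B.eval d.1 * d.2 = eval (px q x) F ∧ d.2 ^ 2 ≠ d.1 ^ 3 ∧
      |(d.2 : ℝ) ^ 2 - (d.1 : ℝ) ^ 3| ≤ |(d.1 : ℝ)| ^ e) (by
    intro q x d β w H' _ hd
    have H : Ext ∅ (by simp) θ q x (fun _ => 0) (fun _ => 1) := ext_one H'.big (fun n => (hd n).1)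
    exact reg_seqO H halg h3 hw hF hj htop he0 he (fun n => (d n).1) (fun n => (d n).2)
      (fun n => (hd n).2.1) (fun n => (hd n).2.2.1) (fun n => (hd n).2.2.2))
  refine ⟨η, N, hη, fun q hq x hx X Y h1 h2 => ?_⟩
  by_contra hcon
  exact h q hq x ⟨1, q, (one_mul q).symm, by simp, hx⟩ (X, Y) ⟨hx, h1, h2, not_lt.1 hcon⟩

end

end Pool.Agent.Q4.Hyp
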